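import Pool.Agent.helper12.GS.Pm
import Pool.Agent.helper14.QF.InstE

/-!
Generated: parametric straight line program and compiled form.
-/

namespace Pool.Agent.helper12.GS.LBQ

open Pool.Agent.helper31.IA (Z)
open Pool.Agent.helper31.IX (Op XOps runX Cov CovD cov_split covD_split)
open Pool.Agent.helper31.IC (Ops TD)

abbrev opsE : XOps := Pool.Agent.helper14.QF.xE

def prog0 (p : Pm) : List Op := [
  .const ⟨1099511627776, 0, 0, 0⟩,
  .scale ⟨2199023255552, 0, 0, 0⟩ 3,
  .mul 3 1,
  .mul 0 3,
  .mul 5 4,
  .lt 1 91625968981,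
  .const ⟨45812984491, 0, 0, 0⟩,
  .mul 0 2,
  .const ⟨183251937963, 0, 0, 0⟩,
  .add 1 0,
  .mul 0 5,
  .const ⟨549755813888, 0, 0, 0⟩,
  .add 1 0,
  .mul 0 8,
  .const ⟨1099511627776, 0, 0, 0⟩,
  .add 1 0,
  .ball 0 530244,
  .neg 12,
  .lt 0 91625968981,
  .mul 11 0,
  .add 0 10,
  .mul 0 2,
  .add 0 9,
  .mul 0 4,
  .add 0 8,
  .ball 0 530244,
  .add 8 0,
  .scale ⟨549755813888, 0, 0, 0⟩ 0,
  .sub 10 2,
  .mul 23 0,
  .scale ⟨549755813888, 0, 0, 0⟩ 0,
  .add 0 15,
  .mul 4 0,
  .mul 5 30,
  .mul 0 0,
  .scale ⟨4398046511104, 0, 0, 0⟩ 0,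
  .mul 33 3,
  .scale ⟨2199023255552, 0, 0, 0⟩ 0,
  .mul 2 31,
  .scale ⟨549755813888, 0, 0, 0⟩ 0,
  .scale ⟨2199023255552, 0, 0, 0⟩ 35,
  .neg 0,
  .lt 0 1099511627776,
  .const ⟨218157069, 0, 0, 0⟩,
  .mul 0 1,
  .const ⟨1527099483, 0, 0, 0⟩,
  .add 1 0,
  .mul 0 4,
  .const ⟨9162596898, 0, 0, 0⟩,
  .add 1 0,
  .mul 0 7,
  .add 0 42,
  .mul 0 9,
  .add 0 42,
  .mul 0 11,
  .add 0 41,
  .mul 0 13,
  .add 0 40,
  .ball 0 30678339,
  .mul 55 0,
  .neg 0,
  .mul 59 0,
  .lt 0 274877906944,
  .const ⟨157073089682, 0, 0, 0⟩,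
  .mul 0 1,
  .const ⟨0, 183251937963, 0, 0⟩,
  .add 1 0,
  .mul 0 4,
  .const ⟨219902325555, 0, 0, 0⟩,
  .add 1 0,
  .mul 0 7,
  .const ⟨0, 274877906944, 0, 0⟩,
  .add 1 0,
  .mul 0 10,
  .const ⟨366503875925, 0, 0, 0⟩,
  .add 1 0,
  .mul 0 13,
  .const ⟨0, 549755813888, 0, 0⟩,
  .add 1 0,
  .mul 0 16,
  .add 0 62,
  .ball 0 11184812,
  .mul 20 0,
  .const p.ec,
  .const p.bc,
  .sub 81 1,
  .sub 79 1,
  .scale ⟨2199023255552, 0, 0, 0⟩ 79,
  .const p.nn,
  .const p.s11,
  .mul 0 3,
  .const p.s10,
  .add 1 0,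
  .mul 0 7,
  .const p.s03,
  .mul 0 8,
  .const p.s02,
  .add 1 0,
  .mul 0 11,
  .const p.s01,
  .add 1 0,
  .mul 0 14,
  .const p.s00,
  .add 1 0,
  .add 10 0,
  .mul 16 17,
  .neg 0,
  .lt 0 1099511627776,
  .mul 62 0,
  .add 0 61,
  .mul 0 2,
  .add 0 60,
  .mul 0 4,
  .add 0 102,
  .mul 0 6,
  .add 0 102,
  .mul 0 8,
  .add 0 101,
  .mul 0 10,
  .add 0 100,
  .ball 0 30678339,
  .mul 14 0,
  .sub 103 0,
  .const ⟨2199023255552, 0, 0, 0⟩,
  .sub 0 2,
  .mul 4 0,
  .mul 36 0,
  .mul 91 21,
  .mul 5 5,
  .mul 1 0,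
  .sub 3 0,
  .mul 42 0,
  .sub 8 0,
  .mul 127 127,
  .mul 98 3,
  .mul 1 0,
  .mul 126 0,
  .scale ⟨4398046511104, 0, 0, 0⟩ 0,
  .mul 131 5,
  .scale ⟨0, 0, 1099511627776, 0⟩ 0,
  .add 2 0,
  .mul 8 105,
  .mul 132 135,
  .mul 0 12,
  .scale ⟨0, 0, 1099511627776, 0⟩ 0,
  .add 3 0,
  .mul 110 5,
  .inv 1,
  .mul 1 0,
  .add 106 0,
  .mul 140 0,
  .add 0 132,
  .inv 0,
  .mul 3 0,
  .add 1 135,
  .mul 1 0,
  .mul 152 0,
  .neg 68,
  .exp 0,
  .const p.h800,
  .mul 0 3,
  .const p.h700,
  .add 1 0,
  .mul 0 6,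
  .const p.h600,
  .add 1 0,
  .mul 0 9,
  .const p.h501,
  .mul 0 80,
  .const p.h500,
  .add 1 0,
  .add 4 0,
  .mul 0 15,
  .const p.h410,
  .mul 0 87,
  .const p.h401,
  .mul 0 88,
  .const p.h400,
  .add 1 0,
  .add 4 0,
  .add 7 0,
  .mul 0 24,
  .const p.h310,
  .mul 0 96,
  .const p.h301,
  .mul 0 97,
  .const p.h300,
  .add 1 0,
  .add 4 0,
  .add 7 0,
  .mul 0 33,
  .const p.h211,
  .mul 0 104,
  .const p.h210,
  .add 1 0,
  .mul 0 108,
  .const p.h202,
  .mul 0 109,
  .const p.h201,
  .add 1 0,
  .mul 0 112,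
  .const p.h200,
  .add 1 0,
  .add 7 0,
  .add 13 0,
  .mul 0 48,
  .const p.h120,
  .mul 0 120,
  .const p.h111,
  .mul 0 121,
  .const p.h110,
  .add 1 0,
  .add 4 0,
  .mul 0 126,
  .const p.h102,
  .mul 0 127,
  .const p.h101,
  .add 1 0,
  .mul 0 130,
  .const p.h100,
  .add 1 0,
  .add 7 0,
  .add 16 0,
  .mul 0 66,
  .const p.h030,
  .mul 0 138,
  .const p.h021,
  .mul 0 139,
  .const p.h020,
  .add 1 0,
  .add 4 0,
  .mul 0 144,
  .const p.h012,
  .mul 0 145,
  .const p.h011,
  .add 1 0,
  .mul 0 148,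
  .const p.h010,
  .add 1 0,
  .add 7 0,
  .mul 0 153,
  .const p.h003,
  .mul 0 154,
  .const p.h002,
  .add 1 0,
  .mul 0 157,
  .const p.h001,
  .add 1 0,
  .mul 0 160,
  .const p.h000,
  .add 1 0,
  .add 10 0,
  .add 28 0,
  .const p.w1,
  .const p.wr,
  .const p.wi,
  .mul 2 169,
  .add 0 2,
  .mul 2 2,
  .const p.g11,
  .mul 0 172,
  .const p.g10,
  .add 1 0,
  .mul 0 176,
  .const p.g01,
  .mul 0 177,
  .const p.g00,
  .add 1 0,
  .add 4 0,
  .const p.f11,
  .mul 0 182,
  .const p.f10,
  .add 1 0,
  .mul 0 186,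
  .const p.f01,
  .mul 0 187,
  .const p.f00,
  .add 1 0,
  .add 4 0,
  .sub 122 21,
  .mul 11 0,
  .add 0 2,
  .mul 2 2,
  .add 0 24,
  .inv 0,
  .mul 3 0,
  .add 33 0,
  .scale ⟨2199023255552, 0, 0, 0⟩ 281,
  .sub 139 247,
  .add 130 136,
  .mul 131 0,
  .mul 138 0,
  .mul 3 0,
  .add 6 277,
  .mul 1 0,
  .add 7 0,
  .const p.a11,
  .mul 0 209,
  .const p.a10,
  .add 1 0,
  .mul 0 213,
  .const p.a03,
  .mul 0 214,
  .const p.a02,
  .add 1 0,
  .mul 0 217,
  .const p.a01,
  .add 1 0,
  .mul 0 220,
  .const p.a00,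
  .add 1 0,
  .add 10 0,
  .scale ⟨2199023255552, 0, 0, 0⟩ 0,
  .const p.ca,
  .add 165 273,
  .mul 2 0,
  .mul 312 167,
  .mul 3 0,
  .add 0 299,
  .inv 0,
  .mul 4 0,
  .mul 317 25,
  .neg 0,
  .lt 0 1099511627776,
  .mul 277 0,
  .add 0 276,
  .mul 0 2,
  .add 0 275,
  .mul 0 4,
  .add 0 317,
  .mul 0 6,
  .add 0 317,
  .mul 0 8,
  .add 0 316,
  .mul 0 10,
  .add 0 315,
  .ball 0 30678339,
  .mul 40 0,
  .scale ⟨0, 549755813888, 0, 0⟩ 0,
  .mul 334 0,
  .scale ⟨2199023255552, 0, 0, 0⟩ 0,
  .add 0 321,
  .lt 2 412316860416,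
  .const ⟨122167958642, 0, 0, 0⟩,
  .mul 0 3,
  .const ⟨0, 137438953472, 0, 0⟩,
  .add 1 0,
  .mul 0 6,
  .add 0 281,
  .mul 0 8,
  .add 0 281,
  .mul 0 10,
  .add 0 280,
  .mul 0 12,
  .add 0 279,
  .mul 0 14,
  .add 0 278,
  .mul 0 16,
  .add 0 277,
  .mul 0 18,
  .add 0 339,
  .ball 0 25798904,
  .mul 22 0,
  .mul 40 359,
  .mul 21 0,
  .mul 359 0,
  .lt 0 412316860416,
  .mul 22 0,
  .add 0 21,
  .mul 0 2,
  .add 0 302,
  .mul 0 4,
  .add 0 302,
  .mul 0 6,
  .add 0 301,
  .mul 0 8,
  .add 0 300,
  .mul 0 10,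
  .add 0 299,
  .mul 0 12,
  .add 0 298,
  .mul 0 14,
  .add 0 360,
  .ball 0 25798904,
  .mul 18 0,
  .mul 378 20,
  .neg 0,
  .lt 0 412316860416,
  .mul 42 0,
  .add 0 41,
  .mul 0 2,
  .add 0 322,
  .mul 0 4,
  .add 0 322,
  .mul 0 6,
  .add 0 321,
  .mul 0 8,
  .add 0 320,
  .mul 0 10,
  .add 0 319,
  .mul 0 12,
  .add 0 318,
  .mul 0 14,
  .add 0 380,
  .ball 0 25798904,
  .mul 39 0,
  .neg 0,
  .sub 21 0,
  .add 0 108,
  .add 399 321,
  .add 0 3,
  .sub 0 111,
  .sub 0 47,
  .mul 399 4,
  .lt 0 274877906944,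
  .mul 399 0,
  .add 0 398,
  .mul 0 2,
  .add 0 397,
  .mul 0 4,
  .add 0 396,
  .ball 0 42949674,
  .mul 12 0,
  .mul 408 0,
  .add 0 400,
  .scale ⟨2199023255552, 0, 0, 0⟩ 11,
  .add 0 16,
  .mul 412 0,
  .neg 0,
  .lt 0 274877906944,
  .mul 413 0,
  .add 0 412,
  .mul 0 2,
  .add 0 411,
  .mul 0 4,
  .add 0 410,
  .ball 0 42949674,
  .mul 7 0,
  .add 0 413,
  .add 13 414,
  .mul 395 1,
  .mul 0 1,
  .mul 426 0,
  .mul 281 17,
  .add 1 0,
  .mul 429 0,
  .lt 0 412316860416,
  .mul 98 0,
  .add 0 97,
  .mul 0 2,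
  .add 0 378,
  .mul 0 4,
  .add 0 378,
  .mul 0 6,
  .add 0 377,
  .mul 0 8,
  .add 0 376,
  .mul 0 10,
  .add 0 375,
  .mul 0 12,
  .add 0 374,
  .mul 0 14,
  .add 0 436,
  .ball 0 25798904,
  .mul 18 0,
  .mul 448 0,
  .scale ⟨549755813888, 0, 0, 0⟩ 0,
  .lt 0 274877906944,
  .mul 449 0,
  .add 0 448,
  .mul 0 2,
  .add 0 447,
  .mul 0 4,
  .add 0 446,
  .ball 0 42949674,
  .mul 7 0,
  .add 425 314,
  .mul 51 314,
  .scale ⟨2199023255552, 0, 0, 0⟩ 1,
  .sub 1 0,
  .mul 462 318,
  .mul 55 0,
  .mul 52 43,
  .mul 0 41,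
  .scale ⟨2199023255552, 0, 0, 0⟩ 0,
  .sub 3 0,
  .scale ⟨2199023255552, 0, 0, 0⟩ 435,
  .sub 1 0,
  .mul 11 8,
  .mul 438 1,
  .add 1 0,
  .add 440 14,
  .mul 474 0,
  .add 0 361,
  .add 18 0,
  .inv 0,
  .mul 5 0,
  .mul 479 0,
  .add 21 0,
  .const p.t11,
  .mul 0 404,
  .const p.t10,
  .add 1 0,
  .mul 0 408,
  .const p.t03,
  .mul 0 409,
  .const p.t02,
  .add 1 0,
  .mul 0 412,
  .const p.t01,
  .add 1 0,
  .mul 0 415,
  .const p.t00,
  .add 1 0,
  .add 10 0,
  .lt 0 2199023255552,
  .const p.tj,
  .mul 0 419,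
  .neg 0,
  .exp 0,
  .mul 4 0,
  .mul 508 21,
  .const p.m300,
  .mul 0 357,
  .const p.m200,
  .add 1 0,
  .mul 0 360,
  .const p.m110,
  .mul 0 432,
  .const p.m101,
  .mul 0 433,
  .const p.m100,
  .add 1 0,
  .add 4 0,
  .add 7 0,
  .mul 0 369,
  .const p.m010,
  .mul 0 441,
  .const p.m002,
  .mul 0 442,
  .const p.m001,
  .add 1 0,
  .mul 0 445,
  .const p.m000,
  .add 1 0,
  .add 7 0,
  .add 10 0,
  .pos 0,
  .const p.ax,
  .mul 0 534,
  .const p.ay,
  .add 1 0,
  .const p.xa,
  .const p.C2,
  .add 76 525,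
  .inv 0,
  .add 503 55,
  .mul 0 1,
  .add 69 0,
  .mul 539 0,
  .lt 0 274877906944,
  .mul 485 0,
  .add 0 484,
  .mul 0 2,
  .add 0 483,
  .mul 0 4,
  .add 0 482,
  .mul 0 6,
  .add 0 481,
  .mul 0 8,
  .add 0 480,
  .mul 0 10,
  .add 0 542,
  .ball 0 11184812,
  .mul 14 0,
  .add 14 545,
  .inv 0,
  .mul 17 0,
  .add 88 0,
  .mul 558 0,
  .lt 0 274877906944,
  .mul 504 0,
  .add 0 503,
  .mul 0 2,
  .add 0 502,
  .mul 0 4,
  .add 0 501,
  .mul 0 6,
  .add 0 500,
  .mul 0 8,
  .add 0 499,
  .mul 0 10,
  .add 0 561,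
  .ball 0 11184812,
  .mul 14 0,
  .mul 579 19,
  .neg 0,
  .mul 581 2,
  .neg 0,
  .lt 2 1099511627776,
  .mul 541 2,
  .add 0 540,
  .mul 0 4,
  .add 0 539,
  .mul 0 6,
  .add 0 581,
  .mul 0 8,
  .add 0 581,
  .mul 0 10,
  .add 0 580,
  .mul 0 12,
  .add 0 579,
  .ball 0 30678339,
  .mul 36 0,
  .lt 14 1099511627776,
  .mul 555 14,
  .add 0 554,
  .mul 0 16,
  .add 0 553,
  .mul 0 18,
  .add 0 595,
  .mul 0 20,
  .add 0 595,
  .mul 0 22,
  .add 0 594,
  .mul 0 24,
  .add 0 593,
  .ball 0 30678339,
  .mul 31 0,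
  .mul 611 0,
  .sub 597 0,
  .add 0 598,
  .inv 0,
  .mul 2 0,
  .lt 0 (p.B1),
  .mul 5 1,
  .scale ⟨549755813888, 0, 0, 0⟩ 0,
  .sub 54 579,
  .mul 0 0,
  .mul 583 583,
  .sub 1 0,
  .mul 616 0,
  .mul 8 8,
  .mul 9 0,
  .mul 12 0,
  .mul 3 0,
  .mul 0 87,
  .rball 10 0,
  .scale ⟨2199023255552, 0, 0, 0⟩ 0,
  .sub 33 0,
  .mul 34 2,
  .mul 632 0,
  .scale ⟨2199023255552, 0, 0, 0⟩ 0,
  .add 3 0,
  .add 96 620,
  .mul 551 0,
  .lt 0 1099511627776,
  .mul 595 0,
  .add 0 594,
  .mul 0 2,
  .add 0 593,
  .mul 0 4,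
  .add 0 635,
  .mul 0 6,
  .add 0 635,
  .mul 0 8,
  .add 0 634,
  .mul 0 10,
  .add 0 633,
  .ball 0 30678339,
  .neg 13,
  .lt 0 1099511627776,
  .mul 609 0,
  .add 0 608,
  .mul 0 2,
  .add 0 607,
  .mul 0 4,
  .add 0 649,
  .mul 0 6,
  .add 0 649,
  .mul 0 8,
  .add 0 648,
  .mul 0 10,
  .add 0 647,
  .ball 0 30678339,
  .add 14 0,
  .scale ⟨549755813888, 0, 0, 0⟩ 0,
  .mul 581 127,
  .neg 0,
  .exp 0,
  .mul 131 637,
  .mul 4 34,
  .inv 0,
  .mul 3 0,
  .mul 3 0,
  .add 187 637,
  .mul 0 133,
  .mul 2 0,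
  .scale ⟨549755813888, 0, 0, 0⟩ 223,
  .sub 0 386,
  .sub 0 322,
  .mul 680 0,
  .neg 0,
  .lt 0 274877906944,
  .mul 675 0,
  .add 0 674,
  .mul 0 2,
  .add 0 673,
  .mul 0 4,
  .add 0 672,
  .ball 0 42949674,
  .mul 7 0,
  .add 0 675,
  .inv 374,
  .mul 12 3,
  .mul 2 58,
  .sub 1 0,
  .mul 0 3,
  .sub 698 0,
  .mul 163 0,
  .sub 700 0,
  .mul 699 64,
  .sub 685 0,
  .mul 24 9,
  .mul 1 0,
  .mul 12 0,
  .mul 170 0,
  .lt 196 549755813888,
  .add 668 218,
  .add 669 241,
  .mul 1 0,
  .mul 0 200,
  .mul 677 224,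
  .scale ⟨2199023255552, 0, 0, 0⟩ 0,
  .inv 2,
  .mul 1 0,
  .lt 0 1099511627776,
  .rball 14 8,
  .lt 0 1099243192320]

set_option maxRecDepth 1000000 in
set_option linter.unusedVariables false in
noncomputable def chk0 {α : Type} (cst : Z → α) (add sub mul : α → α → α) (scale : Z → α → α)
    (neg inv exp log : α → α) (ok : α → Bool) (isPos : Nat → α → Bool) (isLt : α → Nat → Bool)
    (ball : Nat → α → α) (rball : α → α → α) (p : Pm) : List α → Bool
  | [x0, x1, x2, x3] =>
  let v0 := cst ⟨1099511627776, 0, 0, 0⟩; ok v0 && (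
  let v1 := scale ⟨2199023255552, 0, 0, 0⟩ x2; ok v1 && (
  let v2 := mul x1 v0; ok v2 && (
  let v3 := mul v2 x0; ok v3 && (
  let v4 := mul x1 x0; ok v4 && (
  isLt v3 91625968981 && (
  let v5 := cst ⟨45812984491, 0, 0, 0⟩; ok v5 && (
  let v6 := mul v5 v3; ok v6 && (
  let v7 := cst ⟨183251937963, 0, 0, 0⟩; ok v7 && (
  let v8 := add v6 v7; ok v8 && (
  let v9 := mul v8 v3; ok v9 && (
  let v10 := cst ⟨549755813888, 0, 0, 0⟩; ok v10 && (
  let v11 := add v9 v10; ok v11 && (
  let v12 := mul v11 v3; ok v12 && (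
  let v13 := cst ⟨1099511627776, 0, 0, 0⟩; ok v13 && (
  let v14 := add v12 v13; ok v14 && (
  let v15 := ball 530244 v14; ok v15 && (
  let v16 := neg v3; ok v16 && (
  isLt v16 91625968981 && (
  let v17 := mul v5 v16; ok v17 && (
  let v18 := add v17 v7; ok v18 && (
  let v19 := mul v18 v16; ok v19 && (
  let v20 := add v19 v10; ok v20 && (
  let v21 := mul v20 v16; ok v21 && (
  let v22 := add v21 v13; ok v22 && (
  let v23 := ball 530244 v22; ok v23 && (
  let v24 := add v15 v23; ok v24 && (
  let v25 := scale ⟨549755813888, 0, 0, 0⟩ v24; ok v25 && (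
  let v26 := sub v15 v23; ok v26 && (
  let v27 := mul v3 v26; ok v27 && (
  let v28 := scale ⟨549755813888, 0, 0, 0⟩ v27; ok v28 && (
  let v29 := add v28 v13; ok v29 && (
  let v30 := mul v25 v29; ok v30 && (
  let v31 := mul v25 v0; ok v31 && (
  let v32 := mul v31 v31; ok v32 && (
  let v33 := scale ⟨4398046511104, 0, 0, 0⟩ v32; ok v33 && (
  let v34 := mul v0 v30; ok v34 && (
  let v35 := scale ⟨2199023255552, 0, 0, 0⟩ v34; ok v35 && (
  let v36 := mul v33 v4; ok v36 && (
  let v37 := scale ⟨549755813888, 0, 0, 0⟩ v36; ok v37 && (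
  let v38 := scale ⟨2199023255552, 0, 0, 0⟩ v2; ok v38 && (
  let v39 := neg v38; ok v39 && (
  isLt v39 1099511627776 && (
  let v40 := cst ⟨218157069, 0, 0, 0⟩; ok v40 && (
  let v41 := mul v40 v39; ok v41 && (
  let v42 := cst ⟨1527099483, 0, 0, 0⟩; ok v42 && (
  let v43 := add v41 v42; ok v43 && (
  let v44 := mul v43 v39; ok v44 && (
  let v45 := cst ⟨9162596898, 0, 0, 0⟩; ok v45 && (
  let v46 := add v44 v45; ok v46 && (
  let v47 := mul v46 v39; ok v47 && (
  let v48 := add v47 v5; ok v48 && (
  let v49 := mul v48 v39; ok v49 && (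
  let v50 := add v49 v7; ok v50 && (
  let v51 := mul v50 v39; ok v51 && (
  let v52 := add v51 v10; ok v52 && (
  let v53 := mul v52 v39; ok v53 && (
  let v54 := add v53 v13; ok v54 && (
  let v55 := ball 30678339 v54; ok v55 && (
  let v56 := mul v0 v55; ok v56 && (
  let v57 := neg v56; ok v57 && (
  let v58 := mul x1 v57; ok v58 && (
  isLt v58 274877906944 && (
  let v59 := cst ⟨157073089682, 0, 0, 0⟩; ok v59 && (
  let v60 := mul v59 v58; ok v60 && (
  let v61 := cst ⟨0, 183251937963, 0, 0⟩; ok v61 && (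
  let v62 := add v60 v61; ok v62 && (
  let v63 := mul v62 v58; ok v63 && (
  let v64 := cst ⟨219902325555, 0, 0, 0⟩; ok v64 && (
  let v65 := add v63 v64; ok v65 && (
  let v66 := mul v65 v58; ok v66 && (
  let v67 := cst ⟨0, 274877906944, 0, 0⟩; ok v67 && (
  let v68 := add v66 v67; ok v68 && (
  let v69 := mul v68 v58; ok v69 && (
  let v70 := cst ⟨366503875925, 0, 0, 0⟩; ok v70 && (
  let v71 := add v69 v70; ok v71 && (
  let v72 := mul v71 v58; ok v72 && (
  let v73 := cst ⟨0, 549755813888, 0, 0⟩; ok v73 && (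
  let v74 := add v72 v73; ok v74 && (
  let v75 := mul v74 v58; ok v75 && (
  let v76 := add v75 v13; ok v76 && (
  let v77 := ball 11184812 v76; ok v77 && (
  let v78 := mul v57 v77; ok v78 && (
  let v79 := cst (p.ec); ok v79 && (
  let v80 := cst (p.bc); ok v80 && (
  let v81 := sub x0 v79; ok v81 && (
  let v82 := sub v2 v80; ok v82 && (
  let v83 := scale ⟨2199023255552, 0, 0, 0⟩ v3; ok v83 && (
  let v84 := cst (p.nn); ok v84 && (
  let v85 := cst (p.s11); ok v85 && (
  let v86 := mul v85 v82; ok v86 && (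
  let v87 := cst (p.s10); ok v87 && (
  let v88 := add v86 v87; ok v88 && (
  let v89 := mul v88 v81; ok v89 && (
  let v90 := cst (p.s03); ok v90 && (
  let v91 := mul v90 v82; ok v91 && (
  let v92 := cst (p.s02); ok v92 && (
  let v93 := add v91 v92; ok v93 && (
  let v94 := mul v93 v82; ok v94 && (
  let v95 := cst (p.s01); ok v95 && (
  let v96 := add v94 v95; ok v96 && (
  let v97 := mul v96 v82; ok v97 && (
  let v98 := cst (p.s00); ok v98 && (
  let v99 := add v97 v98; ok v99 && (
  let v100 := add v89 v99; ok v100 && (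
  let v101 := mul v84 v83; ok v101 && (
  let v102 := neg v101; ok v102 && (
  isLt v102 1099511627776 && (
  let v103 := mul v40 v102; ok v103 && (
  let v104 := add v103 v42; ok v104 && (
  let v105 := mul v104 v102; ok v105 && (
  let v106 := add v105 v45; ok v106 && (
  let v107 := mul v106 v102; ok v107 && (
  let v108 := add v107 v5; ok v108 && (
  let v109 := mul v108 v102; ok v109 && (
  let v110 := add v109 v7; ok v110 && (
  let v111 := mul v110 v102; ok v111 && (
  let v112 := add v111 v10; ok v112 && (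
  let v113 := mul v112 v102; ok v113 && (
  let v114 := add v113 v13; ok v114 && (
  let v115 := ball 30678339 v114; ok v115 && (
  let v116 := mul v101 v115; ok v116 && (
  let v117 := sub v13 v116; ok v117 && (
  let v118 := cst ⟨2199023255552, 0, 0, 0⟩; ok v118 && (
  let v119 := sub v118 v116; ok v119 && (
  let v120 := mul v115 v119; ok v120 && (
  let v121 := mul v84 v120; ok v121 && (
  let v122 := mul v30 v100; ok v122 && (
  let v123 := mul v117 v117; ok v123 && (
  let v124 := mul v122 v123; ok v124 && (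
  let v125 := sub v121 v124; ok v125 && (
  let v126 := mul v83 v125; ok v126 && (
  let v127 := sub v118 v126; ok v127 && (
  let v128 := mul v0 v0; ok v128 && (
  let v129 := mul v30 v125; ok v129 && (
  let v130 := mul v128 v129; ok v130 && (
  let v131 := mul v4 v130; ok v131 && (
  let v132 := scale ⟨4398046511104, 0, 0, 0⟩ v131; ok v132 && (
  let v133 := mul v1 v127; ok v133 && (
  let v134 := scale ⟨0, 0, 1099511627776, 0⟩ v133; ok v134 && (
  let v135 := add v132 v134; ok v135 && (
  let v136 := mul v127 v30; ok v136 && (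
  let v137 := mul v4 v1; ok v137 && (
  let v138 := mul v137 v125; ok v138 && (
  let v139 := scale ⟨0, 0, 1099511627776, 0⟩ v138; ok v139 && (
  let v140 := add v136 v139; ok v140 && (
  let v141 := mul v30 v135; ok v141 && (
  let v142 := inv v140; ok v142 && (
  let v143 := mul v141 v142; ok v143 && (
  let v144 := add v37 v143; ok v144 && (
  let v145 := mul v4 v144; ok v145 && (
  let v146 := add v145 v13; ok v146 && (
  let v147 := inv v146; ok v147 && (
  let v148 := mul v144 v147; ok v148 && (
  let v149 := add v147 v13; ok v149 && (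
  let v150 := mul v148 v149; ok v150 && (
  let v151 := mul x1 v150; ok v151 && (
  let v152 := neg v83; ok v152 && (
  let v153 := exp v152; ok v153 && (
  let v154 := cst (p.h800); ok v154 && (
  let v155 := mul v154 v151; ok v155 && (
  let v156 := cst (p.h700); ok v156 && (
  let v157 := add v155 v156; ok v157 && (
  let v158 := mul v157 v151; ok v158 && (
  let v159 := cst (p.h600); ok v159 && (
  let v160 := add v158 v159; ok v160 && (
  let v161 := mul v160 v151; ok v161 && (
  let v162 := cst (p.h501); ok v162 && (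
  let v163 := mul v162 v82; ok v163 && (
  let v164 := cst (p.h500); ok v164 && (
  let v165 := add v163 v164; ok v165 && (
  let v166 := add v161 v165; ok v166 && (
  let v167 := mul v166 v151; ok v167 && (
  let v168 := cst (p.h410); ok v168 && (
  let v169 := mul v168 v81; ok v169 && (
  let v170 := cst (p.h401); ok v170 && (
  let v171 := mul v170 v82; ok v171 && (
  let v172 := cst (p.h400); ok v172 && (
  let v173 := add v171 v172; ok v173 && (
  let v174 := add v169 v173; ok v174 && (
  let v175 := add v167 v174; ok v175 && (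
  let v176 := mul v175 v151; ok v176 && (
  let v177 := cst (p.h310); ok v177 && (
  let v178 := mul v177 v81; ok v178 && (
  let v179 := cst (p.h301); ok v179 && (
  let v180 := mul v179 v82; ok v180 && (
  let v181 := cst (p.h300); ok v181 && (
  let v182 := add v180 v181; ok v182 && (
  let v183 := add v178 v182; ok v183 && (
  let v184 := add v176 v183; ok v184 && (
  let v185 := mul v184 v151; ok v185 && (
  let v186 := cst (p.h211); ok v186 && (
  let v187 := mul v186 v82; ok v187 && (
  let v188 := cst (p.h210); ok v188 && (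
  let v189 := add v187 v188; ok v189 && (
  let v190 := mul v189 v81; ok v190 && (
  let v191 := cst (p.h202); ok v191 && (
  let v192 := mul v191 v82; ok v192 && (
  let v193 := cst (p.h201); ok v193 && (
  let v194 := add v192 v193; ok v194 && (
  let v195 := mul v194 v82; ok v195 && (
  let v196 := cst (p.h200); ok v196 && (
  let v197 := add v195 v196; ok v197 && (
  let v198 := add v190 v197; ok v198 && (
  let v199 := add v185 v198; ok v199 && (
  let v200 := mul v199 v151; ok v200 && (
  let v201 := cst (p.h120); ok v201 && (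
  let v202 := mul v201 v81; ok v202 && (
  let v203 := cst (p.h111); ok v203 && (
  let v204 := mul v203 v82; ok v204 && (
  let v205 := cst (p.h110); ok v205 && (
  let v206 := add v204 v205; ok v206 && (
  let v207 := add v202 v206; ok v207 && (
  let v208 := mul v207 v81; ok v208 && (
  let v209 := cst (p.h102); ok v209 && (
  let v210 := mul v209 v82; ok v210 && (
  let v211 := cst (p.h101); ok v211 && (
  let v212 := add v210 v211; ok v212 && (
  let v213 := mul v212 v82; ok v213 && (
  let v214 := cst (p.h100); ok v214 && (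
  let v215 := add v213 v214; ok v215 && (
  let v216 := add v208 v215; ok v216 && (
  let v217 := add v200 v216; ok v217 && (
  let v218 := mul v217 v151; ok v218 && (
  let v219 := cst (p.h030); ok v219 && (
  let v220 := mul v219 v81; ok v220 && (
  let v221 := cst (p.h021); ok v221 && (
  let v222 := mul v221 v82; ok v222 && (
  let v223 := cst (p.h020); ok v223 && (
  let v224 := add v222 v223; ok v224 && (
  let v225 := add v220 v224; ok v225 && (
  let v226 := mul v225 v81; ok v226 && (
  let v227 := cst (p.h012); ok v227 && (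
  let v228 := mul v227 v82; ok v228 && (
  let v229 := cst (p.h011); ok v229 && (
  let v230 := add v228 v229; ok v230 && (
  let v231 := mul v230 v82; ok v231 && (
  let v232 := cst (p.h010); ok v232 && (
  let v233 := add v231 v232; ok v233 && (
  let v234 := add v226 v233; ok v234 && (
  let v235 := mul v234 v81; ok v235 && (
  let v236 := cst (p.h003); ok v236 && (
  let v237 := mul v236 v82; ok v237 && (
  let v238 := cst (p.h002); ok v238 && (
  let v239 := add v237 v238; ok v239 && (
  let v240 := mul v239 v82; ok v240 && (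
  let v241 := cst (p.h001); ok v241 && (
  let v242 := add v240 v241; ok v242 && (
  let v243 := mul v242 v82; ok v243 && (
  let v244 := cst (p.h000); ok v244 && (
  let v245 := add v243 v244; ok v245 && (
  let v246 := add v235 v245; ok v246 && (
  let v247 := add v218 v246; ok v247 && (
  let v248 := cst (p.w1); ok v248 && (
  let v249 := cst (p.wr); ok v249 && (
  let v250 := cst (p.wi); ok v250 && (
  let v251 := mul v248 v81; ok v251 && (
  let v252 := add v251 v249; ok v252 && (
  let v253 := mul v250 v250; ok v253 && (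
  let v254 := cst (p.g11); ok v254 && (
  let v255 := mul v254 v82; ok v255 && (
  let v256 := cst (p.g10); ok v256 && (
  let v257 := add v255 v256; ok v257 && (
  let v258 := mul v257 v81; ok v258 && (
  let v259 := cst (p.g01); ok v259 && (
  let v260 := mul v259 v82; ok v260 && (
  let v261 := cst (p.g00); ok v261 && (
  let v262 := add v260 v261; ok v262 && (
  let v263 := add v258 v262; ok v263 && (
  let v264 := cst (p.f11); ok v264 && (
  let v265 := mul v264 v82; ok v265 && (
  let v266 := cst (p.f10); ok v266 && (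
  let v267 := add v265 v266; ok v267 && (
  let v268 := mul v267 v81; ok v268 && (
  let v269 := cst (p.f01); ok v269 && (
  let v270 := mul v269 v82; ok v270 && (
  let v271 := cst (p.f00); ok v271 && (
  let v272 := add v270 v271; ok v272 && (
  let v273 := add v268 v272; ok v273 && (
  let v274 := sub v151 v252; ok v274 && (
  let v275 := mul v263 v274; ok v275 && (
  let v276 := add v275 v273; ok v276 && (
  let v277 := mul v274 v274; ok v277 && (
  let v278 := add v277 v253; ok v278 && (
  let v279 := inv v278; ok v279 && (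
  let v280 := mul v276 v279; ok v280 && (
  let v281 := add v247 v280; ok v281 && (
  let v282 := scale ⟨2199023255552, 0, 0, 0⟩ v0; ok v282 && (
  let v283 := sub v143 v35; ok v283 && (
  let v284 := add v153 v147; ok v284 && (
  let v285 := mul v153 v284; ok v285 && (
  let v286 := mul v147 v285; ok v286 && (
  let v287 := mul v283 v286; ok v287 && (
  let v288 := add v281 v10; ok v288 && (
  let v289 := mul v287 v288; ok v289 && (
  let v290 := add v282 v289; ok v290 && (
  let v291 := cst (p.a11); ok v291 && (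
  let v292 := mul v291 v82; ok v292 && (
  let v293 := cst (p.a10); ok v293 && (
  let v294 := add v292 v293; ok v294 && (
  let v295 := mul v294 v81; ok v295 && (
  let v296 := cst (p.a03); ok v296 && (
  let v297 := mul v296 v82; ok v297 && (
  let v298 := cst (p.a02); ok v298 && (
  let v299 := add v297 v298; ok v299 && (
  let v300 := mul v299 v82; ok v300 && (
  let v301 := cst (p.a01); ok v301 && (
  let v302 := add v300 v301; ok v302 && (
  let v303 := mul v302 v82; ok v303 && (
  let v304 := cst (p.a00); ok v304 && (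
  let v305 := add v303 v304; ok v305 && (
  let v306 := add v295 v305; ok v306 && (
  let v307 := scale ⟨2199023255552, 0, 0, 0⟩ v306; ok v307 && (
  let v308 := cst (p.ca); ok v308 && (
  let v309 := add v143 v35; ok v309 && (
  let v310 := mul v307 v309; ok v310 && (
  let v311 := mul x1 v143; ok v311 && (
  let v312 := mul v308 v311; ok v312 && (
  let v313 := add v312 v13; ok v313 && (
  let v314 := inv v313; ok v314 && (
  let v315 := mul v310 v314; ok v315 && (
  let v316 := mul x1 v290; ok v316 && (
  let v317 := neg v316; ok v317 && (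
  isLt v317 1099511627776 && (
  let v318 := mul v40 v317; ok v318 && (
  let v319 := add v318 v42; ok v319 && (
  let v320 := mul v319 v317; ok v320 && (
  let v321 := add v320 v45; ok v321 && (
  let v322 := mul v321 v317; ok v322 && (
  let v323 := add v322 v5; ok v323 && (
  let v324 := mul v323 v317; ok v324 && (
  let v325 := add v324 v7; ok v325 && (
  let v326 := mul v325 v317; ok v326 && (
  let v327 := add v326 v10; ok v327 && (
  let v328 := mul v327 v317; ok v328 && (
  let v329 := add v328 v13; ok v329 && (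
  let v330 := ball 30678339 v329; ok v330 && (
  let v331 := mul v290 v330; ok v331 && (
  let v332 := scale ⟨0, 549755813888, 0, 0⟩ v331; ok v332 && (
  let v333 := mul x1 v332; ok v333 && (
  let v334 := scale ⟨2199023255552, 0, 0, 0⟩ v333; ok v334 && (
  let v335 := add v334 v13; ok v335 && (
  isLt v333 412316860416 && (
  let v336 := cst ⟨122167958642, 0, 0, 0⟩; ok v336 && (
  let v337 := mul v336 v333; ok v337 && (
  let v338 := cst ⟨0, 137438953472, 0, 0⟩; ok v338 && (
  let v339 := add v337 v338; ok v339 && (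
  let v340 := mul v339 v333; ok v340 && (
  let v341 := add v340 v59; ok v341 && (
  let v342 := mul v341 v333; ok v342 && (
  let v343 := add v342 v61; ok v343 && (
  let v344 := mul v343 v333; ok v344 && (
  let v345 := add v344 v64; ok v345 && (
  let v346 := mul v345 v333; ok v346 && (
  let v347 := add v346 v67; ok v347 && (
  let v348 := mul v347 v333; ok v348 && (
  let v349 := add v348 v70; ok v349 && (
  let v350 := mul v349 v333; ok v350 && (
  let v351 := add v350 v73; ok v351 && (
  let v352 := mul v351 v333; ok v352 && (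
  let v353 := add v352 v13; ok v353 && (
  let v354 := ball 25798904 v353; ok v354 && (
  let v355 := mul v332 v354; ok v355 && (
  let v356 := mul v315 x3; ok v356 && (
  let v357 := mul v335 v356; ok v357 && (
  let v358 := mul x1 v357; ok v358 && (
  isLt v358 412316860416 && (
  let v359 := mul v336 v358; ok v359 && (
  let v360 := add v359 v338; ok v360 && (
  let v361 := mul v360 v358; ok v361 && (
  let v362 := add v361 v59; ok v362 && (
  let v363 := mul v362 v358; ok v363 && (
  let v364 := add v363 v61; ok v364 && (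
  let v365 := mul v364 v358; ok v365 && (
  let v366 := add v365 v64; ok v366 && (
  let v367 := mul v366 v358; ok v367 && (
  let v368 := add v367 v67; ok v368 && (
  let v369 := mul v368 v358; ok v369 && (
  let v370 := add v369 v70; ok v370 && (
  let v371 := mul v370 v358; ok v371 && (
  let v372 := add v371 v73; ok v372 && (
  let v373 := mul v372 v358; ok v373 && (
  let v374 := add v373 v13; ok v374 && (
  let v375 := ball 25798904 v374; ok v375 && (
  let v376 := mul v357 v375; ok v376 && (
  let v377 := mul x1 v356; ok v377 && (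
  let v378 := neg v377; ok v378 && (
  isLt v378 412316860416 && (
  let v379 := mul v336 v378; ok v379 && (
  let v380 := add v379 v338; ok v380 && (
  let v381 := mul v380 v378; ok v381 && (
  let v382 := add v381 v59; ok v382 && (
  let v383 := mul v382 v378; ok v383 && (
  let v384 := add v383 v61; ok v384 && (
  let v385 := mul v384 v378; ok v385 && (
  let v386 := add v385 v64; ok v386 && (
  let v387 := mul v386 v378; ok v387 && (
  let v388 := add v387 v67; ok v388 && (
  let v389 := mul v388 v378; ok v389 && (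
  let v390 := add v389 v70; ok v390 && (
  let v391 := mul v390 v378; ok v391 && (
  let v392 := add v391 v73; ok v392 && (
  let v393 := mul v392 v378; ok v393 && (
  let v394 := add v393 v13; ok v394 && (
  let v395 := ball 25798904 v394; ok v395 && (
  let v396 := mul v356 v395; ok v396 && (
  let v397 := neg v396; ok v397 && (
  let v398 := sub v376 v397; ok v398 && (
  let v399 := add v398 v290; ok v399 && (
  let v400 := add v0 v78; ok v400 && (
  let v401 := add v400 v397; ok v401 && (
  let v402 := sub v401 v290; ok v402 && (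
  let v403 := sub v402 v355; ok v403 && (
  let v404 := mul v4 v399; ok v404 && (
  isLt v404 274877906944 && (
  let v405 := mul v5 v404; ok v405 && (
  let v406 := add v405 v7; ok v406 && (
  let v407 := mul v406 v404; ok v407 && (
  let v408 := add v407 v10; ok v408 && (
  let v409 := mul v408 v404; ok v409 && (
  let v410 := add v409 v13; ok v410 && (
  let v411 := ball 42949674 v410; ok v411 && (
  let v412 := mul v399 v411; ok v412 && (
  let v413 := mul v4 v412; ok v413 && (
  let v414 := add v413 v13; ok v414 && (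
  let v415 := scale ⟨2199023255552, 0, 0, 0⟩ v403; ok v415 && (
  let v416 := add v415 v399; ok v416 && (
  let v417 := mul v4 v416; ok v417 && (
  let v418 := neg v417; ok v418 && (
  isLt v418 274877906944 && (
  let v419 := mul v5 v418; ok v419 && (
  let v420 := add v419 v7; ok v420 && (
  let v421 := mul v420 v418; ok v421 && (
  let v422 := add v421 v10; ok v422 && (
  let v423 := mul v422 v418; ok v423 && (
  let v424 := add v423 v13; ok v424 && (
  let v425 := ball 42949674 v424; ok v425 && (
  let v426 := mul v418 v425; ok v426 && (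
  let v427 := add v426 v13; ok v427 && (
  let v428 := add v414 v13; ok v428 && (
  let v429 := mul v33 v427; ok v429 && (
  let v430 := mul v429 v428; ok v430 && (
  let v431 := mul v4 v430; ok v431 && (
  let v432 := mul v150 v414; ok v432 && (
  let v433 := add v431 v432; ok v433 && (
  let v434 := mul v4 v433; ok v434 && (
  isLt v434 412316860416 && (
  let v435 := mul v336 v434; ok v435 && (
  let v436 := add v435 v338; ok v436 && (
  let v437 := mul v436 v434; ok v437 && (
  let v438 := add v437 v59; ok v438 && (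
  let v439 := mul v438 v434; ok v439 && (
  let v440 := add v439 v61; ok v440 && (
  let v441 := mul v440 v434; ok v441 && (
  let v442 := add v441 v64; ok v442 && (
  let v443 := mul v442 v434; ok v443 && (
  let v444 := add v443 v67; ok v444 && (
  let v445 := mul v444 v434; ok v445 && (
  let v446 := add v445 v70; ok v446 && (
  let v447 := mul v446 v434; ok v447 && (
  let v448 := add v447 v73; ok v448 && (
  let v449 := mul v448 v434; ok v449 && (
  let v450 := add v449 v13; ok v450 && (
  let v451 := ball 25798904 v450; ok v451 && (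
  let v452 := mul v433 v451; ok v452 && (
  let v453 := mul v4 v452; ok v453 && (
  let v454 := scale ⟨549755813888, 0, 0, 0⟩ v453; ok v454 && (
  isLt v454 274877906944 && (
  let v455 := mul v5 v454; ok v455 && (
  let v456 := add v455 v7; ok v456 && (
  let v457 := mul v456 v454; ok v457 && (
  let v458 := add v457 v10; ok v458 && (
  let v459 := mul v458 v454; ok v459 && (
  let v460 := add v459 v13; ok v460 && (
  let v461 := ball 42949674 v460; ok v461 && (
  let v462 := mul v454 v461; ok v462 && (
  let v463 := add v37 v148; ok v463 && (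
  let v464 := mul v412 v149; ok v464 && (
  let v465 := scale ⟨2199023255552, 0, 0, 0⟩ v463; ok v465 && (
  let v466 := sub v464 v465; ok v466 && (
  let v467 := mul v4 v148; ok v467 && (
  let v468 := mul v412 v467; ok v468 && (
  let v469 := mul v416 v425; ok v469 && (
  let v470 := mul v469 v428; ok v470 && (
  let v471 := scale ⟨2199023255552, 0, 0, 0⟩ v470; ok v471 && (
  let v472 := sub v468 v471; ok v472 && (
  let v473 := scale ⟨2199023255552, 0, 0, 0⟩ v37; ok v473 && (
  let v474 := sub v472 v473; ok v474 && (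
  let v475 := mul v463 v466; ok v475 && (
  let v476 := mul v37 v474; ok v476 && (
  let v477 := add v475 v476; ok v477 && (
  let v478 := add v37 v463; ok v478 && (
  let v479 := mul v4 v478; ok v479 && (
  let v480 := add v479 v118; ok v480 && (
  let v481 := add v462 v480; ok v481 && (
  let v482 := inv v481; ok v482 && (
  let v483 := mul v477 v482; ok v483 && (
  let v484 := mul v4 v483; ok v484 && (
  let v485 := add v463 v484; ok v485 && (
  let v486 := cst (p.t11); ok v486 && (
  let v487 := mul v486 v82; ok v487 && (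
  let v488 := cst (p.t10); ok v488 && (
  let v489 := add v487 v488; ok v489 && (
  let v490 := mul v489 v81; ok v490 && (
  let v491 := cst (p.t03); ok v491 && (
  let v492 := mul v491 v82; ok v492 && (
  let v493 := cst (p.t02); ok v493 && (
  let v494 := add v492 v493; ok v494 && (
  let v495 := mul v494 v82; ok v495 && (
  let v496 := cst (p.t01); ok v496 && (
  let v497 := add v495 v496; ok v497 && (
  let v498 := mul v497 v82; ok v498 && (
  let v499 := cst (p.t00); ok v499 && (
  let v500 := add v498 v499; ok v500 && (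
  let v501 := add v490 v500; ok v501 && (
  isLt v501 2199023255552 && (
  let v502 := cst (p.tj); ok v502 && (
  let v503 := mul v502 v83; ok v503 && (
  let v504 := neg v503; ok v504 && (
  let v505 := exp v504; ok v505 && (
  let v506 := mul v501 v505; ok v506 && (
  let v507 := mul x1 v485; ok v507 && (
  let v508 := cst (p.m300); ok v508 && (
  let v509 := mul v508 v151; ok v509 && (
  let v510 := cst (p.m200); ok v510 && (
  let v511 := add v509 v510; ok v511 && (
  let v512 := mul v511 v151; ok v512 && (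
  let v513 := cst (p.m110); ok v513 && (
  let v514 := mul v513 v81; ok v514 && (
  let v515 := cst (p.m101); ok v515 && (
  let v516 := mul v515 v82; ok v516 && (
  let v517 := cst (p.m100); ok v517 && (
  let v518 := add v516 v517; ok v518 && (
  let v519 := add v514 v518; ok v519 && (
  let v520 := add v512 v519; ok v520 && (
  let v521 := mul v520 v151; ok v521 && (
  let v522 := cst (p.m010); ok v522 && (
  let v523 := mul v522 v81; ok v523 && (
  let v524 := cst (p.m002); ok v524 && (
  let v525 := mul v524 v82; ok v525 && (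
  let v526 := cst (p.m001); ok v526 && (
  let v527 := add v525 v526; ok v527 && (
  let v528 := mul v527 v82; ok v528 && (
  let v529 := cst (p.m000); ok v529 && (
  let v530 := add v528 v529; ok v530 && (
  let v531 := add v523 v530; ok v531 && (
  let v532 := add v521 v531; ok v532 && (
  isPos 3 v532 && (
  let v533 := cst (p.ax); ok v533 && (
  let v534 := mul v533 x0; ok v534 && (
  let v535 := cst (p.ay); ok v535 && (
  let v536 := add v534 v535; ok v536 && (
  let v537 := cst (p.xa); ok v537 && (
  let v538 := cst (p.C2); ok v538 && (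
  let v539 := add v462 v13; ok v539 && (
  let v540 := inv v539; ok v540 && (
  let v541 := add v37 v485; ok v541 && (
  let v542 := mul v541 v540; ok v542 && (
  let v543 := add v473 v542; ok v543 && (
  let v544 := mul v4 v543; ok v544 && (
  isLt v544 274877906944 && (
  let v545 := mul v59 v544; ok v545 && (
  let v546 := add v545 v61; ok v546 && (
  let v547 := mul v546 v544; ok v547 && (
  let v548 := add v547 v64; ok v548 && (
  let v549 := mul v548 v544; ok v549 && (
  let v550 := add v549 v67; ok v550 && (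
  let v551 := mul v550 v544; ok v551 && (
  let v552 := add v551 v70; ok v552 && (
  let v553 := mul v552 v544; ok v553 && (
  let v554 := add v553 v73; ok v554 && (
  let v555 := mul v554 v544; ok v555 && (
  let v556 := add v555 v13; ok v556 && (
  let v557 := ball 11184812 v556; ok v557 && (
  let v558 := mul v543 v557; ok v558 && (
  let v559 := add v544 v13; ok v559 && (
  let v560 := inv v559; ok v560 && (
  let v561 := mul v543 v560; ok v561 && (
  let v562 := add v473 v561; ok v562 && (
  let v563 := mul v4 v562; ok v563 && (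
  isLt v563 274877906944 && (
  let v564 := mul v59 v563; ok v564 && (
  let v565 := add v564 v61; ok v565 && (
  let v566 := mul v565 v563; ok v566 && (
  let v567 := add v566 v64; ok v567 && (
  let v568 := mul v567 v563; ok v568 && (
  let v569 := add v568 v67; ok v569 && (
  let v570 := mul v569 v563; ok v570 && (
  let v571 := add v570 v70; ok v571 && (
  let v572 := mul v571 v563; ok v572 && (
  let v573 := add v572 v73; ok v573 && (
  let v574 := mul v573 v563; ok v574 && (
  let v575 := add v574 v13; ok v575 && (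
  let v576 := ball 11184812 v575; ok v576 && (
  let v577 := mul v562 v576; ok v577 && (
  let v578 := mul x1 v558; ok v578 && (
  let v579 := neg v578; ok v579 && (
  let v580 := mul x1 v577; ok v580 && (
  let v581 := neg v580; ok v581 && (
  isLt v579 1099511627776 && (
  let v582 := mul v40 v579; ok v582 && (
  let v583 := add v582 v42; ok v583 && (
  let v584 := mul v583 v579; ok v584 && (
  let v585 := add v584 v45; ok v585 && (
  let v586 := mul v585 v579; ok v586 && (
  let v587 := add v586 v5; ok v587 && (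
  let v588 := mul v587 v579; ok v588 && (
  let v589 := add v588 v7; ok v589 && (
  let v590 := mul v589 v579; ok v590 && (
  let v591 := add v590 v10; ok v591 && (
  let v592 := mul v591 v579; ok v592 && (
  let v593 := add v592 v13; ok v593 && (
  let v594 := ball 30678339 v593; ok v594 && (
  let v595 := mul v558 v594; ok v595 && (
  isLt v581 1099511627776 && (
  let v596 := mul v40 v581; ok v596 && (
  let v597 := add v596 v42; ok v597 && (
  let v598 := mul v597 v581; ok v598 && (
  let v599 := add v598 v45; ok v599 && (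
  let v600 := mul v599 v581; ok v600 && (
  let v601 := add v600 v5; ok v601 && (
  let v602 := mul v601 v581; ok v602 && (
  let v603 := add v602 v7; ok v603 && (
  let v604 := mul v603 v581; ok v604 && (
  let v605 := add v604 v10; ok v605 && (
  let v606 := mul v605 v581; ok v606 && (
  let v607 := add v606 v13; ok v607 && (
  let v608 := ball 30678339 v607; ok v608 && (
  let v609 := mul v577 v608; ok v609 && (
  let v610 := mul x1 v609; ok v610 && (
  let v611 := sub v13 v610; ok v611 && (
  let v612 := add v611 v13; ok v612 && (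
  let v613 := inv v612; ok v613 && (
  let v614 := mul v611 v613; ok v614 && (
  isLt v614 (p.B1) && (
  let v615 := mul v609 v613; ok v615 && (
  let v616 := scale ⟨549755813888, 0, 0, 0⟩ v615; ok v616 && (
  let v617 := sub v562 v37; ok v617 && (
  let v618 := mul v617 v617; ok v618 && (
  let v619 := mul v35 v35; ok v619 && (
  let v620 := sub v618 v619; ok v620 && (
  let v621 := mul v4 v620; ok v621 && (
  let v622 := mul v613 v613; ok v622 && (
  let v623 := mul v613 v622; ok v623 && (
  let v624 := mul v611 v623; ok v624 && (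
  let v625 := mul v621 v624; ok v625 && (
  let v626 := mul v625 v538; ok v626 && (
  let v627 := rball v616 v626; ok v627 && (
  let v628 := scale ⟨2199023255552, 0, 0, 0⟩ v627; ok v628 && (
  let v629 := sub v595 v628; ok v629 && (
  let v630 := mul v595 v627; ok v630 && (
  let v631 := mul x1 v630; ok v631 && (
  let v632 := scale ⟨2199023255552, 0, 0, 0⟩ v631; ok v632 && (
  let v633 := add v629 v632; ok v633 && (
  let v634 := add v537 v13; ok v634 && (
  let v635 := mul v83 v634; ok v635 && (
  isLt v635 1099511627776 && (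
  let v636 := mul v40 v635; ok v636 && (
  let v637 := add v636 v42; ok v637 && (
  let v638 := mul v637 v635; ok v638 && (
  let v639 := add v638 v45; ok v639 && (
  let v640 := mul v639 v635; ok v640 && (
  let v641 := add v640 v5; ok v641 && (
  let v642 := mul v641 v635; ok v642 && (
  let v643 := add v642 v7; ok v643 && (
  let v644 := mul v643 v635; ok v644 && (
  let v645 := add v644 v10; ok v645 && (
  let v646 := mul v645 v635; ok v646 && (
  let v647 := add v646 v13; ok v647 && (
  let v648 := ball 30678339 v647; ok v648 && (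
  let v649 := neg v635; ok v649 && (
  isLt v649 1099511627776 && (
  let v650 := mul v40 v649; ok v650 && (
  let v651 := add v650 v42; ok v651 && (
  let v652 := mul v651 v649; ok v652 && (
  let v653 := add v652 v45; ok v653 && (
  let v654 := mul v653 v649; ok v654 && (
  let v655 := add v654 v5; ok v655 && (
  let v656 := mul v655 v649; ok v656 && (
  let v657 := add v656 v7; ok v657 && (
  let v658 := mul v657 v649; ok v658 && (
  let v659 := add v658 v10; ok v659 && (
  let v660 := mul v659 v649; ok v660 && (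
  let v661 := add v660 v13; ok v661 && (
  let v662 := ball 30678339 v661; ok v662 && (
  let v663 := add v648 v662; ok v663 && (
  let v664 := scale ⟨549755813888, 0, 0, 0⟩ v663; ok v664 && (
  let v665 := mul v83 v537; ok v665 && (
  let v666 := neg v665; ok v666 && (
  let v667 := exp v666; ok v667 && (
  let v668 := mul v536 v30; ok v668 && (
  let v669 := mul v664 v634; ok v669 && (
  let v670 := inv v669; ok v670 && (
  let v671 := mul v667 v670; ok v671 && (
  let v672 := mul v668 v671; ok v672 && (
  let v673 := add v485 v35; ok v673 && (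
  let v674 := mul v673 v540; ok v674 && (
  let v675 := mul v672 v674; ok v675 && (
  let v676 := scale ⟨549755813888, 0, 0, 0⟩ v452; ok v676 && (
  let v677 := sub v676 v290; ok v677 && (
  let v678 := sub v677 v355; ok v678 && (
  let v679 := mul x1 v678; ok v679 && (
  let v680 := neg v679; ok v680 && (
  isLt v680 274877906944 && (
  let v681 := mul v5 v680; ok v681 && (
  let v682 := add v681 v7; ok v682 && (
  let v683 := mul v682 v680; ok v683 && (
  let v684 := add v683 v10; ok v684 && (
  let v685 := mul v684 v680; ok v685 && (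
  let v686 := add v685 v13; ok v686 && (
  let v687 := ball 42949674 v686; ok v687 && (
  let v688 := mul v680 v687; ok v688 && (
  let v689 := add v688 v13; ok v689 && (
  let v690 := inv v315; ok v690 && (
  let v691 := mul v678 v687; ok v691 && (
  let v692 := mul v689 v633; ok v692 && (
  let v693 := sub v691 v692; ok v693 && (
  let v694 := mul v693 v690; ok v694 && (
  let v695 := sub x3 v694; ok v695 && (
  let v696 := mul v532 v695; ok v696 && (
  let v697 := sub x3 v696; ok v697 && (
  let v698 := mul x1 v633; ok v698 && (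
  let v699 := sub v13 v698; ok v699 && (
  let v700 := mul v675 v690; ok v700 && (
  let v701 := mul v699 v700; ok v701 && (
  let v702 := mul v689 v701; ok v702 && (
  let v703 := mul v532 v702; ok v703 && (
  isLt v507 549755813888 && (
  let v704 := add v35 v485; ok v704 && (
  let v705 := add v35 v463; ok v705 && (
  let v706 := mul v704 v705; ok v706 && (
  let v707 := mul v706 v506; ok v707 && (
  let v708 := mul v30 v483; ok v708 && (
  let v709 := scale ⟨2199023255552, 0, 0, 0⟩ v708; ok v709 && (
  let v710 := inv v707; ok v710 && (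
  let v711 := mul v709 v710; ok v711 && (
  isLt v711 1099511627776 && (
  let v712 := rball v697 v703; ok v712 && (
  isLt v712 1099243192320 && (
  true)))))))))))))))))))))))))))))))))))))))))))))))))))))))))))))))))))))))))))))))))))))))))))))))))))))))))))))))))))))))))))))))))))))))))))))))))))))))))))))))))))))))))))))))))))))))))))))))))))))))))))))))))))))))))))))))))))))))))))))))))))))))))))))))))))))))))))))))))))))))))))))))))))))))))))))))))))))))))))))))))))))))))))))))))))))))))))))))))))))))))))))))))))))))))))))))))))))))))))))))))))))))))))))))))))))))))))))))))))))))))))))))))))))))))))))))))))))))))))))))))))))))))))))))))))))))))))))))))))))))))))))))))))))))))))))))))))))))))))))))))))))))))))))))))))))))))))))))))))))))))))))))))))))))))))))))))))))))))))))))))))))))))))))))))))))))))))))))))))))))))))))))))))))))))))))))))))))))))))))))))))))))))))))))))))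
  | _ => false

set_option maxRecDepth 1000000 in
theorem chk0_eq (X : XOps) (p : Pm) (m : List X.O.α)
    (h : chk0 X.O.cst X.O.add X.O.sub X.O.mul X.O.scale X.O.neg X.O.inv X.O.exp X.O.log X.O.ok
      X.O.isPos X.O.isLt X.ball X.rball p m = true) :
    runX X 3 (prog0 p) m = true := by
  match m, h with
  | [x0, x1, x2, x3], h => exact h

noncomputable def chkB0 (p : Pm) : List opsE.O.α → Bool :=
  chk0 opsE.O.cst opsE.O.add opsE.O.sub opsE.O.mul opsE.O.scale opsE.O.neg opsE.O.inv opsE.O.exp opsE.O.log opsE.O.ok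
      opsE.O.isPos opsE.O.isLt opsE.ball opsE.rball p

theorem chkB0_eq (p : Pm) (m : List opsE.O.α) (h : chkB0 p m = true) : runX opsE 3 (prog0 p) m = true :=
  chk0_eq opsE p m h

end Pool.Agent.helper12.GS.LBQ
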