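import Pool.Agent.helper12.GS.Gt
import Pool.Agent.helper12.GP.AgB

/-!
# Agreement of the constants of a corner program with a table, up to zeros at the end
-/

namespace Pool.Agent.helper12.GS

open Complex ComplexConjugate
open Pool.Agent.helper31.IA (Z)
open Pool.Agent.helper12.RS Pool.Agent.helper63.NF Pool.Agent.helper20.EQR
open Pool.Agent.helper12.GP (z2 z3 v2 v3 v2_z2 v3_z3 eqZ eqZ_of)

/-- same values -/
def E2 (s t : List (List ℂ)) : Prop := ∀ u v, P2 s u v = P2 t u v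
def E3 (s t : List (List (List ℂ))) : Prop := ∀ w u v, P3 s w u v = P3 t w u v

/-- all entries are zero -/
def allP {α : Type} (z : α → Bool) : List α → Bool
  | [] => true
  | a :: s => z a && allP z s

/-- equality of lists up to zeros at the end -/
def eqP {α : Type} (z : α → Bool) (f : α → α → Bool) : List α → List α → Bool
  | [], t => allP z t
  | a :: s, [] => z a && allP z s
  | a :: s, b :: t => f a b && eqP z f s t

theorem allP_of {α : Type} {z : α → Bool} {g : α → ℂ} (hz : ∀ a, z a = true → g a = 0) (w : ℂ) :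
    ∀ s : List α, allP z s = true → horn (s.map g) w = 0 := by
  intro s
  induction s with
  | nil => intro _; rfl
  | cons a s ih =>
    intro h
    simp only [allP, Bool.and_eq_true] at h
    rw [List.map_cons, horn_cons, ih h.2, hz a h.1]
    ring

/-- the value of a polynomial -/
theorem eqP_of {α : Type} {z : α → Bool} {f : α → α → Bool} {g : α → ℂ}
    (hz : ∀ a, z a = true → g a = 0) (hf : ∀ a b, f a b = true → g a = g b) (w : ℂ) :
    ∀ s t : List α, eqP z f s t = true → horn (s.map g) w = horn (t.map g) w := by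
  intro s
  induction s with
  | nil =>
    intro t h
    rw [allP_of hz w t h]
    rfl
  | cons a s ih =>
    intro t h
    cases t with
    | nil =>
      have h' : allP z (a :: s) = true := h
      rw [allP_of hz w _ h']
      rfl
    | cons b t =>
      simp only [eqP, Bool.and_eq_true] at h
      rw [List.map_cons, List.map_cons, horn_cons, horn_cons, ih t h.2, hf a b h.1]

/-- zero -/
def zZ (x : Z) : Bool := eqZ x ⟨0, 0, 0, 0⟩

theorem zZ_of {x : Z} (h : zZ x = true) : x.val = 0 := by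
  rw [eqZ_of h]
  simp [Z.val]

def eqA : List Z → List Z → Bool := eqP zZ eqZ
def zA1 (l : List Z) : Bool := allP zZ l
def eqB : List (List Z) → List (List Z) → Bool := eqP zA1 eqA
def zB1 (l : List (List Z)) : Bool := allP zA1 l
def eqC : List (List (List Z)) → List (List (List Z)) → Bool := eqP zB1 eqB

theorem eqA_of {s t : List Z} (h : eqA s t = true) (w : ℂ) :
    horn (s.map Z.val) w = horn (t.map Z.val) w :=
  eqP_of (fun _ => zZ_of) (fun a b hab => by rw [eqZ_of hab]) w s t h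

theorem v2_P2 (l : List (List Z)) (u v : ℂ) :
    P2 (v2 l) u v = horn (l.map fun r => horn (r.map Z.val) v) u := by
  unfold P2 v2
  rw [List.map_map]
  rfl

theorem v3_P3 (l : List (List (List Z))) (w u v : ℂ) :
    P3 (v3 l) w u v = horn (l.map fun r => P2 (v2 r) u v) w := by
  unfold P3 v3
  rw [List.map_map]
  rfl

theorem eqB_of {s t : List (List Z)} (h : eqB s t = true) : E2 (v2 s) (v2 t) := by
  intro u v
  rw [v2_P2, v2_P2]
  refine eqP_of (z := zA1) (f := eqA) (g := fun r => horn (r.map Z.val) v) ?_ ?_ u s t h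
  · intro a ha
    exact allP_of (fun _ => zZ_of) v a ha
  · intro a b hab
    exact eqA_of hab v

theorem eqC_of {s t : List (List (List Z))} (h : eqC s t = true) : E3 (v3 s) (v3 t) := by
  intro w u v
  rw [v3_P3, v3_P3]
  refine eqP_of (z := zB1) (f := eqB) (g := fun r => P2 (v2 r) u v) ?_ ?_ w s t h
  · intro a ha
    show P2 (v2 a) u v = 0
    rw [v2_P2]
    exact allP_of (z := zA1) (g := fun r => horn (r.map Z.val) v)
      (fun r hr => allP_of (fun _ => zZ_of) v r hr) u a ha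
  · intro a b hab
    exact eqB_of hab u v

/-- two records agree at the node `m` -/
structure AgR (G t : Tb) (m : ℕ) : Prop where
  ec : G.ec = t.ec
  bc : G.bc = t.bc
  H : E3 G.H t.H
  pol : G.pol = t.pol
  M : E3 (G.M 0) (t.M m)
  a : E2 (G.a 0) (t.a m)
  j : G.j 0 = t.j m
  c : G.c 0 = t.c m

/-- and at the next one -/
structure AgR1 (G t : Tb) (m : ℕ) : Prop extends AgR G t m where
  a1 : E2 (G.a 1) (t.a (m + 1))
  j1 : G.j 1 = t.j (m + 1)
  c1 : G.c 1 = t.c (m + 1)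

theorem HP_eq {G t : Tb} (hp : G.pol = t.pol) (hH : E3 G.H t.H) (y u v : ℂ) :
    HP G.pol G.H y u v = HP t.pol t.H y u v := by
  rw [hp]
  unfold HP
  cases t.pol with
  | none => exact hH y u v
  | some p =>
    show P3 G.H y u v + p.val u y v = P3 t.H y u v + p.val u y v
    rw [hH y u v]

namespace AgR

variable {G t : Tb} {m : ℕ} (h : AgR G t m)
include h

theorem deb (b : PtB) : G.deb b = t.deb b := by
  unfold Tb.deb
  rw [h.ec]

theorem dbb (b : PtB) : G.dbb b = t.dbb b := by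
  unfold Tb.dbb
  rw [h.bc]

theorem Lf (i k : ℕ) (b : PtB) (U : ℂ) : G.nf.Lf i b U = t.nf.Lf k b U := by
  show G.Lf i b U = t.Lf k b U
  unfold Tb.Lf
  rw [h.deb, h.dbb, HP_eq h.pol h.H]

theorem Rf (b : PtB) (U : ℂ) : G.nf.Rf 0 b U = t.nf.Rf m b U := by
  show G.Rf 0 b U = t.Rf m b U
  unfold Tb.Rf Tb.anb
  rw [h.deb, h.dbb, h.a, h.j, h.c]

theorem Mf (b : PtB) (U : ℂ) : G.nf.Mf 0 b U = t.nf.Mf m b U := by
  show G.Mf 0 b U = t.Mf m b U
  unfold Tb.Mf
  rw [h.deb, h.dbb, h.M]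

theorem ptM (b : PtB) (U x : ℂ) : RS.ptM G.nf 0 b U x = RS.ptM t.nf m b U x := by
  unfold RS.ptM
  rw [h.Lf 0 m, h.Rf]

theorem ptL (b : PtB) (U x Ae xa C2 F2 : ℂ) :
    RS.ptL G.nf 0 b U x Ae xa C2 F2 = RS.ptL t.nf m b U x Ae xa C2 F2 := by
  unfold RS.ptL
  rw [h.ptM, h.Mf]

theorem tkb {l l' : List (List ℂ)} (hl : E2 l l') (j : ℂ) (b : PtB) :
    G.tkb l j b = t.tkb l' j b := by
  unfold Tb.tkb
  rw [h.deb, h.dbb, hl]

theorem FL {tl sl tl' sl' : List (List ℂ)} (h1 : E2 tl tl') (h2 : E2 sl sl') {jc nc Ae xa C2 : ℂ}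
    {B1 : ℝ} {b : PtB} {et : ℂ}
    (hF : RS.FL G 0 tl sl jc nc Ae xa C2 B1 b et) :
    RS.FL t m tl' sl' jc nc Ae xa C2 B1 b et := by
  intro x hx
  have := hF x hx
  simp only [h.ptM, h.ptL, h.tkb h1, h.deb, h.dbb, h2 _ _] at this
  exact this

end AgR

theorem AgR1.ptK {G t : Tb} {m : ℕ} (h : AgR1 G t m) (b : PtB) (U x : ℂ) :
    RS.ptK G.nf 0 b U x = RS.ptK t.nf m b U x := by
  have e1 : ∀ U' : ℂ, G.nf.Rf (0 + 1) b U' = t.nf.Rf (m + 1) b U' := by
    intro U'
    show G.Rf 1 b U' = t.Rf (m + 1) b U'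
    unfold Tb.Rf Tb.anb
    rw [h.toAgR.deb, h.toAgR.dbb, h.a1, h.j1, h.c1]
  unfold RS.ptK
  rw [h.toAgR.ptM, h.toAgR.Lf 0 m, h.toAgR.Rf, h.toAgR.Mf, e1, h.toAgR.Lf (0 + 1) (m + 1)]

theorem AgR1.FM {G t : Tb} {m : ℕ} (h : AgR1 G t m) {tl sl tl' sl' : List (List ℂ)}
    (h1 : E2 tl tl') (h2 : E2 sl sl') {jc nc : ℂ} {b : PtB}
    {et : ℂ} (hF : RS.FM G 0 tl sl jc nc b et) : RS.FM t m tl' sl' jc nc b et := by
  intro x hx
  have := hF x hx
  simp only [h.toAgR.ptM, h.ptK, h.toAgR.tkb h1, h.toAgR.deb, h.toAgR.dbb, h2 _ _] at this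
  exact this

/-- the constants agree with the table at the node `m` -/
structure AgZ (t : TD) (m : ℕ) (p : Pm) : Prop where
  ec : p.ec = zi t.ec
  bc : p.bc = zi t.bc
  H : eqC (zH p) (z3 t.H) = true
  M : eqC (zM p) (z3 (nth [] t.M (m + 1))) = true
  a : eqB (zA p) (z2 (nth [] t.a (m + 1))) = true
  j : nth 0 t.j (m + 1) = 0
  c : p.ca = zi (nth 0 t.c (m + 1))
  tt : eqB (zT p) (z2 (nth [] t.t (m + 1))) = true
  s : eqB (zS p) (z2 (sumT t (m + 1))) = true
  nn : p.nn = zn (m + 1)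
  tj : p.tj = zn (2 * (m + 2))
  y : 2 ^ 38 ≤ nth 0 t.y (m + 1)

structure AgZ1 (t : TD) (m : ℕ) (p : Pm) : Prop extends AgZ t m p where
  a1 : eqB (zB p) (z2 (nth [] t.a (m + 2))) = true
  j1 : nth 0 t.j (m + 2) = 0
  c1 : p.cb = zi (nth 0 t.c (m + 2))

/-- the pair of poles -/
structure AgP (t : TD) (p : Pm) (q : PD) : Prop where
  pol : t.pol = some q
  wr : p.wr = zi q.wr
  wi : p.wi = zi q.wi
  w1 : p.w1 = zi q.w1
  rho : zG p = z2 q.rho
  sig : zF p = z2 q.sig

/-- records with the constants -/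
structure GOk (G : Tb) (p : Pm) : Prop where
  ec : G.ec = p.ec.val
  bc : G.bc = p.bc.val
  H : G.H = v3 (zH p)
  M : G.M 0 = v3 (zM p)
  a : G.a 0 = v2 (zA p)
  a1 : G.a 1 = v2 (zB p)
  j : G.j 0 = 0
  j1 : G.j 1 = 0
  c : G.c 0 = p.ca.val
  c1 : G.c 1 = p.cb.val

theorem GQ_ok (p : Pm) : GOk (GQ p) p := ⟨rfl, rfl, rfl, rfl, rfl, rfl, rfl, rfl, rfl, rfl⟩

theorem tl_v (p : Pm) : tl p = v2 (zT p) := rfl
theorem sl_v (p : Pm) : sl p = v2 (zS p) := rfl

theorem pol_some {t : TD} {p : Pm} {q : PD} (h : AgP t p q) : (GQ p).pol = t.tb.pol := by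
  show some (PQ p) = t.pol.map PD.po
  rw [h.pol]
  show some (PQ p) = some q.po
  congr 1
  have hr : (PQ p).rho = q.po.rho := by
    show (v2 (zG p)).map (List.map fun z => (1 / 2) * z) = q.rho.map (List.map fun n => (1 / 2) * cv n)
    rw [h.rho, v2_z2]
    unfold c2
    rw [List.map_map]
    apply List.map_congr_left
    intro r _
    show List.map _ (List.map cv r) = _
    rw [List.map_map]
    rfl
  have hwi : (p.wi).val = cv q.wi := by rw [h.wi, zi_val]
  have hs : (PQ p).sig = q.po.sig := by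
    show (v2 (zF p)).map (List.map fun z => (-(1 / (2 * (p.wi).val))) * z) =
      q.sig.map (List.map fun n => (-(1 / (2 * cv q.wi))) * cv n)
    rw [h.sig, v2_z2, hwi]
    unfold c2
    rw [List.map_map]
    apply List.map_congr_left
    intro r _
    show List.map _ (List.map cv r) = _
    rw [List.map_map]
    rfl
  have h1 : (PQ p).wr = q.po.wr := by
    show (p.wr).val = cv q.wr
    rw [h.wr, zi_val]
  have h2 : (PQ p).w1 = q.po.w1 := by
    show (p.w1).val = cv q.w1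
    rw [h.w1, zi_val]
  have h3 : (PQ p).wi = q.po.wi := hwi
  generalize PQ p = P at hr hs h1 h2 h3 ⊢
  generalize q.po = P' at hr hs h1 h2 h3 ⊢
  cases P
  cases P'
  simp only at hr hs h1 h2 h3
  subst hr hs h1 h2 h3
  rfl

/-- from the checks to the values -/
theorem e3_of {g : List (List (List ℂ))} {s : List (List (List Z))} {l : List (List (List ℤ))}
    (hg : g = v3 s) (h : eqC s (z3 l) = true) : E3 g (c3 l) := by
  rw [hg, ← v3_z3]
  exact eqC_of h

theorem e2_of {g : List (List ℂ)} {s : List (List Z)} {l : List (List ℤ)}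
    (hg : g = v2 s) (h : eqB s (z2 l) = true) : E2 g (c2 l) := by
  rw [hg, ← v2_z2]
  exact eqB_of h

theorem AgZ.toR {t : TD} {m : ℕ} {p : Pm} (h : AgZ t m p) {G : Tb} (hG : GOk G p)
    (hp : G.pol = t.tb.pol) : AgR G t.tb m := by
  refine ⟨?_, ?_, e3_of hG.H h.H, hp, e3_of hG.M h.M, e2_of hG.a h.a, ?_, ?_⟩
  · rw [hG.ec, h.ec, zi_val]
    rfl
  · rw [hG.bc, h.bc, zi_val]
    rfl
  · rw [hG.j]
    show 0 = cv (nth 0 t.j (m + 1))
    rw [h.j, cv_zero]
  · rw [hG.c, h.c, zi_val]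
    rfl

theorem AgZ1.toR1 {t : TD} {m : ℕ} {p : Pm} (h : AgZ1 t m p) {G : Tb} (hG : GOk G p)
    (hp : G.pol = t.tb.pol) : AgR1 G t.tb m := by
  refine ⟨h.toAgZ.toR hG hp, e2_of hG.a1 h.a1, ?_, ?_⟩
  · rw [hG.j1]
    show 0 = cv (nth 0 t.j (m + 1 + 1))
    rw [h.j1, cv_zero]
  · rw [hG.c1, h.c1, zi_val]
    rfl

end Pool.Agent.helper12.GS
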