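import Pool.Agent.helper12.GS.CorZ

/-!
# Agreement of the constants with a table, checks
-/

namespace Pool.Agent.helper12.GS

open Complex
open Pool.Agent.helper31.IA (Z)
open Pool.Agent.helper12.RS Pool.Agent.helper63.NF
open Pool.Agent.helper12.GP (z2 z3 eqZ eqZ_of eq2 eq2_of)

/-- check of `AgZ` -/
def agZ (t : TD) (m : ℕ) (p : Pm) : Bool :=
  eqZ p.ec (zi t.ec) && (eqZ p.bc (zi t.bc) && (eqC (zH p) (z3 t.H) &&
  (eqC (zM p) (z3 (nth [] t.M (m + 1))) && (eqB (zA p) (z2 (nth [] t.a (m + 1))) &&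
  (decide (nth 0 t.j (m + 1) = 0) && (eqZ p.ca (zi (nth 0 t.c (m + 1))) &&
  (eqB (zT p) (z2 (nth [] t.t (m + 1))) && (eqB (zS p) (z2 (sumT t (m + 1))) &&
  (eqZ p.nn (zn (m + 1)) && (eqZ p.tj (zn (2 * (m + 2))) &&
  decide (2 ^ 38 ≤ nth 0 t.y (m + 1))))))))))))

theorem agZ_of {t : TD} {m : ℕ} {p : Pm} (h : agZ t m p = true) : AgZ t m p := by
  unfold agZ at h
  simp only [Bool.and_eq_true, decide_eq_true_eq] at h
  obtain ⟨h1, h2, h3, h4, h5, h6, h7, h8, h9, h10, h11, h12⟩ := h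
  exact ⟨eqZ_of h1, eqZ_of h2, h3, h4, h5, h6, eqZ_of h7, h8, h9, eqZ_of h10, eqZ_of h11, h12⟩

/-- check of `AgZ1` -/
def agZ1 (t : TD) (m : ℕ) (p : Pm) : Bool :=
  agZ t m p && (eqB (zB p) (z2 (nth [] t.a (m + 2))) && (decide (nth 0 t.j (m + 2) = 0) &&
  eqZ p.cb (zi (nth 0 t.c (m + 2)))))

theorem agZ1_of {t : TD} {m : ℕ} {p : Pm} (h : agZ1 t m p = true) : AgZ1 t m p := by
  unfold agZ1 at h
  simp only [Bool.and_eq_true, decide_eq_true_eq] at h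
  obtain ⟨h1, h2, h3, h4⟩ := h
  exact ⟨agZ_of h1, h2, h3, eqZ_of h4⟩

/-- check of `AgL` -/
def agL (t : TD) (p : Pm) : Bool :=
  eqZ p.C2 (zi t.C2) && (decide (p.B1 = t.B1) && (eqZ p.xa (zi (t.x2 / 2 - 1099511627776)) &&
  (decide (2199023255552 ≤ t.x2) &&
  ((decide (t.far = 0) && (eqZ p.ax (zi t.f2) && eqZ p.ay (zi t.f1))) ||
  ((decide (t.far = 2) && (eqZ p.ax (zi 0) && eqZ p.ay (zi t.f1))) ||
  (decide (t.far = 4) && (eqZ p.ax (zi 0) && eqZ p.ay (zi 274877906944))))))))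

theorem agL_of {t : TD} {p : Pm} (h : agL t p = true) : AgL t p := by
  unfold agL at h
  simp only [Bool.and_eq_true, Bool.or_eq_true, decide_eq_true_eq] at h
  obtain ⟨h1, h2, h3, h4, h5⟩ := h
  refine ⟨eqZ_of h1, h2, eqZ_of h3, h4, ?_⟩
  rcases h5 with ⟨a, b, c⟩ | ⟨a, b, c⟩ | ⟨a, b, c⟩
  · exact Or.inl ⟨a, eqZ_of b, eqZ_of c⟩
  · exact Or.inr (Or.inl ⟨a, eqZ_of b, eqZ_of c⟩)
  · exact Or.inr (Or.inr ⟨a, eqZ_of b, eqZ_of c⟩)

/-- check of `AgF` -/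
def agF (t : TD) (p : Pm) : Bool :=
  eqZ p.ec (zi t.ec) && (eqZ p.bc (zi t.bc) && (eqC (zH p) (z3 t.H) &&
  (eqB (zA p) (z2 (nth [] t.a 1)) && (decide (nth 0 t.j 1 = 0) && (eqZ p.ca (zi (nth 0 t.c 1)) &&
  (eqC (zL p) (z3 t.l0) && (eqB (zQ p) (z2 t.q0) && (eqC (zN p) (z3 (nth [] t.M 0)) &&
  (eqB (zE p) (z2 (nth [] t.a 0)) && (decide (nth 0 t.j 0 = 0) && (eqZ p.cc (zi (nth 0 t.c 0)) &&
  (eqB (zT p) (z2 (nth [] t.t 0)) && (eqZ p.tj (zn 2) && decide (2 ^ 38 ≤ nth 0 t.y 0))))))))))))))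

theorem agF_of {t : TD} {p : Pm} (h : agF t p = true) : AgF t p := by
  unfold agF at h
  simp only [Bool.and_eq_true, decide_eq_true_eq] at h
  obtain ⟨h1, h2, h3, h4, h5, h6, h7, h8, h9, h10, h11, h12, h13, h14, h15⟩ := h
  exact ⟨eqZ_of h1, eqZ_of h2, h3, h4, h5, eqZ_of h6, h7, h8, h9, h10, h11, eqZ_of h12, h13,
    eqZ_of h14, h15⟩

/-- check of `AgP` -/
def agP (t : TD) (p : Pm) : Bool :=
  match t.pol with
  | none => false
  | some q => eqZ p.wr (zi q.wr) && (eqZ p.wi (zi q.wi) && (eqZ p.w1 (zi q.w1) &&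
    (eq2 (zG p) (z2 q.rho) && eq2 (zF p) (z2 q.sig))))

theorem agP_of {t : TD} {p : Pm} (h : agP t p = true) : ∃ q, AgP t p q := by
  unfold agP at h
  cases hp : t.pol with
  | none =>
    rw [hp] at h
    cases h
  | some q =>
    rw [hp] at h
    simp only [Bool.and_eq_true] at h
    obtain ⟨h1, h2, h3, h4, h5⟩ := h
    exact ⟨q, hp, eqZ_of h1, eqZ_of h2, eqZ_of h3, eq2_of h4, eq2_of h5⟩

end Pool.Agent.helper12.GS
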