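import Pool.Agent.helper12.GS.Ag

/-!
# The near nodes of the corner of a strip table
-/

namespace Pool.Agent.helper12.GS

open Complex ComplexConjugate
open Pool.Agent.helper31.IA (Z)
open Pool.Agent.helper12.RS Pool.Agent.helper12.FF Pool.Agent.helper63.RG
open Pool.Agent.helper63.NF Pool.Agent.helper20.EQR
open Pool.Agent.helper12.GP (corOk corOk_strip ch_of rho_ok RR_eq tkR_eq Y_ok θ_le A_nonneg dK_strip
  nth_all)

variable {t : TD} {N0 m : ℕ} {e κ x0 : ℝ}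

/-- `‖P2 t‖ < 2` at one point -/
theorem tR_le_two' {b : PtB} (he : 0 < e) {s B : ℝ} (hb : BR e κ s B b) {tl : List (List ℂ)} {n : ℕ}
    (htl : E2 tl (t.tt n)) (h : ‖P2 tl (t.tb.deb b) (t.tb.dbb b)‖ < 2) : t.tR n e κ ≤ 2 := by
  rw [htl, ← Tb.de_eq hb, ← Tb.db_eq he hb] at h
  unfold TD.tR
  exact (Complex.re_le_norm _).trans h.le

/-- **A middle node of the corner.** -/
theorem td_mid {p : Pm} (hc : corOk t = true) (he : 4 ≤ e) (hκ : 0 < κ) (hb : e * κ ≤ 1 / 2)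
    (hS : SF t N0 e κ x0) (hm : m + 2 < N0) (hN : ((m + 1 : ℕ) : ℝ) ≤ 9 / 5 * e)
    (ag : AgZ1 t m p) {G : Tb} (hG : GOk G p) (hp : G.pol = t.tb.pol)
    (hT : ‖P2 (tl p) (G.deb (bB ((1 / e : ℝ) : ℂ) ((e * κ / 2 : ℝ) : ℂ)))
      (G.dbb (bB ((1 / e : ℝ) : ℂ) ((e * κ / 2 : ℝ) : ℂ)))‖ < 2)
    (hA : ∀ s u : ℝ, 0 < s → s ≤ 9 / 64 → 0 < u → u ≤ 1 → e * κ = s * u →
      FM G 0 (tl p) (sl p) p.tj.val p.nn.val (bA ((1 / e : ℝ) : ℂ) s u) 1)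
    (hB : ∀ s u : ℝ, 0 < s → s = e * κ / 2 → 0 ≤ u → u ≤ 1 → 2 * s * u ≤ 9 / 64 →
      FM G 0 (tl p) (sl p) p.tj.val p.nn.val (bB ((1 / e : ℝ) : ℂ) s) (2 * u))
    (arc : ∀ T : ℂ, T + (Real.sinh κ : ℂ) ≠ 0 → ‖T‖ = 1 / 8 / e → ‖omT κ T‖ ≤ t.RR (m + 1) e κ →
      MidQ t.tb e κ θ0 (t.δ (m + 1) e κ) (t.Y (m + 1) e) m T) :
    ∀ T : ℂ, T + (Real.sinh κ : ℂ) ≠ 0 → ‖T‖ ≤ 1 / 8 / e → ‖omT κ T‖ ≤ t.RR (m + 1) e κ →
      MidQ t.tb e κ θ0 (t.δ (m + 1) e κ) (t.Y (m + 1) e) m T := by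
  have he0 : 0 < e := by linarith
  have hst := corOk_strip hc
  have htl : E2 (tl p) (t.tt (m + 1)) := e2_of (tl_v p) ag.tt
  have hsl : E2 (sl p) (c2 (sumT t (m + 1))) := e2_of (sl_v p) ag.s
  have hR := ag.toR1 hG hp
  have hTt : t.tR (m + 1) e κ ≤ 2 := by
    rw [hR.toAgR.deb, hR.toAgR.dbb] at hT
    exact tR_le_two' he0 (brB he0 (s := e * κ / 2) (by positivity) rfl) htl hT
  have H := ch_of hc he hκ hb hS (by omega : m + 1 < N0) hTt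
  have hτ : t.tb.tkR (t.tt (m + 1)) (((2 * (m + 2) : ℕ) : ℝ)) e κ =
      t.tR (m + 1) e κ * kk κ ^ (m + 2) := tkR_eq (m + 1)
  have htp := hS.tp (m + 1) (by omega)
  have hk0 : 0 < kk κ ^ (m + 2) := pow_pos (kk_pos κ) _
  refine corner_mid H θ0_lt.le arc ?_
  refine mid_circ H t.isReal (tl := t.tt (m + 1)) (sl := c2 (sumT t (m + 1))) (R2_c _)
    (R2_c _) (jc := p.tj.val) (nc := p.nn.val)
    (jr := ((2 * (m + 2) : ℕ) : ℝ)) (nr := ((m + 1 : ℕ) : ℝ)) ?_ ?_ ?_ ?_ (Y_ok he0 ag.y) θ_le ?_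
    (hS.R1 m (by omega)) (rho_ok hst hκ hS (by omega) he hN)
    (fun s u h1 h2 h3 h4 h5 => hR.FM htl hsl (hA s u h1 h2 h3 h4 h5))
    (fun s u h1 h2 h3 h4 h5 => hR.FM htl hsl (hB s u h1 h2 h3 h4 h5))
  · rw [ag.tj, zn_val]
    push_cast
    rfl
  · rw [ag.nn, zn_val]
    push_cast
    rfl
  · rw [hτ]
    positivity
  · rw [hτ]
    unfold TD.δ
    rw [dK_strip hst]
    exact mul_le_mul_of_nonneg_right (le_sinh' hκ) (by positivity)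
  · exact RR_eq hst _

/-- constants of the last node -/
structure AgL (t : TD) (p : Pm) : Prop where
  C2 : p.C2 = zi t.C2
  B1 : p.B1 = t.B1
  xa : p.xa = zi (t.x2 / 2 - 1099511627776)
  x2 : 2199023255552 ≤ t.x2
  A : (t.far = 0 ∧ p.ax = zi t.f2 ∧ p.ay = zi t.f1) ∨ (t.far = 2 ∧ p.ax = zi 0 ∧ p.ay = zi t.f1) ∨
    (t.far = 4 ∧ p.ax = zi 0 ∧ p.ay = zi 274877906944)

theorem agA {p : Pm} (h : AgL t p) (hl : t.Okl) (he : 4 ≤ e) (hκ : 0 < κ) :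
    ∃ a b : ℝ, p.ax.val = (a : ℂ) ∧ p.ay.val = (b : ℂ) ∧ 0 ≤ a + b * e ∧
      t.A e κ ≤ a + b * e := by
  have he0 : 0 < e := by linarith
  rcases h.A with ⟨hf, h1, h2⟩ | ⟨hf, h1, h2⟩ | ⟨hf, h1, h2⟩
  · refine ⟨rv t.f2, rv t.f1, ?_, ?_, ?_, ?_⟩
    · rw [h1, zi_val, cv_rv]
    · rw [h2, zi_val, cv_rv]
    · have := hl.f1
      have := hl.f2
      positivity
    · unfold TD.A
      rw [hf]
      show rv t.f1 * e + rv t.f2 ≤ _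
      linarith
  · refine ⟨0, rv t.f1, ?_, ?_, ?_, ?_⟩
    · rw [h1, zi_val, cv_zero, ofReal_zero]
    · rw [h2, zi_val, cv_rv]
    · have := hl.f1
      positivity
    · unfold TD.A
      rw [hf]
      show rv t.f1 * e ≤ _
      linarith
  · have h3 : rv 274877906944 = 1 / 4 := by
      unfold rv
      norm_num
    refine ⟨0, 1 / 4, ?_, ?_, by positivity, ?_⟩
    · rw [h1, zi_val, cv_zero, ofReal_zero]
    · rw [h2, zi_val, cv_rv, h3]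
    · unfold TD.A
      rw [hf]
      show e * (Real.sinh κ * e + 4)⁻¹ ≤ _
      have hK := Real.sinh_pos_iff.2 hκ
      have h4 : (Real.sinh κ * e + 4)⁻¹ ≤ 1 / 4 := by
        rw [inv_le_comm₀ (by positivity) (by norm_num)]
        norm_num
        positivity
      have := mul_le_mul_of_nonneg_left h4 he0.le
      linarith

theorem A_nonneg (hl : t.Okl) (he : 0 < e) (hκ : 0 < κ) : 0 ≤ t.A e κ := by
  have hK := Real.sinh_pos_iff.2 hκ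
  have h1 := hl.f1
  have h2 := hl.f2
  unfold TD.A
  split <;> positivity

/-- **The last node of the corner.** -/
theorem td_last {p : Pm} (hc : corOk t = true) (hl : t.Okl) (he : 4 ≤ e) (hκ : 0 < κ)
    (hb : e * κ ≤ 1 / 2)
    (hS : SF t N0 e κ x0) (hm : m + 2 = N0) (hN : ((m + 1 : ℕ) : ℝ) ≤ 9 / 5 * e)
    (ag : AgZ t m p) (al : AgL t p) {G : Tb} (hG : GOk G p) (hp : G.pol = t.tb.pol)
    (hT : ‖P2 (tl p) (G.deb (bB ((1 / e : ℝ) : ℂ) ((e * κ / 2 : ℝ) : ℂ)))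
      (G.dbb (bB ((1 / e : ℝ) : ℂ) ((e * κ / 2 : ℝ) : ℂ)))‖ < 2)
    (hA : ∀ s u : ℝ, 0 < s → s ≤ 9 / 64 → 0 < u → u ≤ 1 → e * κ = s * u →
      FL G 0 (tl p) (sl p) p.tj.val p.nn.val (p.ax.val * ((1 / e : ℝ) : ℂ) + p.ay.val) p.xa.val
        p.C2.val (((p.B1 : ℕ) : ℝ) / 2 ^ 40) (bA ((1 / e : ℝ) : ℂ) s u) 1)
    (hB : ∀ s u : ℝ, 0 < s → s = e * κ / 2 → 0 ≤ u → u ≤ 1 → 2 * s * u ≤ 9 / 64 →
      FL G 0 (tl p) (sl p) p.tj.val p.nn.val (p.ax.val * ((1 / e : ℝ) : ℂ) + p.ay.val) p.xa.val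
        p.C2.val (((p.B1 : ℕ) : ℝ) / 2 ^ 40) (bB ((1 / e : ℝ) : ℂ) s) (2 * u))
    (arc : ∀ T : ℂ, T + (Real.sinh κ : ℂ) ≠ 0 → ‖T‖ = 1 / 8 / e → ‖omT κ T‖ ≤ t.RR (m + 1) e κ →
      LastP t.tb e κ θ0 (t.δ (m + 1) e κ) (t.Y (m + 1) e) (t.A e κ) t.x0 ((t.B1 : ℝ) / 2 ^ 40) m T) :
    ∀ T : ℂ, T + (Real.sinh κ : ℂ) ≠ 0 → ‖T‖ ≤ 1 / 8 / e → ‖omT κ T‖ ≤ t.RR (m + 1) e κ →
      LastP t.tb e κ θ0 (t.δ (m + 1) e κ) (t.Y (m + 1) e) (t.A e κ) t.x0 ((t.B1 : ℝ) / 2 ^ 40)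
        m T := by
  have he0 : 0 < e := by linarith
  have hst := corOk_strip hc
  have htl : E2 (tl p) (t.tt (m + 1)) := e2_of (tl_v p) ag.tt
  have hsl : E2 (sl p) (c2 (sumT t (m + 1))) := e2_of (sl_v p) ag.s
  have hR := ag.toR hG hp
  have hTt : t.tR (m + 1) e κ ≤ 2 := by
    rw [hR.deb, hR.dbb] at hT
    exact tR_le_two' he0 (brB he0 (s := e * κ / 2) (by positivity) rfl) htl hT
  have H := ch_of hc he hκ hb hS (by omega : m + 1 < N0) hTt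
  have hτ : t.tb.tkR (t.tt (m + 1)) (((2 * (m + 2) : ℕ) : ℝ)) e κ =
      t.tR (m + 1) e κ * kk κ ^ (m + 2) := tkR_eq (m + 1)
  have htp := hS.tp (m + 1) (by omega)
  have hk0 : 0 < kk κ ^ (m + 2) := pow_pos (kk_pos κ) _
  obtain ⟨a, b, ha, hb', hab, hAA⟩ := agA al hl he hκ
  have hx0 : 0 ≤ t.x0 := by
    unfold TD.x0 rv
    have : (2199023255552 : ℝ) ≤ t.x2 := by exact_mod_cast al.x2
    have h2 : 2 ≤ (t.x2 : ℝ) / 2 ^ 40 := by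
      rw [le_div_iff₀ (by positivity)]
      norm_num
      exact this
    linarith
  have hxa : rv (t.x2 / 2 - 1099511627776) ≤ t.x0 := by
    unfold TD.x0 rv
    have h1 : (((t.x2 / 2 : ℤ)) : ℝ) ≤ (t.x2 : ℝ) / 2 := by
      have h0 : 2 * (t.x2 / 2) ≤ t.x2 := by omega
      have h3 : (2 : ℝ) * ((t.x2 / 2 : ℤ) : ℝ) ≤ (t.x2 : ℝ) := by exact_mod_cast h0
      linarith
    push_cast
    have h4 : (1099511627776 : ℝ) / 2 ^ 40 = 1 := by norm_num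
    have h5 : ((((t.x2 / 2 : ℤ)) : ℝ) - 1099511627776) / 2 ^ 40 = ((t.x2 / 2 : ℤ) : ℝ) / 2 ^ 40 - 1 := by
      rw [sub_div, h4]
    rw [h5]
    have h6 : ((t.x2 / 2 : ℤ) : ℝ) / 2 ^ 40 ≤ (t.x2 : ℝ) / 2 / 2 ^ 40 :=
      div_le_div_of_nonneg_right h1 (by positivity)
    have h7 : (t.x2 : ℝ) / 2 / 2 ^ 40 = (t.x2 : ℝ) / 2 ^ 40 / 2 := by ring
    linarith
  have hxa0 : 0 ≤ rv (t.x2 / 2 - 1099511627776) := by
    unfold rv
    have h1 : (0 : ℤ) ≤ t.x2 / 2 - 1099511627776 := by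
      have := al.x2
      omega
    have : (0 : ℝ) ≤ ((t.x2 / 2 - 1099511627776 : ℤ) : ℝ) := by exact_mod_cast h1
    positivity
  have hB1 : (((p.B1 : ℕ) : ℝ) / 2 ^ 40) = (t.B1 : ℝ) / 2 ^ 40 := by rw [al.B1]
  rw [hB1] at hA hB
  refine corner_last H θ0_lt.le (A_nonneg hl he0 hκ) hx0 (by positivity) hl.b1 arc ?_
  refine last_circ H t.isReal (tl := t.tt (m + 1)) (sl := c2 (sumT t (m + 1))) (R2_c _)
    (R2_c _) (jc := p.tj.val) (nc := p.nn.val)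
    (jr := ((2 * (m + 2) : ℕ) : ℝ)) (nr := ((m + 1 : ℕ) : ℝ)) ?_ ?_ ?_ ?_ (Y_ok he0 ag.y) θ_le ?_
    (hS.R1 m (by omega)) (rho_ok hst hκ hS (by omega) he hN)
    ha hb' hab hAA (xa := p.xa.val) (a0 := rv (t.x2 / 2 - 1099511627776)) ?_ hxa0 hxa
    (C2 := p.C2.val) (c2 := rv t.C2) ?_ hl.b1 hl.c2
    (fun s u h1 h2 h3 h4 h5 => hR.FL htl hsl (hA s u h1 h2 h3 h4 h5))
    (fun s u h1 h2 h3 h4 h5 => hR.FL htl hsl (hB s u h1 h2 h3 h4 h5))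
  · rw [ag.tj, zn_val]
    push_cast
    rfl
  · rw [ag.nn, zn_val]
    push_cast
    rfl
  · rw [hτ]
    positivity
  · rw [hτ]
    unfold TD.δ
    rw [dK_strip hst]
    exact mul_le_mul_of_nonneg_right (le_sinh' hκ) (by positivity)
  · exact RR_eq hst _
  · rw [al.xa, zi_val, cv_rv]
  · rw [al.C2, zi_val, cv_rv]

end Pool.Agent.helper12.GS
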