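import Pool.Agent.helper12.GS.Cor

/-!
# The first node of the corner of a strip table
-/

namespace Pool.Agent.helper12.GS

open Complex ComplexConjugate
open Pool.Agent.helper31.IA (Z)
open Pool.Agent.helper12.RS Pool.Agent.helper12.FF Pool.Agent.helper63.RG
open Pool.Agent.helper63.NF Pool.Agent.helper20.EQR
open Pool.Agent.helper12.GP (z2 z3 v2 v3 corOk corOk_strip Y_ok θ_le tkR_eq dK_strip nth_all)

/-- two records agree at the first node -/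
structure AgR0 (G t : Tb) : Prop where
  ec : G.ec = t.ec
  bc : G.bc = t.bc
  H : E3 G.H t.H
  pol : G.pol = t.pol
  a : E2 (G.a 0) (t.a 0)
  j : G.j 0 = t.j 0
  c : G.c 0 = t.c 0
  l0 : E3 G.l0 t.l0
  q0 : E2 G.q0 t.q0
  M0 : E3 G.M0 t.M0
  a0 : E2 G.a0 t.a0
  j0 : G.j0 = t.j0
  c0 : G.c0 = t.c0

namespace AgR0

variable {G t : Tb} (h : AgR0 G t)
include h

theorem deb (b : PtB) : G.deb b = t.deb b := by
  unfold Tb.deb
  rw [h.ec]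

theorem dbb (b : PtB) : G.dbb b = t.dbb b := by
  unfold Tb.dbb
  rw [h.bc]

theorem Lf (b : PtB) (U : ℂ) : G.nf.Lf 0 b U = t.nf.Lf 0 b U := by
  show G.Lf 0 b U = t.Lf 0 b U
  unfold Tb.Lf
  rw [h.deb, h.dbb, HP_eq h.pol h.H]

theorem Rf (b : PtB) (U : ℂ) : G.nf.Rf 0 b U = t.nf.Rf 0 b U := by
  show G.Rf 0 b U = t.Rf 0 b U
  unfold Tb.Rf Tb.anb
  rw [h.deb, h.dbb, h.a, h.j, h.c]

theorem nf0 : G.nf0 = t.nf0 := by
  have e1 : G.L0 = t.L0 := by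
    funext b V
    unfold Tb.L0
    rw [h.deb, h.dbb, h.l0, h.q0]
  have e2 : G.R0 = t.R0 := by
    funext b V
    unfold Tb.R0 Tb.an0b
    rw [h.deb, h.dbb, h.a0, h.j0, h.c0]
  have e3 : G.M0f = t.M0f := by
    funext b V
    unfold Tb.M0f
    rw [h.deb, h.dbb, h.M0]
  unfold Tb.nf0
  rw [e1, e2, e3]

theorem tkb {l l' : List (List ℂ)} (hl : E2 l l') (j : ℂ) (b : PtB) :
    G.tkb l j b = t.tkb l' j b := by
  unfold Tb.tkb
  rw [h.deb, h.dbb, hl]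

theorem ptF1 (b : PtB) (V x : ℂ) :
    RS.ptF1 G.nf0 G.nf b V x = RS.ptF1 t.nf0 t.nf b V x := by
  unfold RS.ptF1
  rw [h.nf0, h.Lf, h.Rf]

theorem FZ {tl tl' : List (List ℂ)} (h1 : E2 tl tl') {jc : ℂ} {b : PtB} {V : ℂ}
    (hF : GP.FZ G tl jc b V) : GP.FZ t tl' jc b V := by
  intro x hx
  have := hF x hx
  simp only [h.ptF1] at this
  simp only [h.nf0, h.tkb h1] at this
  exact this

end AgR0

/-- the constants agree with the table at the first node -/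
structure AgF (t : TD) (p : Pm) : Prop where
  ec : p.ec = zi t.ec
  bc : p.bc = zi t.bc
  H : eqC (zH p) (z3 t.H) = true
  a : eqB (zA p) (z2 (nth [] t.a 1)) = true
  j : nth 0 t.j 1 = 0
  c : p.ca = zi (nth 0 t.c 1)
  l0 : eqC (zL p) (z3 t.l0) = true
  q0 : eqB (zQ p) (z2 t.q0) = true
  M0 : eqC (zN p) (z3 (nth [] t.M 0)) = true
  a0 : eqB (zE p) (z2 (nth [] t.a 0)) = true
  j0 : nth 0 t.j 0 = 0
  c0 : p.cc = zi (nth 0 t.c 0)
  tt : eqB (zT p) (z2 (nth [] t.t 0)) = true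
  tj : p.tj = zn 2
  y : 2 ^ 38 ≤ nth 0 t.y 0

/-- records with the constants, first node -/
structure GOk0 (G : Tb) (p : Pm) : Prop where
  l0 : G.l0 = v3 (zL p)
  q0 : G.q0 = v2 (zQ p)
  M0 : G.M0 = v3 (zN p)
  a0 : G.a0 = v2 (zE p)
  j0 : G.j0 = 0
  c0 : G.c0 = p.cc.val

theorem GQ_ok0 (p : Pm) : GOk0 (GQ p) p := ⟨rfl, rfl, rfl, rfl, rfl, rfl⟩

theorem AgF.toR {t : TD} {p : Pm} (h : AgF t p) {G : Tb} (hG : GOk G p) (hG0 : GOk0 G p)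
    (hp : G.pol = t.tb.pol) : AgR0 G t.tb := by
  refine ⟨?_, ?_, e3_of hG.H h.H, hp, e2_of hG.a h.a, ?_, ?_, e3_of hG0.l0 h.l0, e2_of hG0.q0 h.q0,
    e3_of hG0.M0 h.M0, e2_of hG0.a0 h.a0, ?_, ?_⟩
  · rw [hG.ec, h.ec, zi_val]
    rfl
  · rw [hG.bc, h.bc, zi_val]
    rfl
  · rw [hG.j]
    show 0 = Pool.Agent.helper63.NF.cv (nth 0 t.j (0 + 1))
    rw [h.j, cv_zero]
  · rw [hG.c, h.c, zi_val]
    rfl
  · rw [hG0.j0]
    show 0 = Pool.Agent.helper63.NF.cv (nth 0 t.j 0)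
    rw [h.j0, cv_zero]
  · rw [hG0.c0, h.c0, zi_val]
    rfl

variable {t : TD} {N0 : ℕ} {e κ x0 : ℝ}

/-- **The first node of the corner.** -/
theorem td_zero {p : Pm} (hc : corOk t = true) (he : 4 ≤ e) (hκ : 0 < κ)
    (hS : SF t N0 e κ x0) (hN : 0 < N0)
    (ag : AgF t p) {G : Tb} (hG : GOk G p) (hG0 : GOk0 G p) (hp : G.pol = t.tb.pol)
    (hA : ∀ s u : ℝ, 0 < s → s ≤ 1 / 20 → 0 < u → u ≤ 1 → e * κ = 4 * (s * u) →
      GP.FZ G (tl p) p.tj.val (b0A ((1 / e : ℝ) : ℂ) s u) 1)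
    (hB : ∀ s u : ℝ, 0 < s → s = e * κ / 2 → 0 ≤ u → u ≤ 1 →
      GP.FZ G (tl p) p.tj.val (bB ((1 / e : ℝ) : ℂ) s) (v0B u)) :
    ∀ η : ℝ, 0 ≤ η → |κ * η| < Real.pi / 2 → Tab.vv e κ (Tb.gR e) η ≤ 1 / 20 →
    ZeroP t.tb e κ θ0 (t.δ 0 e κ) (t.Y 0 e) ((η : ℂ) * I) (t.L0 e κ ((η : ℂ) * I))
      (t.R0 e κ ((η : ℂ) * I)) (t.M0 e κ ((η : ℂ) * I)) := by
  intro η hη0 hη hv
  have he0 : 0 < e := by linarith
  have hst := corOk_strip hc
  have htl : E2 (tl p) (t.tt 0) := e2_of (tl_v p) ag.tt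
  have hR := ag.toR hG hG0 hp
  have hτ : t.tb.tkR (t.tt 0) 2 e κ = t.tR 0 e κ * kk κ ^ (0 + 1) := by
    have := tkR_eq (t := t) (e := e) (κ := κ) 0
    norm_num at this
    rw [zero_add, pow_one]
    exact this
  have htp := hS.tp 0 hN
  have hk0 : 0 < kk κ ^ (0 + 1) := pow_pos (kk_pos κ) _
  have hτ0 : 0 ≤ t.tb.tkR (t.tt 0) 2 e κ := by
    rw [hτ]
    positivity
  have hδ : κ * t.tb.tkR (t.tt 0) 2 e κ ≤ t.δ 0 e κ := by
    rw [hτ]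
    unfold TD.δ
    rw [dK_strip hst]
    exact mul_le_mul_of_nonneg_right (le_sinh' hκ) (by positivity)
  have hj : p.tj.val = ((2 : ℝ) : ℂ) := by
    rw [ag.tj, zn_val]
    push_cast
    rfl
  have htk : ∀ {s B : ℝ} {b : PtB}, BR e κ s B b →
      t.tb.tkb (t.tt 0) p.tj.val b = (t.tb.tkR (t.tt 0) 2 e κ : ℂ) := fun hb =>
    Tb.tk_eq he0 t.isReal (R2_c _) hj hb
  have hcc : ∃ c : ℝ, 0 ≤ c ∧ t.tb.c0 = (c : ℂ) := by
    unfold corOk at hc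
    simp only [Bool.and_eq_true, List.all_eq_true, decide_eq_true_eq] at hc
    obtain ⟨h1, -⟩ := nth_all (P := fun x => 0 ≤ x ∧ x ≤ 1099511627776) (by norm_num) hc.1.2 0
    have h1' : (0 : ℝ) ≤ (nth 0 t.c 0 : ℤ) := by exact_mod_cast h1
    exact ⟨((nth 0 t.c 0 : ℤ) : ℝ) / 2 ^ 40, by positivity, rfl⟩
  have hv0 : 0 ≤ Tab.vv e κ (Tb.gR e) η :=
    Pool.Agent.helper72.EQR.vv_nonneg he0 hκ hη0 (le_of_lt (lt_of_le_of_lt (le_abs_self _) hη))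
  obtain ⟨v, hvv⟩ : ∃ v, v = Tab.vv e κ (Tb.gR e) η := ⟨_, rfl⟩
  rw [← hvv] at hv hv0
  have hbp : 0 < e * κ / 2 := by positivity
  rcases le_total (e * κ / 2) (2 * v) with hcc' | hcc'
  · have hvp : 0 < v := by linarith
    obtain ⟨B', hB'⟩ : ∃ B', B' = (e * κ / 2) / v := ⟨_, rfl⟩
    have hB0 : 0 < B' := by rw [hB']; exact div_pos hbp hvp
    have hvB : v * B' = e * κ / 2 := by rw [hB']; field_simp
    have hB2 : B' ≤ 2 := by
      rw [hB', div_le_iff₀ hvp]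
      exact hcc'
    have hbr : BR e κ v B' (b0A ((1 / e : ℝ) : ℂ) (v : ℂ) ((B' / 2 : ℝ) : ℂ)) := by
      refine ⟨rfl, rfl, ?_, hvp, hB0, ?_⟩
      · show (2 : ℂ) * ((B' / 2 : ℝ) : ℂ) = _
        push_cast
        ring
      · rw [hvB]
        field_simp
    have hF := hR.FZ htl (hA v (B' / 2) hvp hv (by linarith) (by linarith) (by linarith))
    refine zeroQ_of (V := 1) he0 hκ t.isReal hη hcc hbr (by rw [mul_one, hvv]) (htk hbr) hτ0 hδ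
      (Y_ok he0 ag.y) θ_le ?_
    rw [ofReal_one]
    exact hF
  · obtain ⟨V, hV⟩ : ∃ V, V = v / (e * κ / 2) := ⟨_, rfl⟩
    have hV0 : 0 ≤ V := by rw [hV]; exact div_nonneg hv0 hbp.le
    have hvV : (e * κ / 2) * V = v := by rw [hV]; field_simp
    have hV2 : V ≤ 1 / 2 := by
      rw [hV, div_le_iff₀ hbp]
      linarith
    have hbr : BR e κ (e * κ / 2) 1 (bB ((1 / e : ℝ) : ℂ) ((e * κ / 2 : ℝ) : ℂ)) :=
      brB he0 hbp rfl
    have hVc : (V : ℂ) = v0B ((2 * V : ℝ) : ℂ) := by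
      unfold v0B
      push_cast
      ring
    have hF := hR.FZ htl (hB (e * κ / 2) (2 * V) hbp rfl (by linarith) (by linarith))
    refine zeroQ_of (V := V) he0 hκ t.isReal hη hcc hbr (by rw [hvV, hvv]) (htk hbr) hτ0 hδ
      (Y_ok he0 ag.y) θ_le ?_
    rw [hVc]
    exact hF

end Pool.Agent.helper12.GS
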