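import Pool.Agent.helper12.GS.Pm
import Pool.Agent.helper12.GP.Gt

/-!
Generated: the records of the constants.
-/

namespace Pool.Agent.helper12.GS

open Pool.Agent.helper12.RS

noncomputable section

/-- the pair of poles -/
def PQ (p : Pm) : Pol where
  wr := (p.wr).val
  wi := (p.wi).val
  w1 := (p.w1).val
  rho := ([[(p.g00).val, (p.g01).val], [(p.g10).val, (p.g11).val]]).map (List.map fun z => (1 / 2) * z)
  sig := ([[(p.f00).val, (p.f01).val], [(p.f10).val, (p.f11).val]]).map (List.map fun z => (-(1 / (2 * (p.wi).val))) * z)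

/-- the record of the constants -/
def GQ (p : Pm) : Tb where
  ec := (p.ec).val
  bc := (p.bc).val
  H := [[[(p.h000).val, (p.h001).val, (p.h002).val, (p.h003).val], [(p.h010).val, (p.h011).val, (p.h012).val], [(p.h020).val, (p.h021).val], [(p.h030).val]],
      [[(p.h100).val, (p.h101).val, (p.h102).val], [(p.h110).val, (p.h111).val], [(p.h120).val]],
      [[(p.h200).val, (p.h201).val, (p.h202).val], [(p.h210).val, (p.h211).val]],
      [[(p.h300).val, (p.h301).val], [(p.h310).val]],
      [[(p.h400).val, (p.h401).val], [(p.h410).val]],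
      [[(p.h500).val, (p.h501).val]],
      [[(p.h600).val]],
      [[(p.h700).val]],
      [[(p.h800).val]]]
  pol := some (PQ p)
  M := fun _ => [[[(p.m000).val, (p.m001).val, (p.m002).val], [(p.m010).val]],
      [[(p.m100).val, (p.m101).val], [(p.m110).val]],
      [[(p.m200).val]],
      [[(p.m300).val]]]
  a := fun k => match k with
    | 0 => [[(p.a00).val, (p.a01).val, (p.a02).val, (p.a03).val], [(p.a10).val, (p.a11).val]]
    | _ => [[(p.b00).val, (p.b01).val, (p.b02).val, (p.b03).val], [(p.b10).val, (p.b11).val]]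
  j := fun _ => 0
  c := fun k => match k with
    | 0 => (p.ca).val
    | _ => (p.cb).val
  l0 := [[[(p.l000).val, (p.l001).val, (p.l002).val], [(p.l010).val, (p.l011).val], [(p.l020).val]],
      [[(p.l100).val, (p.l101).val, (p.l102).val], [(p.l110).val, (p.l111).val], [(p.l120).val]],
      [[(p.l200).val, (p.l201).val], [(p.l210).val]],
      [[(p.l300).val, (p.l301).val], [(p.l310).val]],
      [[(p.l400).val, (p.l401).val], [(p.l410).val]],
      [[(p.l500).val, (p.l501).val], [(p.l510).val]],
      [[(p.l600).val]],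
      [[(p.l700).val]],
      [[(p.l800).val]],
      [[(p.l900).val]],
      [[(p.l1000).val]],
      [[(p.l1100).val]]]
  q0 := [[(p.q00).val, (p.q01).val, (p.q02).val, (p.q03).val], [(p.q10).val, (p.q11).val, (p.q12).val], [(p.q20).val, (p.q21).val], [(p.q30).val]]
  M0 := [[[(p.n000).val, (p.n001).val, (p.n002).val], [(p.n010).val, (p.n011).val], [(p.n020).val]],
      [[(p.n100).val, (p.n101).val], [(p.n110).val]],
      [[(p.n200).val, (p.n201).val], [(p.n210).val]],
      [[(p.n300).val]],
      [[(p.n400).val]],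
      [[(p.n500).val]]]
  a0 := [[(p.e00).val, (p.e01).val, (p.e02).val, (p.e03).val], [(p.e10).val, (p.e11).val]]
  j0 := 0
  c0 := (p.cc).val

/-- the bound of the displacement -/
def tl (p : Pm) : List (List ℂ) := [[(p.t00).val, (p.t01).val, (p.t02).val, (p.t03).val], [(p.t10).val, (p.t11).val]]

/-- the slope of the radius -/
def sl (p : Pm) : List (List ℂ) := [[(p.s00).val, (p.s01).val, (p.s02).val, (p.s03).val], [(p.s10).val, (p.s11).val]]

end

/-- value with the pair of poles -/
theorem HPq {p : Pm} (hw : (p.wi).val ≠ 0) {y u v : ℂ} :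
    P3 (GQ p).H y u v + ((P2 [[(p.g00).val, (p.g01).val], [(p.g10).val, (p.g11).val]] u v * (y - ((p.w1).val * u + (p.wr).val)) + P2 [[(p.f00).val, (p.f01).val], [(p.f10).val, (p.f11).val]] u v) *
      ((y - ((p.w1).val * u + (p.wr).val)) * (y - ((p.w1).val * u + (p.wr).val)) +
        (p.wi).val * (p.wi).val)⁻¹) = HP (GQ p).pol (GQ p).H y u v := by
  show _ = P3 (GQ p).H y u v + (PQ p).val u y v
  unfold Pol.val
  have h1 : P2 (PQ p).rho u v = (1 / 2) * P2 [[(p.g00).val, (p.g01).val], [(p.g10).val, (p.g11).val]] u v := GP.P2_smul' _ _ _ _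
  have h2 : P2 (PQ p).sig u v = (-(1 / (2 * (p.wi).val))) * P2 [[(p.f00).val, (p.f01).val], [(p.f10).val, (p.f11).val]] u v := GP.P2_smul' _ _ _ _
  have h3 : (PQ p).wi = (p.wi).val := rfl
  have h4 : (PQ p).z u y = y - ((p.w1).val * u + (p.wr).val) := rfl
  rw [h1, h2, h3, h4]
  congr 2
  field_simp
  ring

end Pool.Agent.helper12.GS
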