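import Pool.Agent.helper12.GS.FAQP
import Pool.Agent.helper12.GS.Gt
import Pool.Agent.helper12.RS.NodeW
import Pool.Agent.helper12.RS.Tb
import Pool.Agent.helper12.RS.SerV
import Pool.Agent.helper12.RS.CirU
import Pool.Agent.helper12.RS.TbG

/-!
Generated: meaning of the parametric program.
-/

namespace Pool.Agent.helper12.GS.FAQ

open Complex Pool.Agent.helper12.RS Pool.Agent.helper20.EQR
open Pool.Agent.helper31.IA (Z)

set_option maxRecDepth 10000

theorem spec_const (a b c d : Nat) {z : ℂ}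
    (h : ((((a : ℝ) - b) / 2 ^ 40 : ℝ) : ℂ) + ((((c : ℝ) - d) / 2 ^ 40 : ℝ) : ℂ) * Complex.I = z) :
    z = (Z.mk a b c d).val := h.symm

theorem prog0_spec {p : Pm} {x0 x1 x2 x3 : ℂ}
    (h : Pool.Agent.helper31.IX.Asserts (prog0 p) [x0, x1, x2, x3])
    {v0 v1 v2 v3 v4 v5 v6 v7 v8 v9 v10 v11 v12 v13 v14 v15 v16 v17 v18 v19 v20 v21 v22 v23 v24 v25 v26 v27 v28 v29 v30 v31 v32 v33 v34 v35 v36 v37 v38 v39 v40 v41 v42 v43 v44 v45 v46 v47 v48 v49 v50 v51 v52 v53 v54 v55 v56 v57 v58 v59 v60 v61 v62 v63 v64 v65 v66 v67 v68 v69 v70 v71 v72 v73 v74 v75 v76 v77 v78 v79 v80 v81 v82 v83 v84 v85 v86 v87 v88 v89 v90 v91 v92 v93 v94 v95 v96 v97 v98 v99 v100 v101 v102 v103 v104 v105 v106 v107 v108 v109 v110 v111 v112 v113 v114 v115 v116 v117 v118 v119 v120 v121 v122 v123 v124 v125 v126 v127 v128 v129 v130 v131 v132 v133 v134 v135 v136 v137 v138 v139 v140 v141 v142 v143 v144 v145 v146 v147 v148 v149 v150 v151 v152 v153 v154 v155 v156 v157 v158 v159 v160 v161 v162 v163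 v164 v165 v166 v167 v168 v169 v170 v171 v172 v173 v174 v175 v176 v177 v178 v179 v180 v181 v182 v183 v184 v185 v186 v187 v188 v189 v190 v191 v192 v193 v194 v195 v196 v197 v198 v199 v200 v201 v202 v203 v204 v205 v206 v207 v208 v209 v210 v211 v212 v213 v214 v215 v216 v217 v218 v219 v220 v221 v222 v223 v224 v225 v226 v227 v228 v229 v230 v231 v232 v233 v234 v235 v236 v237 v238 v239 v240 v241 v242 v243 v244 v245 v246 v247 v248 v249 v250 v251 v252 v253 v254 v255 v256 v257 v258 v259 v260 v261 v262 v263 v264 v265 v266 v267 v268 v269 v270 v271 v272 v273 v274 v275 v276 v277 v278 v279 v280 v281 v282 v283 v284 v285 v286 v287 v288 v289 v290 v291 v292 v293 v294 v295 v296 v297 v298 v299 v300 v301 v302 v303 v304 v305 v306 v307 v308 v309 v310 v311 v312 v313 v314 v315 v316 v317 v318 v319 v320 v321 v322 v323 v324 v325 v326 v327 v328 v329 v330 v331 v332 v333 v334 v335 v336 v337 v338 v339 v340 v341 v342 v343 v344 v345 v346 v347 v348 v349 v350 v351 v352 v353 v354 v355 v356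 v357 v358 v359 v360 v361 v362 v363 v364 v365 v366 v367 v368 v369 v370 v371 v372 v373 v374 v375 v376 v377 v378 v379 v380 v381 v382 v383 v384 v385 v386 v387 v388 v389 v390 v391 v392 v393 v394 v395 v396 v397 v398 v399 v400 v401 v402 v403 v404 v405 v406 v407 v408 v409 v410 v411 v412 v413 v414 v415 v416 v417 v418 v419 v420 v421 v422 v423 v424 v425 v426 v427 v428 v429 v430 v431 v432 v433 v434 v435 v436 v437 v438 v439 v440 v441 v442 v443 v444 v445 v446 v447 v448 v449 v450 v451 v452 v453 v454 v455 v456 v457 v458 v459 v460 v461 v462 v463 v464 v465 v466 v467 v468 v469 v470 v471 v472 v473 v474 v475 v476 v477 v478 v479 v480 v481 v482 v483 v484 v485 v486 v487 v488 v489 v490 v491 v492 v493 v494 v495 v496 v497 v498 v499 v500 v501 v502 v503 v504 v505 v506 v507 v508 v509 v510 v511 v512 v513 v514 v515 v516 v517 v518 v519 v520 v521 v522 v523 v524 v525 v526 v527 v528 v529 v530 v531 v532 v533 v534 v535 v536 v537 v538 v539 v540 v541 v542 v543 v544 v545 v546 v547 v548 v549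 v550 v551 v552 v553 v554 v555 v556 v557 v558 v559 v560 v561 v562 v563 v564 v565 v566 v567 v568 v569 v570 v571 v572 v573 v574 v575 v576 v577 v578 v579 v580 v581 v582 v583 v584 v585 v586 v587 v588 v589 v590 v591 v592 v593 v594 v595 v596 v597 v598 v599 v600 v601 v602 v603 v604 v605 v606 v607 v608 v609 v610 v611 v612 v613 v614 v615 v616 v617 v618 v619 v620 v621 v622 v623 v624 v625 v626 v627 v628 v629 v630 v631 v632 v633 v634 v635 v636 v637 v638 v639 v640 v641 v642 v643 v644 v645 v646 v647 v648 v649 v650 v651 v652 v653 v654 v655 v656 v657 v658 v659 v660 v661 v662 v663 v664 v665 v666 v667 v668 v669 v670 v671 v672 v673 v674 v675 v676 v677 v678 v679 v680 v681 v682 v683 v684 v685 v686 v687 v688 v689 v690 v691 v692 v693 v694 v695 v696 v697 v698 v699 v700 v701 v702 v703 v704 v705 v706 v707 v708 v709 v710 v711 v712 v713 v714 v715 v716 v717 v718 v719 v720 v721 v722 v723 v724 v725 v726 v727 v728 v729 v730 v731 v732 v733 v734 v735 v736 v737 v738 v739 v740 v741 v742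 v743 v744 v745 v746 v747 v748 v749 v750 v751 v752 v753 v754 v755 v756 v757 v758 v759 v760 v761 v762 v763 v764 v765 v766 v767 v768 v769 v770 v771 v772 v773 v774 v775 v776 v777 v778 v779 v780 v781 v782 v783 v784 v785 v786 v787 v788 v789 v790 v791 v792 v793 v794 v795 v796 v797 : ℂ}
    (e0 : v0 = (1 : ℂ))
    (e1 : v1 = (2 : ℂ) * x2)
    (e2 : v2 = x1 * v1)
    (e3 : v3 = v2 * x0)
    (e4 : v4 = x1 * x0)
    (e6 : v5 = ((45812984491 / 1099511627776) : ℂ))
    (e7 : v6 = v5 * v3)
    (e8 : v7 = ((183251937963 / 1099511627776) : ℂ))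
    (e9 : v8 = v6 + v7)
    (e10 : v9 = v8 * v3)
    (e11 : v10 = ((1 / 2) : ℂ))
    (e12 : v11 = v9 + v10)
    (e13 : v12 = v11 * v3)
    (e14 : v13 = (1 : ℂ))
    (e15 : v14 = v12 + v13)
    (e16 : ‖v3‖ < (91625968981 / 1099511627776) → ‖v15 - v14‖ ≤ (132561 / 274877906944))
    (e17 : v16 = -v3)
    (e19 : v17 = v5 * v16)
    (e20 : v18 = v17 + v7)
    (e21 : v19 = v18 * v16)
    (e22 : v20 = v19 + v10)
    (e23 : v21 = v20 * v16)
    (e24 : v22 = v21 + v13)
    (e25 : ‖v3‖ < (91625968981 / 1099511627776) → ‖v16‖ < (91625968981 / 1099511627776) → ‖v23 - v22‖ ≤ (132561 / 274877906944))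
    (e26 : v24 = v15 + v23)
    (e27 : v25 = ((1 / 2) : ℂ) * v24)
    (e28 : v26 = v15 - v23)
    (e29 : v27 = v3 * v26)
    (e30 : v28 = ((1 / 2) : ℂ) * v27)
    (e31 : v29 = v28 + v13)
    (e32 : v30 = v25 * v29)
    (e33 : v31 = v25 * v1)
    (e34 : v32 = v31 * v31)
    (e35 : v33 = (4 : ℂ) * v32)
    (e36 : v34 = v1 * v30)
    (e37 : v35 = (2 : ℂ) * v34)
    (e38 : v36 = v33 * v4)
    (e39 : v37 = ((1 / 2) : ℂ) * v36)
    (e40 : v38 = (2 : ℂ) * v2)
    (e41 : v39 = -v38)
    (e43 : v40 = ((218157069 / 1099511627776) : ℂ))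
    (e44 : v41 = v40 * v39)
    (e45 : v42 = ((1527099483 / 1099511627776) : ℂ))
    (e46 : v43 = v41 + v42)
    (e47 : v44 = v43 * v39)
    (e48 : v45 = ((4581298449 / 549755813888) : ℂ))
    (e49 : v46 = v44 + v45)
    (e50 : v47 = v46 * v39)
    (e51 : v48 = v47 + v5)
    (e52 : v49 = v48 * v39)
    (e53 : v50 = v49 + v7)
    (e54 : v51 = v50 * v39)
    (e55 : v52 = v51 + v10)
    (e56 : v53 = v52 * v39)
    (e57 : v54 = v53 + v13)
    (e58 : ‖v3‖ < (91625968981 / 1099511627776) → ‖v16‖ < (91625968981 / 1099511627776) → ‖v39‖ < 1 → ‖v55 - v54‖ ≤ (30678339 / 1099511627776))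
    (e59 : v56 = v1 * v55)
    (e60 : v57 = -v56)
    (e61 : v58 = x1 * v57)
    (e63 : v59 = ((78536544841 / 549755813888) : ℂ))
    (e64 : v60 = v59 * v58)
    (e65 : v61 = ((-183251937963 / 1099511627776) : ℂ))
    (e66 : v62 = v60 + v61)
    (e67 : v63 = v62 * v58)
    (e68 : v64 = ((219902325555 / 1099511627776) : ℂ))
    (e69 : v65 = v63 + v64)
    (e70 : v66 = v65 * v58)
    (e71 : v67 = ((-1 / 4) : ℂ))
    (e72 : v68 = v66 + v67)
    (e73 : v69 = v68 * v58)
    (e74 : v70 = ((366503875925 / 1099511627776) : ℂ))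
    (e75 : v71 = v69 + v70)
    (e76 : v72 = v71 * v58)
    (e77 : v73 = ((-1 / 2) : ℂ))
    (e78 : v74 = v72 + v73)
    (e79 : v75 = v74 * v58)
    (e80 : v76 = v75 + v13)
    (e81 : ‖v3‖ < (91625968981 / 1099511627776) → ‖v16‖ < (91625968981 / 1099511627776) → ‖v39‖ < 1 → ‖v58‖ < (1 / 4) → ‖v77 - v76‖ ≤ (2796203 / 274877906944))
    (e82 : v78 = v57 * v77)
    (e83 : v79 = (p.ec).val)
    (e84 : v80 = (p.bc).val)
    (e85 : v81 = x0 - v79)
    (e86 : v82 = v2 - v80)
    (e87 : v83 = (2 : ℂ) * v3)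
    (e88 : v84 = (1 * Complex.I : ℂ))
    (e89 : v85 = v84 * v0)
    (e90 : v86 = x0 * x0)
    (e91 : v87 = ((83 / 16) : ℂ) * v86)
    (e92 : v88 = ((201 / 128) : ℂ))
    (e93 : v89 = v87 + v88)
    (e94 : v90 = v85 * v89)
    (e95 : v91 = (2 : ℂ) * v90)
    (e96 : v92 = v4 * v4)
    (e97 : v93 = v92 * v33)
    (e98 : v94 = ((3 / 8) : ℂ) * v93)
    (e99 : v95 = v94 + v13)
    (e100 : v96 = v91 * v95)
    (e101 : v97 = x1 * v85)
    (e102 : v98 = ((1 / 2) : ℂ) * v97)
    (e103 : v99 = v98 + v13)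
    (e104 : v100 = (v99)⁻¹)
    (e105 : v101 = v85 * v100)
    (e106 : v102 = x1 * v101)
    (e107 : v103 = (p.l1100).val)
    (e108 : v104 = v103 * v102)
    (e109 : v105 = (p.l1000).val)
    (e110 : v106 = v104 + v105)
    (e111 : v107 = v106 * v102)
    (e112 : v108 = (p.l900).val)
    (e113 : v109 = v107 + v108)
    (e114 : v110 = v109 * v102)
    (e115 : v111 = (p.l800).val)
    (e116 : v112 = v110 + v111)
    (e117 : v113 = v112 * v102)
    (e118 : v114 = (p.l700).val)
    (e119 : v115 = v113 + v114)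
    (e120 : v116 = v115 * v102)
    (e121 : v117 = (p.l600).val)
    (e122 : v118 = v116 + v117)
    (e123 : v119 = v118 * v102)
    (e124 : v120 = (p.l510).val)
    (e125 : v121 = v120 * v81)
    (e126 : v122 = (p.l501).val)
    (e127 : v123 = v122 * v82)
    (e128 : v124 = (p.l500).val)
    (e129 : v125 = v123 + v124)
    (e130 : v126 = v121 + v125)
    (e131 : v127 = v119 + v126)
    (e132 : v128 = v127 * v102)
    (e133 : v129 = (p.l410).val)
    (e134 : v130 = v129 * v81)
    (e135 : v131 = (p.l401).val)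
    (e136 : v132 = v131 * v82)
    (e137 : v133 = (p.l400).val)
    (e138 : v134 = v132 + v133)
    (e139 : v135 = v130 + v134)
    (e140 : v136 = v128 + v135)
    (e141 : v137 = v136 * v102)
    (e142 : v138 = (p.l310).val)
    (e143 : v139 = v138 * v81)
    (e144 : v140 = (p.l301).val)
    (e145 : v141 = v140 * v82)
    (e146 : v142 = (p.l300).val)
    (e147 : v143 = v141 + v142)
    (e148 : v144 = v139 + v143)
    (e149 : v145 = v137 + v144)
    (e150 : v146 = v145 * v102)
    (e151 : v147 = (p.l210).val)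
    (e152 : v148 = v147 * v81)
    (e153 : v149 = (p.l201).val)
    (e154 : v150 = v149 * v82)
    (e155 : v151 = (p.l200).val)
    (e156 : v152 = v150 + v151)
    (e157 : v153 = v148 + v152)
    (e158 : v154 = v146 + v153)
    (e159 : v155 = v154 * v102)
    (e160 : v156 = (p.l120).val)
    (e161 : v157 = v156 * v81)
    (e162 : v158 = (p.l111).val)
    (e163 : v159 = v158 * v82)
    (e164 : v160 = (p.l110).val)
    (e165 : v161 = v159 + v160)
    (e166 : v162 = v157 + v161)
    (e167 : v163 = v162 * v81)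
    (e168 : v164 = (p.l102).val)
    (e169 : v165 = v164 * v82)
    (e170 : v166 = (p.l101).val)
    (e171 : v167 = v165 + v166)
    (e172 : v168 = v167 * v82)
    (e173 : v169 = (p.l100).val)
    (e174 : v170 = v168 + v169)
    (e175 : v171 = v163 + v170)
    (e176 : v172 = v155 + v171)
    (e177 : v173 = v172 * v102)
    (e178 : v174 = (p.l020).val)
    (e179 : v175 = v174 * v81)
    (e180 : v176 = (p.l011).val)
    (e181 : v177 = v176 * v82)
    (e182 : v178 = (p.l010).val)
    (e183 : v179 = v177 + v178)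
    (e184 : v180 = v175 + v179)
    (e185 : v181 = v180 * v81)
    (e186 : v182 = (p.l002).val)
    (e187 : v183 = v182 * v82)
    (e188 : v184 = (p.l001).val)
    (e189 : v185 = v183 + v184)
    (e190 : v186 = v185 * v82)
    (e191 : v187 = (p.l000).val)
    (e192 : v188 = v186 + v187)
    (e193 : v189 = v181 + v188)
    (e194 : v190 = v173 + v189)
    (e195 : v191 = v101 * v190)
    (e196 : v192 = (p.q30).val)
    (e197 : v193 = v192 * v81)
    (e198 : v194 = (p.q21).val)
    (e199 : v195 = v194 * v82)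
    (e200 : v196 = (p.q20).val)
    (e201 : v197 = v195 + v196)
    (e202 : v198 = v193 + v197)
    (e203 : v199 = v198 * v81)
    (e204 : v200 = (p.q12).val)
    (e205 : v201 = v200 * v82)
    (e206 : v202 = (p.q11).val)
    (e207 : v203 = v201 + v202)
    (e208 : v204 = v203 * v82)
    (e209 : v205 = (p.q10).val)
    (e210 : v206 = v204 + v205)
    (e211 : v207 = v199 + v206)
    (e212 : v208 = v207 * v81)
    (e213 : v209 = (p.q03).val)
    (e214 : v210 = v209 * v82)
    (e215 : v211 = (p.q02).val)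
    (e216 : v212 = v210 + v211)
    (e217 : v213 = v212 * v82)
    (e218 : v214 = (p.q01).val)
    (e219 : v215 = v213 + v214)
    (e220 : v216 = v215 * v82)
    (e221 : v217 = (p.q00).val)
    (e222 : v218 = v216 + v217)
    (e223 : v219 = v208 + v218)
    (e224 : v220 = v1 * v219)
    (e225 : v221 = v191 + v220)
    (e226 : v222 = v101 * v89)
    (e227 : v223 = v1 + v222)
    (e228 : v224 = (4 : ℂ) * v223)
    (e229 : v225 = (p.e11).val)
    (e230 : v226 = v225 * v82)
    (e231 : v227 = (p.e10).val)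
    (e232 : v228 = v226 + v227)
    (e233 : v229 = v228 * v81)
    (e234 : v230 = (p.e03).val)
    (e235 : v231 = v230 * v82)
    (e236 : v232 = (p.e02).val)
    (e237 : v233 = v231 + v232)
    (e238 : v234 = v233 * v82)
    (e239 : v235 = (p.e01).val)
    (e240 : v236 = v234 + v235)
    (e241 : v237 = v236 * v82)
    (e242 : v238 = (p.e00).val)
    (e243 : v239 = v237 + v238)
    (e244 : v240 = v229 + v239)
    (e245 : v241 = (p.cc).val)
    (e246 : v242 = v240 * v224)
    (e247 : v243 = x1 * v224)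
    (e248 : v244 = v241 * v243)
    (e249 : v245 = v244 + v13)
    (e250 : v246 = (v245)⁻¹)
    (e251 : v247 = v242 * v246)
    (e252 : v248 = (p.n500).val)
    (e253 : v249 = v248 * v102)
    (e254 : v250 = (p.n400).val)
    (e255 : v251 = v249 + v250)
    (e256 : v252 = v251 * v102)
    (e257 : v253 = (p.n300).val)
    (e258 : v254 = v252 + v253)
    (e259 : v255 = v254 * v102)
    (e260 : v256 = (p.n210).val)
    (e261 : v257 = v256 * v81)
    (e262 : v258 = (p.n201).val)
    (e263 : v259 = v258 * v82)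
    (e264 : v260 = (p.n200).val)
    (e265 : v261 = v259 + v260)
    (e266 : v262 = v257 + v261)
    (e267 : v263 = v255 + v262)
    (e268 : v264 = v263 * v102)
    (e269 : v265 = (p.n110).val)
    (e270 : v266 = v265 * v81)
    (e271 : v267 = (p.n101).val)
    (e272 : v268 = v267 * v82)
    (e273 : v269 = (p.n100).val)
    (e274 : v270 = v268 + v269)
    (e275 : v271 = v266 + v270)
    (e276 : v272 = v264 + v271)
    (e277 : v273 = v272 * v102)
    (e278 : v274 = (p.n020).val)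
    (e279 : v275 = v274 * v81)
    (e280 : v276 = (p.n011).val)
    (e281 : v277 = v276 * v82)
    (e282 : v278 = (p.n010).val)
    (e283 : v279 = v277 + v278)
    (e284 : v280 = v275 + v279)
    (e285 : v281 = v280 * v81)
    (e286 : v282 = (p.n002).val)
    (e287 : v283 = v282 * v82)
    (e288 : v284 = (p.n001).val)
    (e289 : v285 = v283 + v284)
    (e290 : v286 = v285 * v82)
    (e291 : v287 = (p.n000).val)
    (e292 : v288 = v286 + v287)
    (e293 : v289 = v281 + v288)
    (e294 : v290 = v273 + v289)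
    (e295 : v291 = x1 * v221)
    (e296 : v292 = -v291)
    (e298 : v293 = v40 * v292)
    (e299 : v294 = v293 + v42)
    (e300 : v295 = v294 * v292)
    (e301 : v296 = v295 + v45)
    (e302 : v297 = v296 * v292)
    (e303 : v298 = v297 + v5)
    (e304 : v299 = v298 * v292)
    (e305 : v300 = v299 + v7)
    (e306 : v301 = v300 * v292)
    (e307 : v302 = v301 + v10)
    (e308 : v303 = v302 * v292)
    (e309 : v304 = v303 + v13)
    (e310 : ‖v3‖ < (91625968981 / 1099511627776) → ‖v16‖ < (91625968981 / 1099511627776) → ‖v39‖ < 1 → ‖v58‖ < (1 / 4) → v99 ≠ 0 → v245 ≠ 0 → ‖v292‖ < 1 → ‖v305 - v304‖ ≤ (30678339 / 1099511627776))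
    (e311 : v306 = v221 * v305)
    (e312 : v307 = ((-1 / 2) : ℂ) * v306)
    (e313 : v308 = x1 * v307)
    (e314 : v309 = (2 : ℂ) * v308)
    (e315 : v310 = v309 + v13)
    (e317 : v311 = ((61083979321 / 549755813888) : ℂ))
    (e318 : v312 = v311 * v308)
    (e319 : v313 = ((-1 / 8) : ℂ))
    (e320 : v314 = v312 + v313)
    (e321 : v315 = v314 * v308)
    (e322 : v316 = v315 + v59)
    (e323 : v317 = v316 * v308)
    (e324 : v318 = v317 + v61)
    (e325 : v319 = v318 * v308)
    (e326 : v320 = v319 + v64)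
    (e327 : v321 = v320 * v308)
    (e328 : v322 = v321 + v67)
    (e329 : v323 = v322 * v308)
    (e330 : v324 = v323 + v70)
    (e331 : v325 = v324 * v308)
    (e332 : v326 = v325 + v73)
    (e333 : v327 = v326 * v308)
    (e334 : v328 = v327 + v13)
    (e335 : ‖v3‖ < (91625968981 / 1099511627776) → ‖v16‖ < (91625968981 / 1099511627776) → ‖v39‖ < 1 → ‖v58‖ < (1 / 4) → v99 ≠ 0 → v245 ≠ 0 → ‖v292‖ < 1 → ‖v308‖ < (3 / 8) → ‖v329 - v328‖ ≤ (3224863 / 137438953472))
    (e336 : v330 = v307 * v329)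
    (e337 : v331 = v247 * x3)
    (e338 : v332 = v310 * v331)
    (e339 : v333 = x1 * v332)
    (e341 : v334 = v311 * v333)
    (e342 : v335 = v334 + v313)
    (e343 : v336 = v335 * v333)
    (e344 : v337 = v336 + v59)
    (e345 : v338 = v337 * v333)
    (e346 : v339 = v338 + v61)
    (e347 : v340 = v339 * v333)
    (e348 : v341 = v340 + v64)
    (e349 : v342 = v341 * v333)
    (e350 : v343 = v342 + v67)
    (e351 : v344 = v343 * v333)
    (e352 : v345 = v344 + v70)
    (e353 : v346 = v345 * v333)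
    (e354 : v347 = v346 + v73)
    (e355 : v348 = v347 * v333)
    (e356 : v349 = v348 + v13)
    (e357 : ‖v3‖ < (91625968981 / 1099511627776) → ‖v16‖ < (91625968981 / 1099511627776) → ‖v39‖ < 1 → ‖v58‖ < (1 / 4) → v99 ≠ 0 → v245 ≠ 0 → ‖v292‖ < 1 → ‖v308‖ < (3 / 8) → ‖v333‖ < (3 / 8) → ‖v350 - v349‖ ≤ (3224863 / 137438953472))
    (e358 : v351 = v332 * v350)
    (e359 : v352 = x1 * v331)
    (e360 : v353 = -v352)
    (e362 : v354 = v311 * v353)
    (e363 : v355 = v354 + v313)
    (e364 : v356 = v355 * v353)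
    (e365 : v357 = v356 + v59)
    (e366 : v358 = v357 * v353)
    (e367 : v359 = v358 + v61)
    (e368 : v360 = v359 * v353)
    (e369 : v361 = v360 + v64)
    (e370 : v362 = v361 * v353)
    (e371 : v363 = v362 + v67)
    (e372 : v364 = v363 * v353)
    (e373 : v365 = v364 + v70)
    (e374 : v366 = v365 * v353)
    (e375 : v367 = v366 + v73)
    (e376 : v368 = v367 * v353)
    (e377 : v369 = v368 + v13)
    (e378 : ‖v3‖ < (91625968981 / 1099511627776) → ‖v16‖ < (91625968981 / 1099511627776) → ‖v39‖ < 1 → ‖v58‖ < (1 / 4) → v99 ≠ 0 → v245 ≠ 0 → ‖v292‖ < 1 → ‖v308‖ < (3 / 8) → ‖v333‖ < (3 / 8) → ‖v353‖ < (3 / 8) → ‖v370 - v369‖ ≤ (3224863 / 137438953472))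
    (e379 : v371 = v331 * v370)
    (e380 : v372 = -v371)
    (e381 : v373 = v351 - v372)
    (e382 : v374 = v373 + v221)
    (e383 : v375 = v1 + v78)
    (e384 : v376 = v375 + v372)
    (e385 : v377 = v376 - v221)
    (e386 : v378 = v377 - v330)
    (e387 : v379 = v4 * v374)
    (e388 : v380 = v4 * v378)
    (e389 : v381 = -v380)
    (e391 : v382 = v5 * v381)
    (e392 : v383 = v382 + v7)
    (e393 : v384 = v383 * v381)
    (e394 : v385 = v384 + v10)
    (e395 : v386 = v385 * v381)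
    (e396 : v387 = v386 + v13)
    (e397 : ‖v3‖ < (91625968981 / 1099511627776) → ‖v16‖ < (91625968981 / 1099511627776) → ‖v39‖ < 1 → ‖v58‖ < (1 / 4) → v99 ≠ 0 → v245 ≠ 0 → ‖v292‖ < 1 → ‖v308‖ < (3 / 8) → ‖v333‖ < (3 / 8) → ‖v353‖ < (3 / 8) → ‖v381‖ < (1 / 4) → ‖v388 - v387‖ ≤ (21474837 / 549755813888))
    (e398 : v389 = v378 * v388)
    (e399 : v390 = -v389)
    (e400 : v391 = v4 * v390)
    (e401 : v392 = v391 + v13)
    (e402 : v393 = -v379)
    (e404 : v394 = v5 * v393)
    (e405 : v395 = v394 + v7)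
    (e406 : v396 = v395 * v393)
    (e407 : v397 = v396 + v10)
    (e408 : v398 = v397 * v393)
    (e409 : v399 = v398 + v13)
    (e410 : ‖v3‖ < (91625968981 / 1099511627776) → ‖v16‖ < (91625968981 / 1099511627776) → ‖v39‖ < 1 → ‖v58‖ < (1 / 4) → v99 ≠ 0 → v245 ≠ 0 → ‖v292‖ < 1 → ‖v308‖ < (3 / 8) → ‖v333‖ < (3 / 8) → ‖v353‖ < (3 / 8) → ‖v381‖ < (1 / 4) → ‖v393‖ < (1 / 4) → ‖v400 - v399‖ ≤ (21474837 / 549755813888))
    (e411 : v401 = v374 * v400)
    (e412 : v402 = -v401)
    (e413 : v403 = v4 * v402)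
    (e414 : v404 = v403 + v13)
    (e415 : v405 = v392 * v404)
    (e416 : v406 = v390 * v404)
    (e417 : v407 = v406 + v402)
    (e418 : v408 = v392 * v405)
    (e419 : v409 = v390 * v405)
    (e420 : v410 = v409 + v407)
    (e421 : v411 = v405 * v405)
    (e422 : v412 = v96 * v96)
    (e423 : v413 = v33 - v412)
    (e424 : v414 = v413 * v411)
    (e425 : v415 = v4 * v414)
    (e426 : v416 = v4 * v415)
    (e427 : v417 = -v416)
    (e429 : v418 = v64 * v417)
    (e430 : v419 = v418 + v67)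
    (e431 : v420 = v419 * v417)
    (e432 : v421 = v420 + v70)
    (e433 : v422 = v421 * v417)
    (e434 : v423 = v422 + v73)
    (e435 : v424 = v423 * v417)
    (e436 : v425 = v424 + v13)
    (e437 : ‖v3‖ < (91625968981 / 1099511627776) → ‖v16‖ < (91625968981 / 1099511627776) → ‖v39‖ < 1 → ‖v58‖ < (1 / 4) → v99 ≠ 0 → v245 ≠ 0 → ‖v292‖ < 1 → ‖v308‖ < (3 / 8) → ‖v333‖ < (3 / 8) → ‖v353‖ < (3 / 8) → ‖v381‖ < (1 / 4) → ‖v393‖ < (1 / 4) → ‖v417‖ < (1 / 8) → ‖v426 - v425‖ ≤ (6391321 / 1099511627776))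
    (e438 : v427 = v415 * v426)
    (e439 : v428 = ((-1 / 2) : ℂ) * v427)
    (e440 : v429 = v4 * v428)
    (e442 : v430 = v5 * v429)
    (e443 : v431 = v430 + v7)
    (e444 : v432 = v431 * v429)
    (e445 : v433 = v432 + v10)
    (e446 : v434 = v433 * v429)
    (e447 : v435 = v434 + v13)
    (e448 : ‖v3‖ < (91625968981 / 1099511627776) → ‖v16‖ < (91625968981 / 1099511627776) → ‖v39‖ < 1 → ‖v58‖ < (1 / 4) → v99 ≠ 0 → v245 ≠ 0 → ‖v292‖ < 1 → ‖v308‖ < (3 / 8) → ‖v333‖ < (3 / 8) → ‖v353‖ < (3 / 8) → ‖v381‖ < (1 / 4) → ‖v393‖ < (1 / 4) → ‖v417‖ < (1 / 8) → ‖v429‖ < (91625968981 / 1099511627776) → ‖v436 - v435‖ ≤ (132561 / 274877906944))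
    (e449 : v437 = v428 * v436)
    (e450 : v438 = v4 * v437)
    (e451 : v439 = v438 + v13)
    (e452 : v440 = v392 * v392)
    (e453 : v441 = v33 * v440)
    (e454 : v442 = v408 * v413)
    (e455 : v443 = (2 : ℂ) * v442)
    (e456 : v444 = v441 + v443)
    (e457 : v445 = v4 * v444)
    (e458 : v446 = v392 * v439)
    (e459 : v447 = v96 * v446)
    (e460 : v448 = (2 : ℂ) * v447)
    (e461 : v449 = v445 + v448)
    (e462 : v450 = v4 * v449)
    (e464 : v451 = v311 * v450)
    (e465 : v452 = v451 + v313)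
    (e466 : v453 = v452 * v450)
    (e467 : v454 = v453 + v59)
    (e468 : v455 = v454 * v450)
    (e469 : v456 = v455 + v61)
    (e470 : v457 = v456 * v450)
    (e471 : v458 = v457 + v64)
    (e472 : v459 = v458 * v450)
    (e473 : v460 = v459 + v67)
    (e474 : v461 = v460 * v450)
    (e475 : v462 = v461 + v70)
    (e476 : v463 = v462 * v450)
    (e477 : v464 = v463 + v73)
    (e478 : v465 = v464 * v450)
    (e479 : v466 = v465 + v13)
    (e480 : ‖v3‖ < (91625968981 / 1099511627776) → ‖v16‖ < (91625968981 / 1099511627776) → ‖v39‖ < 1 → ‖v58‖ < (1 / 4) → v99 ≠ 0 → v245 ≠ 0 → ‖v292‖ < 1 → ‖v308‖ < (3 / 8) → ‖v333‖ < (3 / 8) → ‖v353‖ < (3 / 8) → ‖v381‖ < (1 / 4) → ‖v393‖ < (1 / 4) → ‖v417‖ < (1 / 8) → ‖v429‖ < (91625968981 / 1099511627776) → ‖v450‖ < (3 / 8) → ‖v467 - v466‖ ≤ (3224863 / 137438953472))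
    (e481 : v468 = v449 * v467)
    (e482 : v469 = v4 * v468)
    (e483 : v470 = ((1 / 2) : ℂ) * v469)
    (e485 : v471 = v5 * v470)
    (e486 : v472 = v471 + v7)
    (e487 : v473 = v472 * v470)
    (e488 : v474 = v473 + v10)
    (e489 : v475 = v474 * v470)
    (e490 : v476 = v475 + v13)
    (e491 : ‖v3‖ < (91625968981 / 1099511627776) → ‖v16‖ < (91625968981 / 1099511627776) → ‖v39‖ < 1 → ‖v58‖ < (1 / 4) → v99 ≠ 0 → v245 ≠ 0 → ‖v292‖ < 1 → ‖v308‖ < (3 / 8) → ‖v333‖ < (3 / 8) → ‖v353‖ < (3 / 8) → ‖v381‖ < (1 / 4) → ‖v393‖ < (1 / 4) → ‖v417‖ < (1 / 8) → ‖v429‖ < (91625968981 / 1099511627776) → ‖v450‖ < (3 / 8) → ‖v470‖ < (1 / 4) → ‖v477 - v476‖ ≤ (21474837 / 549755813888))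
    (e492 : v478 = v470 * v477)
    (e493 : v479 = (2 : ℂ) * v413)
    (e494 : v480 = v479 - v33)
    (e495 : v481 = v411 * v480)
    (e496 : v482 = v92 * v481)
    (e497 : v483 = v13 - v482)
    (e498 : v484 = v405 * v439)
    (e499 : v485 = v96 * v484)
    (e500 : v486 = v4 * v485)
    (e501 : v487 = (2 : ℂ) * v486)
    (e502 : v488 = v483 - v487)
    (e504 : v489 = v29 * v96)
    (e505 : v490 = v37 + v489)
    (e506 : v491 = v4 * v490)
    (e507 : v492 = v491 + v13)
    (e508 : v493 = (v492)⁻¹)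
    (e509 : v494 = v490 * v493)
    (e510 : v495 = (2 : ℂ) * v37)
    (e511 : v496 = v495 + v494)
    (e512 : v497 = v1 * v26)
    (e513 : v498 = ((1 / 2) : ℂ) * v497)
    (e514 : v499 = v29 * v493)
    (e515 : v500 = v390 * v439)
    (e516 : v501 = v500 + v437)
    (e517 : v502 = v501 - v498)
    (e518 : v503 = v29 * v494)
    (e519 : v504 = v502 + v503)
    (e520 : v505 = (2 : ℂ) * v504)
    (e521 : v506 = v408 * v96)
    (e522 : v507 = (2 : ℂ) * v506)
    (e523 : v508 = v496 * v499)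
    (e524 : v509 = v507 + v508)
    (e525 : v510 = v505 - v509)
    (e526 : v511 = v392 + v13)
    (e527 : v512 = v390 * v511)
    (e528 : v513 = (2 : ℂ) * v410)
    (e529 : v514 = v512 + v513)
    (e530 : v515 = v514 + v494)
    (e531 : v516 = (2 : ℂ) * v515)
    (e532 : v517 = (2 : ℂ))
    (e533 : v518 = v493 + v517)
    (e534 : v519 = v496 * v518)
    (e535 : v520 = v516 - v519)
    (e536 : v521 = v96 * v510)
    (e537 : v522 = v37 * v520)
    (e538 : v523 = v521 + v522)
    (e539 : v524 = v37 + v494)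
    (e540 : v525 = v4 * v496)
    (e541 : v526 = v525 + v517)
    (e542 : v527 = v478 + v526)
    (e543 : v528 = (v527)⁻¹)
    (e544 : v529 = v523 * v528)
    (e545 : v530 = v4 * v529)
    (e546 : v531 = v524 + v530)
    (e547 : v532 = (p.t11).val)
    (e548 : v533 = v532 * v82)
    (e549 : v534 = (p.t10).val)
    (e550 : v535 = v533 + v534)
    (e551 : v536 = v535 * v81)
    (e552 : v537 = (p.t03).val)
    (e553 : v538 = v537 * v82)
    (e554 : v539 = (p.t02).val)
    (e555 : v540 = v538 + v539)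
    (e556 : v541 = v540 * v82)
    (e557 : v542 = (p.t01).val)
    (e558 : v543 = v541 + v542)
    (e559 : v544 = v543 * v82)
    (e560 : v545 = (p.t00).val)
    (e561 : v546 = v544 + v545)
    (e562 : v547 = v536 + v546)
    (e563 : v548 = (p.tj).val)
    (e564 : v549 = v548 * v83)
    (e565 : v550 = -v549)
    (e566 : v551 = Complex.exp v550)
    (e567 : v552 = v547 * v551)
    (e568 : v553 = x1 * v531)
    (e570 : v554 = v37 + v531)
    (e571 : v555 = v4 * v554)
    (e572 : v556 = v555 + v13)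
    (e573 : v557 = (v556)⁻¹)
    (e574 : v558 = v554 * v557)
    (e575 : v559 = v557 + v13)
    (e576 : v560 = v558 * v559)
    (e577 : v561 = x1 * v560)
    (e578 : v562 = -v83)
    (e579 : v563 = Complex.exp v562)
    (e580 : v564 = (p.h800).val)
    (e581 : v565 = v564 * v561)
    (e582 : v566 = (p.h700).val)
    (e583 : v567 = v565 + v566)
    (e584 : v568 = v567 * v561)
    (e585 : v569 = (p.h600).val)
    (e586 : v570 = v568 + v569)
    (e587 : v571 = v570 * v561)
    (e588 : v572 = (p.h501).val)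
    (e589 : v573 = v572 * v82)
    (e590 : v574 = (p.h500).val)
    (e591 : v575 = v573 + v574)
    (e592 : v576 = v571 + v575)
    (e593 : v577 = v576 * v561)
    (e594 : v578 = (p.h410).val)
    (e595 : v579 = v578 * v81)
    (e596 : v580 = (p.h401).val)
    (e597 : v581 = v580 * v82)
    (e598 : v582 = (p.h400).val)
    (e599 : v583 = v581 + v582)
    (e600 : v584 = v579 + v583)
    (e601 : v585 = v577 + v584)
    (e602 : v586 = v585 * v561)
    (e603 : v587 = (p.h310).val)
    (e604 : v588 = v587 * v81)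
    (e605 : v589 = (p.h301).val)
    (e606 : v590 = v589 * v82)
    (e607 : v591 = (p.h300).val)
    (e608 : v592 = v590 + v591)
    (e609 : v593 = v588 + v592)
    (e610 : v594 = v586 + v593)
    (e611 : v595 = v594 * v561)
    (e612 : v596 = (p.h211).val)
    (e613 : v597 = v596 * v82)
    (e614 : v598 = (p.h210).val)
    (e615 : v599 = v597 + v598)
    (e616 : v600 = v599 * v81)
    (e617 : v601 = (p.h202).val)
    (e618 : v602 = v601 * v82)
    (e619 : v603 = (p.h201).val)
    (e620 : v604 = v602 + v603)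
    (e621 : v605 = v604 * v82)
    (e622 : v606 = (p.h200).val)
    (e623 : v607 = v605 + v606)
    (e624 : v608 = v600 + v607)
    (e625 : v609 = v595 + v608)
    (e626 : v610 = v609 * v561)
    (e627 : v611 = (p.h120).val)
    (e628 : v612 = v611 * v81)
    (e629 : v613 = (p.h111).val)
    (e630 : v614 = v613 * v82)
    (e631 : v615 = (p.h110).val)
    (e632 : v616 = v614 + v615)
    (e633 : v617 = v612 + v616)
    (e634 : v618 = v617 * v81)
    (e635 : v619 = (p.h102).val)
    (e636 : v620 = v619 * v82)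
    (e637 : v621 = (p.h101).val)
    (e638 : v622 = v620 + v621)
    (e639 : v623 = v622 * v82)
    (e640 : v624 = (p.h100).val)
    (e641 : v625 = v623 + v624)
    (e642 : v626 = v618 + v625)
    (e643 : v627 = v610 + v626)
    (e644 : v628 = v627 * v561)
    (e645 : v629 = (p.h030).val)
    (e646 : v630 = v629 * v81)
    (e647 : v631 = (p.h021).val)
    (e648 : v632 = v631 * v82)
    (e649 : v633 = (p.h020).val)
    (e650 : v634 = v632 + v633)
    (e651 : v635 = v630 + v634)
    (e652 : v636 = v635 * v81)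
    (e653 : v637 = (p.h012).val)
    (e654 : v638 = v637 * v82)
    (e655 : v639 = (p.h011).val)
    (e656 : v640 = v638 + v639)
    (e657 : v641 = v640 * v82)
    (e658 : v642 = (p.h010).val)
    (e659 : v643 = v641 + v642)
    (e660 : v644 = v636 + v643)
    (e661 : v645 = v644 * v81)
    (e662 : v646 = (p.h003).val)
    (e663 : v647 = v646 * v82)
    (e664 : v648 = (p.h002).val)
    (e665 : v649 = v647 + v648)
    (e666 : v650 = v649 * v82)
    (e667 : v651 = (p.h001).val)
    (e668 : v652 = v650 + v651)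
    (e669 : v653 = v652 * v82)
    (e670 : v654 = (p.h000).val)
    (e671 : v655 = v653 + v654)
    (e672 : v656 = v645 + v655)
    (e673 : v657 = v628 + v656)
    (e674 : v658 = (p.w1).val)
    (e675 : v659 = (p.wr).val)
    (e676 : v660 = (p.wi).val)
    (e677 : v661 = v658 * v81)
    (e678 : v662 = v661 + v659)
    (e679 : v663 = v660 * v660)
    (e680 : v664 = (p.g11).val)
    (e681 : v665 = v664 * v82)
    (e682 : v666 = (p.g10).val)
    (e683 : v667 = v665 + v666)
    (e684 : v668 = v667 * v81)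
    (e685 : v669 = (p.g01).val)
    (e686 : v670 = v669 * v82)
    (e687 : v671 = (p.g00).val)
    (e688 : v672 = v670 + v671)
    (e689 : v673 = v668 + v672)
    (e690 : v674 = (p.f11).val)
    (e691 : v675 = v674 * v82)
    (e692 : v676 = (p.f10).val)
    (e693 : v677 = v675 + v676)
    (e694 : v678 = v677 * v81)
    (e695 : v679 = (p.f01).val)
    (e696 : v680 = v679 * v82)
    (e697 : v681 = (p.f00).val)
    (e698 : v682 = v680 + v681)
    (e699 : v683 = v678 + v682)
    (e700 : v684 = v561 - v662)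
    (e701 : v685 = v673 * v684)
    (e702 : v686 = v685 + v683)
    (e703 : v687 = v684 * v684)
    (e704 : v688 = v687 + v663)
    (e705 : v689 = (v688)⁻¹)
    (e706 : v690 = v686 * v689)
    (e707 : v691 = v657 + v690)
    (e708 : v692 = (2 : ℂ) * v1)
    (e709 : v693 = v531 - v35)
    (e710 : v694 = v563 + v557)
    (e711 : v695 = v563 * v694)
    (e712 : v696 = v557 * v695)
    (e713 : v697 = v693 * v696)
    (e714 : v698 = v691 + v10)
    (e715 : v699 = v697 * v698)
    (e716 : v700 = v692 + v699)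
    (e717 : v701 = (p.a11).val)
    (e718 : v702 = v701 * v82)
    (e719 : v703 = (p.a10).val)
    (e720 : v704 = v702 + v703)
    (e721 : v705 = v704 * v81)
    (e722 : v706 = (p.a03).val)
    (e723 : v707 = v706 * v82)
    (e724 : v708 = (p.a02).val)
    (e725 : v709 = v707 + v708)
    (e726 : v710 = v709 * v82)
    (e727 : v711 = (p.a01).val)
    (e728 : v712 = v710 + v711)
    (e729 : v713 = v712 * v82)
    (e730 : v714 = (p.a00).val)
    (e731 : v715 = v713 + v714)
    (e732 : v716 = v705 + v715)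
    (e733 : v717 = (2 : ℂ) * v716)
    (e734 : v718 = (p.ca).val)
    (e735 : v719 = v531 + v35)
    (e736 : v720 = v717 * v719)
    (e737 : v721 = v718 * v553)
    (e738 : v722 = v721 + v13)
    (e739 : v723 = (v722)⁻¹)
    (e740 : v724 = v720 * v723)
    (e741 : v725 = x1 * v700)
    (e742 : v726 = -v725)
    (e744 : v727 = v40 * v726)
    (e745 : v728 = v727 + v42)
    (e746 : v729 = v728 * v726)
    (e747 : v730 = v729 + v45)
    (e748 : v731 = v730 * v726)
    (e749 : v732 = v731 + v5)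
    (e750 : v733 = v732 * v726)
    (e751 : v734 = v733 + v7)
    (e752 : v735 = v734 * v726)
    (e753 : v736 = v735 + v10)
    (e754 : v737 = v736 * v726)
    (e755 : v738 = v737 + v13)
    (e756 : ‖v3‖ < (91625968981 / 1099511627776) → ‖v16‖ < (91625968981 / 1099511627776) → ‖v39‖ < 1 → ‖v58‖ < (1 / 4) → v99 ≠ 0 → v245 ≠ 0 → ‖v292‖ < 1 → ‖v308‖ < (3 / 8) → ‖v333‖ < (3 / 8) → ‖v353‖ < (3 / 8) → ‖v381‖ < (1 / 4) → ‖v393‖ < (1 / 4) → ‖v417‖ < (1 / 8) → ‖v429‖ < (91625968981 / 1099511627776) → ‖v450‖ < (3 / 8) → ‖v470‖ < (1 / 4) → 0 < (v488).re → v492 ≠ 0 → v527 ≠ 0 → 0 < (v290).re → v556 ≠ 0 → v688 ≠ 0 → v722 ≠ 0 → ‖v726‖ < 1 → ‖v739 - v738‖ ≤ (30678339 / 1099511627776))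
    (e757 : v740 = v700 * v739)
    (e758 : v741 = ((-1 / 2) : ℂ) * v740)
    (e759 : v742 = x1 * v741)
    (e760 : v743 = (2 : ℂ) * v742)
    (e761 : v744 = v743 + v13)
    (e763 : v745 = v311 * v742)
    (e764 : v746 = v745 + v313)
    (e765 : v747 = v746 * v742)
    (e766 : v748 = v747 + v59)
    (e767 : v749 = v748 * v742)
    (e768 : v750 = v749 + v61)
    (e769 : v751 = v750 * v742)
    (e770 : v752 = v751 + v64)
    (e771 : v753 = v752 * v742)
    (e772 : v754 = v753 + v67)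
    (e773 : v755 = v754 * v742)
    (e774 : v756 = v755 + v70)
    (e775 : v757 = v756 * v742)
    (e776 : v758 = v757 + v73)
    (e777 : v759 = v758 * v742)
    (e778 : v760 = v759 + v13)
    (e779 : ‖v3‖ < (91625968981 / 1099511627776) → ‖v16‖ < (91625968981 / 1099511627776) → ‖v39‖ < 1 → ‖v58‖ < (1 / 4) → v99 ≠ 0 → v245 ≠ 0 → ‖v292‖ < 1 → ‖v308‖ < (3 / 8) → ‖v333‖ < (3 / 8) → ‖v353‖ < (3 / 8) → ‖v381‖ < (1 / 4) → ‖v393‖ < (1 / 4) → ‖v417‖ < (1 / 8) → ‖v429‖ < (91625968981 / 1099511627776) → ‖v450‖ < (3 / 8) → ‖v470‖ < (1 / 4) → 0 < (v488).re → v492 ≠ 0 → v527 ≠ 0 → 0 < (v290).re → v556 ≠ 0 → v688 ≠ 0 → v722 ≠ 0 → ‖v726‖ < 1 → ‖v742‖ < (3 / 8) → ‖v761 - v760‖ ≤ (3224863 / 137438953472))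
    (e780 : v762 = v741 * v761)
    (e781 : v763 = v744 * v724)
    (e782 : v764 = x1 * v763)
    (e784 : v765 = ((1 / 2) : ℂ) * v468)
    (e785 : v766 = v765 - v221)
    (e786 : v767 = v766 - v330)
    (e787 : v768 = v767 + v762)
    (e788 : v769 = x1 * v768)
    (e789 : v770 = -v769)
    (e791 : v771 = v5 * v770)
    (e792 : v772 = v771 + v7)
    (e793 : v773 = v772 * v770)
    (e794 : v774 = v773 + v10)
    (e795 : v775 = v774 * v770)
    (e796 : v776 = v775 + v13)
    (e797 : ‖v3‖ < (91625968981 / 1099511627776) → ‖v16‖ < (91625968981 / 1099511627776) → ‖v39‖ < 1 → ‖v58‖ < (1 / 4) → v99 ≠ 0 → v245 ≠ 0 → ‖v292‖ < 1 → ‖v308‖ < (3 / 8) → ‖v333‖ < (3 / 8) → ‖v353‖ < (3 / 8) → ‖v381‖ < (1 / 4) → ‖v393‖ < (1 / 4) → ‖v417‖ < (1 / 8) → ‖v429‖ < (91625968981 / 1099511627776) → ‖v450‖ < (3 / 8) → ‖v470‖ < (1 / 4) → 0 < (v488).re → v492 ≠ 0 → v527 ≠ 0 → 0 < (v290).re → v556 ≠ 0 → v688 ≠ 0 → v722 ≠ 0 → ‖v726‖ < 1 → ‖v742‖ < (3 / 8) → ‖v764‖ < (1 / 2) → ‖v770‖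 < (1 / 4) → ‖v777 - v776‖ ≤ (21474837 / 549755813888))
    (e798 : v778 = v770 * v777)
    (e799 : v779 = v778 + v13)
    (e800 : v780 = (v247)⁻¹)
    (e801 : v781 = v768 * v777)
    (e802 : v782 = v781 * v780)
    (e803 : v783 = x3 - v782)
    (e804 : v784 = v290 * v783)
    (e805 : v785 = x3 - v784)
    (e806 : v786 = v763 * v780)
    (e807 : v787 = v779 * v786)
    (e808 : v788 = v290 * v787)
    (e810 : v789 = v35 + v531)
    (e811 : v790 = v35 + v524)
    (e812 : v791 = v789 * v790)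
    (e813 : v792 = v791 * v552)
    (e814 : v793 = v30 * v529)
    (e815 : v794 = (2 : ℂ) * v793)
    (e816 : v795 = (v792)⁻¹)
    (e817 : v796 = v794 * v795)
    (e819 : ‖v3‖ < (91625968981 / 1099511627776) → ‖v16‖ < (91625968981 / 1099511627776) → ‖v39‖ < 1 → ‖v58‖ < (1 / 4) → v99 ≠ 0 → v245 ≠ 0 → ‖v292‖ < 1 → ‖v308‖ < (3 / 8) → ‖v333‖ < (3 / 8) → ‖v353‖ < (3 / 8) → ‖v381‖ < (1 / 4) → ‖v393‖ < (1 / 4) → ‖v417‖ < (1 / 8) → ‖v429‖ < (91625968981 / 1099511627776) → ‖v450‖ < (3 / 8) → ‖v470‖ < (1 / 4) → 0 < (v488).re → v492 ≠ 0 → v527 ≠ 0 → 0 < (v290).re → v556 ≠ 0 → v688 ≠ 0 → v722 ≠ 0 → ‖v726‖ < 1 → ‖v742‖ < (3 / 8) → ‖v764‖ < (1 / 2) → ‖v770‖ < (1 / 4) → v247 ≠ 0 → ‖v553‖ < (1 / 2) → v792 ≠ 0 → ‖v796‖ < 1 → ‖v797 - v785‖ ≤ ‖v788‖) :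
    ‖v3‖ < (91625968981 / 1099511627776) ∧
    ‖v16‖ < (91625968981 / 1099511627776) ∧
    ‖v39‖ < 1 ∧
    ‖v58‖ < (1 / 4) ∧
    v99 ≠ 0 ∧
    v245 ≠ 0 ∧
    ‖v292‖ < 1 ∧
    ‖v308‖ < (3 / 8) ∧
    ‖v333‖ < (3 / 8) ∧
    ‖v353‖ < (3 / 8) ∧
    ‖v381‖ < (1 / 4) ∧
    ‖v393‖ < (1 / 4) ∧
    ‖v417‖ < (1 / 8) ∧
    ‖v429‖ < (91625968981 / 1099511627776) ∧
    ‖v450‖ < (3 / 8) ∧
    ‖v470‖ < (1 / 4) ∧
    0 < (v488).re ∧
    v492 ≠ 0 ∧
    v527 ≠ 0 ∧
    0 < (v290).re ∧
    v556 ≠ 0 ∧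
    v688 ≠ 0 ∧
    v722 ≠ 0 ∧
    ‖v726‖ < 1 ∧
    ‖v742‖ < (3 / 8) ∧
    ‖v764‖ < (1 / 2) ∧
    ‖v770‖ < (1 / 4) ∧
    v247 ≠ 0 ∧
    ‖v553‖ < (1 / 2) ∧
    v792 ≠ 0 ∧
    ‖v796‖ < 1 ∧
    ‖v797‖ < (4095 / 4096) := by
  have k0 : (1 : ℂ) = (Z.mk 1099511627776 0 0 0).val := spec_const 1099511627776 0 0 0 (by simp <;> norm_num)
  have k1 : (2 : ℂ) = (Z.mk 2199023255552 0 0 0).val := spec_const 2199023255552 0 0 0 (by simp <;> norm_num)
  have k2 : ((45812984491 / 1099511627776) : ℂ) = (Z.mk 45812984491 0 0 0).val := spec_const 45812984491 0 0 0 (by simp <;> norm_num)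
  have k3 : ((183251937963 / 1099511627776) : ℂ) = (Z.mk 183251937963 0 0 0).val := spec_const 183251937963 0 0 0 (by simp <;> norm_num)
  have k4 : ((1 / 2) : ℂ) = (Z.mk 549755813888 0 0 0).val := spec_const 549755813888 0 0 0 (by simp <;> norm_num)
  have k5 : (4 : ℂ) = (Z.mk 4398046511104 0 0 0).val := spec_const 4398046511104 0 0 0 (by simp <;> norm_num)
  have k6 : ((218157069 / 1099511627776) : ℂ) = (Z.mk 218157069 0 0 0).val := spec_const 218157069 0 0 0 (by simp <;> norm_num)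
  have k7 : ((1527099483 / 1099511627776) : ℂ) = (Z.mk 1527099483 0 0 0).val := spec_const 1527099483 0 0 0 (by simp <;> norm_num)
  have k8 : ((4581298449 / 549755813888) : ℂ) = (Z.mk 9162596898 0 0 0).val := spec_const 9162596898 0 0 0 (by simp <;> norm_num)
  have k9 : ((78536544841 / 549755813888) : ℂ) = (Z.mk 157073089682 0 0 0).val := spec_const 157073089682 0 0 0 (by simp <;> norm_num)
  have k10 : ((-183251937963 / 1099511627776) : ℂ) = (Z.mk 0 183251937963 0 0).val := spec_const 0 183251937963 0 0 (by simp <;> norm_num)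
  have k11 : ((219902325555 / 1099511627776) : ℂ) = (Z.mk 219902325555 0 0 0).val := spec_const 219902325555 0 0 0 (by simp <;> norm_num)
  have k12 : ((-1 / 4) : ℂ) = (Z.mk 0 274877906944 0 0).val := spec_const 0 274877906944 0 0 (by simp <;> norm_num)
  have k13 : ((366503875925 / 1099511627776) : ℂ) = (Z.mk 366503875925 0 0 0).val := spec_const 366503875925 0 0 0 (by simp <;> norm_num)
  have k14 : ((-1 / 2) : ℂ) = (Z.mk 0 549755813888 0 0).val := spec_const 0 549755813888 0 0 (by simp <;> norm_num)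
  have k15 : (1 * Complex.I : ℂ) = (Z.mk 0 0 1099511627776 0).val := spec_const 0 0 1099511627776 0 (by simp <;> norm_num)
  have k16 : ((83 / 16) : ℂ) = (Z.mk 5703716569088 0 0 0).val := spec_const 5703716569088 0 0 0 (by simp <;> norm_num)
  have k17 : ((201 / 128) : ℂ) = (Z.mk 1726576852992 0 0 0).val := spec_const 1726576852992 0 0 0 (by simp <;> norm_num)
  have k18 : ((3 / 8) : ℂ) = (Z.mk 412316860416 0 0 0).val := spec_const 412316860416 0 0 0 (by simp <;> norm_num)
  have k19 : ((61083979321 / 549755813888) : ℂ) = (Z.mk 122167958642 0 0 0).val := spec_const 122167958642 0 0 0 (by simp <;> norm_num)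
  have k20 : ((-1 / 8) : ℂ) = (Z.mk 0 137438953472 0 0).val := spec_const 0 137438953472 0 0 (by simp <;> norm_num)
  have s0 := h v0 (e0.trans k0)
  have s1 := s0 v1 (e1.trans (congrArg (· * x2) k1))
  have s2 := s1 v2 e2
  have s3 := s2 v3 e3
  have s4 := s3 v4 e4
  obtain ⟨q5, s5⟩ := s4
  have p5 : ‖v3‖ < (91625968981 / 1099511627776) := by
    refine q5.trans_eq ?_
    norm_num
  have s6 := s5 v5 (e6.trans k2)
  have s7 := s6 v6 e7
  have s8 := s7 v7 (e8.trans k3)
  have s9 := s8 v8 e9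
  have s10 := s9 v9 e10
  have s11 := s10 v10 (e11.trans k4)
  have s12 := s11 v11 e12
  have s13 := s12 v12 e13
  have s14 := s13 v13 (e14.trans k0)
  have s15 := s14 v14 e15
  have b16 : ‖v15 - v14‖ ≤ ((530244 : ℕ) : ℝ) / 2 ^ 40 := by
    refine (e16 p5).trans_eq ?_
    norm_num
  have s16 := s15 v15 b16
  have s17 := s16 v16 e17
  obtain ⟨q18, s18⟩ := s17
  have p18 : ‖v16‖ < (91625968981 / 1099511627776) := by
    refine q18.trans_eq ?_
    norm_num
  have s19 := s18 v17 e19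
  have s20 := s19 v18 e20
  have s21 := s20 v19 e21
  have s22 := s21 v20 e22
  have s23 := s22 v21 e23
  have s24 := s23 v22 e24
  have b25 : ‖v23 - v22‖ ≤ ((530244 : ℕ) : ℝ) / 2 ^ 40 := by
    refine (e25 p5 p18).trans_eq ?_
    norm_num
  have s25 := s24 v23 b25
  have s26 := s25 v24 e26
  have s27 := s26 v25 (e27.trans (congrArg (· * v24) k4))
  have s28 := s27 v26 e28
  have s29 := s28 v27 e29
  have s30 := s29 v28 (e30.trans (congrArg (· * v27) k4))
  have s31 := s30 v29 e31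
  have s32 := s31 v30 e32
  have s33 := s32 v31 e33
  have s34 := s33 v32 e34
  have s35 := s34 v33 (e35.trans (congrArg (· * v32) k5))
  have s36 := s35 v34 e36
  have s37 := s36 v35 (e37.trans (congrArg (· * v34) k1))
  have s38 := s37 v36 e38
  have s39 := s38 v37 (e39.trans (congrArg (· * v36) k4))
  have s40 := s39 v38 (e40.trans (congrArg (· * v2) k1))
  have s41 := s40 v39 e41
  obtain ⟨q42, s42⟩ := s41
  have p42 : ‖v39‖ < 1 := by
    refine q42.trans_eq ?_
    norm_num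
  have s43 := s42 v40 (e43.trans k6)
  have s44 := s43 v41 e44
  have s45 := s44 v42 (e45.trans k7)
  have s46 := s45 v43 e46
  have s47 := s46 v44 e47
  have s48 := s47 v45 (e48.trans k8)
  have s49 := s48 v46 e49
  have s50 := s49 v47 e50
  have s51 := s50 v48 e51
  have s52 := s51 v49 e52
  have s53 := s52 v50 e53
  have s54 := s53 v51 e54
  have s55 := s54 v52 e55
  have s56 := s55 v53 e56
  have s57 := s56 v54 e57
  have b58 : ‖v55 - v54‖ ≤ ((30678339 : ℕ) : ℝ) / 2 ^ 40 := by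
    refine (e58 p5 p18 p42).trans_eq ?_
    norm_num
  have s58 := s57 v55 b58
  have s59 := s58 v56 e59
  have s60 := s59 v57 e60
  have s61 := s60 v58 e61
  obtain ⟨q62, s62⟩ := s61
  have p62 : ‖v58‖ < (1 / 4) := by
    refine q62.trans_eq ?_
    norm_num
  have s63 := s62 v59 (e63.trans k9)
  have s64 := s63 v60 e64
  have s65 := s64 v61 (e65.trans k10)
  have s66 := s65 v62 e66
  have s67 := s66 v63 e67
  have s68 := s67 v64 (e68.trans k11)
  have s69 := s68 v65 e69
  have s70 := s69 v66 e70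
  have s71 := s70 v67 (e71.trans k12)
  have s72 := s71 v68 e72
  have s73 := s72 v69 e73
  have s74 := s73 v70 (e74.trans k13)
  have s75 := s74 v71 e75
  have s76 := s75 v72 e76
  have s77 := s76 v73 (e77.trans k14)
  have s78 := s77 v74 e78
  have s79 := s78 v75 e79
  have s80 := s79 v76 e80
  have b81 : ‖v77 - v76‖ ≤ ((11184812 : ℕ) : ℝ) / 2 ^ 40 := by
    refine (e81 p5 p18 p42 p62).trans_eq ?_
    norm_num
  have s81 := s80 v77 b81
  have s82 := s81 v78 e82
  have s83 := s82 v79 e83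
  have s84 := s83 v80 e84
  have s85 := s84 v81 e85
  have s86 := s85 v82 e86
  have s87 := s86 v83 (e87.trans (congrArg (· * v3) k1))
  have s88 := s87 v84 (e88.trans k15)
  have s89 := s88 v85 e89
  have s90 := s89 v86 e90
  have s91 := s90 v87 (e91.trans (congrArg (· * v86) k16))
  have s92 := s91 v88 (e92.trans k17)
  have s93 := s92 v89 e93
  have s94 := s93 v90 e94
  have s95 := s94 v91 (e95.trans (congrArg (· * v90) k1))
  have s96 := s95 v92 e96
  have s97 := s96 v93 e97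
  have s98 := s97 v94 (e98.trans (congrArg (· * v93) k18))
  have s99 := s98 v95 e99
  have s100 := s99 v96 e100
  have s101 := s100 v97 e101
  have s102 := s101 v98 (e102.trans (congrArg (· * v97) k4))
  have s103 := s102 v99 e103
  obtain ⟨n104, r104⟩ := s103
  have s104 := r104 v100 e104
  have s105 := s104 v101 e105
  have s106 := s105 v102 e106
  have s107 := s106 v103 e107
  have s108 := s107 v104 e108
  have s109 := s108 v105 e109
  have s110 := s109 v106 e110
  have s111 := s110 v107 e111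
  have s112 := s111 v108 e112
  have s113 := s112 v109 e113
  have s114 := s113 v110 e114
  have s115 := s114 v111 e115
  have s116 := s115 v112 e116
  have s117 := s116 v113 e117
  have s118 := s117 v114 e118
  have s119 := s118 v115 e119
  have s120 := s119 v116 e120
  have s121 := s120 v117 e121
  have s122 := s121 v118 e122
  have s123 := s122 v119 e123
  have s124 := s123 v120 e124
  have s125 := s124 v121 e125
  have s126 := s125 v122 e126
  have s127 := s126 v123 e127
  have s128 := s127 v124 e128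
  have s129 := s128 v125 e129
  have s130 := s129 v126 e130
  have s131 := s130 v127 e131
  have s132 := s131 v128 e132
  have s133 := s132 v129 e133
  have s134 := s133 v130 e134
  have s135 := s134 v131 e135
  have s136 := s135 v132 e136
  have s137 := s136 v133 e137
  have s138 := s137 v134 e138
  have s139 := s138 v135 e139
  have s140 := s139 v136 e140
  have s141 := s140 v137 e141
  have s142 := s141 v138 e142
  have s143 := s142 v139 e143
  have s144 := s143 v140 e144
  have s145 := s144 v141 e145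
  have s146 := s145 v142 e146
  have s147 := s146 v143 e147
  have s148 := s147 v144 e148
  have s149 := s148 v145 e149
  have s150 := s149 v146 e150
  have s151 := s150 v147 e151
  have s152 := s151 v148 e152
  have s153 := s152 v149 e153
  have s154 := s153 v150 e154
  have s155 := s154 v151 e155
  have s156 := s155 v152 e156
  have s157 := s156 v153 e157
  have s158 := s157 v154 e158
  have s159 := s158 v155 e159
  have s160 := s159 v156 e160
  have s161 := s160 v157 e161
  have s162 := s161 v158 e162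
  have s163 := s162 v159 e163
  have s164 := s163 v160 e164
  have s165 := s164 v161 e165
  have s166 := s165 v162 e166
  have s167 := s166 v163 e167
  have s168 := s167 v164 e168
  have s169 := s168 v165 e169
  have s170 := s169 v166 e170
  have s171 := s170 v167 e171
  have s172 := s171 v168 e172
  have s173 := s172 v169 e173
  have s174 := s173 v170 e174
  have s175 := s174 v171 e175
  have s176 := s175 v172 e176
  have s177 := s176 v173 e177
  have s178 := s177 v174 e178
  have s179 := s178 v175 e179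
  have s180 := s179 v176 e180
  have s181 := s180 v177 e181
  have s182 := s181 v178 e182
  have s183 := s182 v179 e183
  have s184 := s183 v180 e184
  have s185 := s184 v181 e185
  have s186 := s185 v182 e186
  have s187 := s186 v183 e187
  have s188 := s187 v184 e188
  have s189 := s188 v185 e189
  have s190 := s189 v186 e190
  have s191 := s190 v187 e191
  have s192 := s191 v188 e192
  have s193 := s192 v189 e193
  have s194 := s193 v190 e194
  have s195 := s194 v191 e195
  have s196 := s195 v192 e196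
  have s197 := s196 v193 e197
  have s198 := s197 v194 e198
  have s199 := s198 v195 e199
  have s200 := s199 v196 e200
  have s201 := s200 v197 e201
  have s202 := s201 v198 e202
  have s203 := s202 v199 e203
  have s204 := s203 v200 e204
  have s205 := s204 v201 e205
  have s206 := s205 v202 e206
  have s207 := s206 v203 e207
  have s208 := s207 v204 e208
  have s209 := s208 v205 e209
  have s210 := s209 v206 e210
  have s211 := s210 v207 e211
  have s212 := s211 v208 e212
  have s213 := s212 v209 e213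
  have s214 := s213 v210 e214
  have s215 := s214 v211 e215
  have s216 := s215 v212 e216
  have s217 := s216 v213 e217
  have s218 := s217 v214 e218
  have s219 := s218 v215 e219
  have s220 := s219 v216 e220
  have s221 := s220 v217 e221
  have s222 := s221 v218 e222
  have s223 := s222 v219 e223
  have s224 := s223 v220 e224
  have s225 := s224 v221 e225
  have s226 := s225 v222 e226
  have s227 := s226 v223 e227
  have s228 := s227 v224 (e228.trans (congrArg (· * v223) k5))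
  have s229 := s228 v225 e229
  have s230 := s229 v226 e230
  have s231 := s230 v227 e231
  have s232 := s231 v228 e232
  have s233 := s232 v229 e233
  have s234 := s233 v230 e234
  have s235 := s234 v231 e235
  have s236 := s235 v232 e236
  have s237 := s236 v233 e237
  have s238 := s237 v234 e238
  have s239 := s238 v235 e239
  have s240 := s239 v236 e240
  have s241 := s240 v237 e241
  have s242 := s241 v238 e242
  have s243 := s242 v239 e243
  have s244 := s243 v240 e244
  have s245 := s244 v241 e245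
  have s246 := s245 v242 e246
  have s247 := s246 v243 e247
  have s248 := s247 v244 e248
  have s249 := s248 v245 e249
  obtain ⟨n250, r250⟩ := s249
  have s250 := r250 v246 e250
  have s251 := s250 v247 e251
  have s252 := s251 v248 e252
  have s253 := s252 v249 e253
  have s254 := s253 v250 e254
  have s255 := s254 v251 e255
  have s256 := s255 v252 e256
  have s257 := s256 v253 e257
  have s258 := s257 v254 e258
  have s259 := s258 v255 e259
  have s260 := s259 v256 e260
  have s261 := s260 v257 e261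
  have s262 := s261 v258 e262
  have s263 := s262 v259 e263
  have s264 := s263 v260 e264
  have s265 := s264 v261 e265
  have s266 := s265 v262 e266
  have s267 := s266 v263 e267
  have s268 := s267 v264 e268
  have s269 := s268 v265 e269
  have s270 := s269 v266 e270
  have s271 := s270 v267 e271
  have s272 := s271 v268 e272
  have s273 := s272 v269 e273
  have s274 := s273 v270 e274
  have s275 := s274 v271 e275
  have s276 := s275 v272 e276
  have s277 := s276 v273 e277
  have s278 := s277 v274 e278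
  have s279 := s278 v275 e279
  have s280 := s279 v276 e280
  have s281 := s280 v277 e281
  have s282 := s281 v278 e282
  have s283 := s282 v279 e283
  have s284 := s283 v280 e284
  have s285 := s284 v281 e285
  have s286 := s285 v282 e286
  have s287 := s286 v283 e287
  have s288 := s287 v284 e288
  have s289 := s288 v285 e289
  have s290 := s289 v286 e290
  have s291 := s290 v287 e291
  have s292 := s291 v288 e292
  have s293 := s292 v289 e293
  have s294 := s293 v290 e294
  have s295 := s294 v291 e295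
  have s296 := s295 v292 e296
  obtain ⟨q297, s297⟩ := s296
  have p297 : ‖v292‖ < 1 := by
    refine q297.trans_eq ?_
    norm_num
  have s298 := s297 v293 e298
  have s299 := s298 v294 e299
  have s300 := s299 v295 e300
  have s301 := s300 v296 e301
  have s302 := s301 v297 e302
  have s303 := s302 v298 e303
  have s304 := s303 v299 e304
  have s305 := s304 v300 e305
  have s306 := s305 v301 e306
  have s307 := s306 v302 e307
  have s308 := s307 v303 e308
  have s309 := s308 v304 e309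
  have b310 : ‖v305 - v304‖ ≤ ((30678339 : ℕ) : ℝ) / 2 ^ 40 := by
    refine (e310 p5 p18 p42 p62 n104 n250 p297).trans_eq ?_
    norm_num
  have s310 := s309 v305 b310
  have s311 := s310 v306 e311
  have s312 := s311 v307 (e312.trans (congrArg (· * v306) k14))
  have s313 := s312 v308 e313
  have s314 := s313 v309 (e314.trans (congrArg (· * v308) k1))
  have s315 := s314 v310 e315
  obtain ⟨q316, s316⟩ := s315
  have p316 : ‖v308‖ < (3 / 8) := by
    refine q316.trans_eq ?_
    norm_num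
  have s317 := s316 v311 (e317.trans k19)
  have s318 := s317 v312 e318
  have s319 := s318 v313 (e319.trans k20)
  have s320 := s319 v314 e320
  have s321 := s320 v315 e321
  have s322 := s321 v316 e322
  have s323 := s322 v317 e323
  have s324 := s323 v318 e324
  have s325 := s324 v319 e325
  have s326 := s325 v320 e326
  have s327 := s326 v321 e327
  have s328 := s327 v322 e328
  have s329 := s328 v323 e329
  have s330 := s329 v324 e330
  have s331 := s330 v325 e331
  have s332 := s331 v326 e332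
  have s333 := s332 v327 e333
  have s334 := s333 v328 e334
  have b335 : ‖v329 - v328‖ ≤ ((25798904 : ℕ) : ℝ) / 2 ^ 40 := by
    refine (e335 p5 p18 p42 p62 n104 n250 p297 p316).trans_eq ?_
    norm_num
  have s335 := s334 v329 b335
  have s336 := s335 v330 e336
  have s337 := s336 v331 e337
  have s338 := s337 v332 e338
  have s339 := s338 v333 e339
  obtain ⟨q340, s340⟩ := s339
  have p340 : ‖v333‖ < (3 / 8) := by
    refine q340.trans_eq ?_
    norm_num
  have s341 := s340 v334 e341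
  have s342 := s341 v335 e342
  have s343 := s342 v336 e343
  have s344 := s343 v337 e344
  have s345 := s344 v338 e345
  have s346 := s345 v339 e346
  have s347 := s346 v340 e347
  have s348 := s347 v341 e348
  have s349 := s348 v342 e349
  have s350 := s349 v343 e350
  have s351 := s350 v344 e351
  have s352 := s351 v345 e352
  have s353 := s352 v346 e353
  have s354 := s353 v347 e354
  have s355 := s354 v348 e355
  have s356 := s355 v349 e356
  have b357 : ‖v350 - v349‖ ≤ ((25798904 : ℕ) : ℝ) / 2 ^ 40 := by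
    refine (e357 p5 p18 p42 p62 n104 n250 p297 p316 p340).trans_eq ?_
    norm_num
  have s357 := s356 v350 b357
  have s358 := s357 v351 e358
  have s359 := s358 v352 e359
  have s360 := s359 v353 e360
  obtain ⟨q361, s361⟩ := s360
  have p361 : ‖v353‖ < (3 / 8) := by
    refine q361.trans_eq ?_
    norm_num
  have s362 := s361 v354 e362
  have s363 := s362 v355 e363
  have s364 := s363 v356 e364
  have s365 := s364 v357 e365
  have s366 := s365 v358 e366
  have s367 := s366 v359 e367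
  have s368 := s367 v360 e368
  have s369 := s368 v361 e369
  have s370 := s369 v362 e370
  have s371 := s370 v363 e371
  have s372 := s371 v364 e372
  have s373 := s372 v365 e373
  have s374 := s373 v366 e374
  have s375 := s374 v367 e375
  have s376 := s375 v368 e376
  have s377 := s376 v369 e377
  have b378 : ‖v370 - v369‖ ≤ ((25798904 : ℕ) : ℝ) / 2 ^ 40 := by
    refine (e378 p5 p18 p42 p62 n104 n250 p297 p316 p340 p361).trans_eq ?_
    norm_num
  have s378 := s377 v370 b378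
  have s379 := s378 v371 e379
  have s380 := s379 v372 e380
  have s381 := s380 v373 e381
  have s382 := s381 v374 e382
  have s383 := s382 v375 e383
  have s384 := s383 v376 e384
  have s385 := s384 v377 e385
  have s386 := s385 v378 e386
  have s387 := s386 v379 e387
  have s388 := s387 v380 e388
  have s389 := s388 v381 e389
  obtain ⟨q390, s390⟩ := s389
  have p390 : ‖v381‖ < (1 / 4) := by
    refine q390.trans_eq ?_
    norm_num
  have s391 := s390 v382 e391
  have s392 := s391 v383 e392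
  have s393 := s392 v384 e393
  have s394 := s393 v385 e394
  have s395 := s394 v386 e395
  have s396 := s395 v387 e396
  have b397 : ‖v388 - v387‖ ≤ ((42949674 : ℕ) : ℝ) / 2 ^ 40 := by
    refine (e397 p5 p18 p42 p62 n104 n250 p297 p316 p340 p361 p390).trans_eq ?_
    norm_num
  have s397 := s396 v388 b397
  have s398 := s397 v389 e398
  have s399 := s398 v390 e399
  have s400 := s399 v391 e400
  have s401 := s400 v392 e401
  have s402 := s401 v393 e402
  obtain ⟨q403, s403⟩ := s402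
  have p403 : ‖v393‖ < (1 / 4) := by
    refine q403.trans_eq ?_
    norm_num
  have s404 := s403 v394 e404
  have s405 := s404 v395 e405
  have s406 := s405 v396 e406
  have s407 := s406 v397 e407
  have s408 := s407 v398 e408
  have s409 := s408 v399 e409
  have b410 : ‖v400 - v399‖ ≤ ((42949674 : ℕ) : ℝ) / 2 ^ 40 := by
    refine (e410 p5 p18 p42 p62 n104 n250 p297 p316 p340 p361 p390 p403).trans_eq ?_
    norm_num
  have s410 := s409 v400 b410
  have s411 := s410 v401 e411
  have s412 := s411 v402 e412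
  have s413 := s412 v403 e413
  have s414 := s413 v404 e414
  have s415 := s414 v405 e415
  have s416 := s415 v406 e416
  have s417 := s416 v407 e417
  have s418 := s417 v408 e418
  have s419 := s418 v409 e419
  have s420 := s419 v410 e420
  have s421 := s420 v411 e421
  have s422 := s421 v412 e422
  have s423 := s422 v413 e423
  have s424 := s423 v414 e424
  have s425 := s424 v415 e425
  have s426 := s425 v416 e426
  have s427 := s426 v417 e427
  obtain ⟨q428, s428⟩ := s427
  have p428 : ‖v417‖ < (1 / 8) := by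
    refine q428.trans_eq ?_
    norm_num
  have s429 := s428 v418 e429
  have s430 := s429 v419 e430
  have s431 := s430 v420 e431
  have s432 := s431 v421 e432
  have s433 := s432 v422 e433
  have s434 := s433 v423 e434
  have s435 := s434 v424 e435
  have s436 := s435 v425 e436
  have b437 : ‖v426 - v425‖ ≤ ((6391321 : ℕ) : ℝ) / 2 ^ 40 := by
    refine (e437 p5 p18 p42 p62 n104 n250 p297 p316 p340 p361 p390 p403 p428).trans_eq ?_
    norm_num
  have s437 := s436 v426 b437
  have s438 := s437 v427 e438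
  have s439 := s438 v428 (e439.trans (congrArg (· * v427) k14))
  have s440 := s439 v429 e440
  obtain ⟨q441, s441⟩ := s440
  have p441 : ‖v429‖ < (91625968981 / 1099511627776) := by
    refine q441.trans_eq ?_
    norm_num
  have s442 := s441 v430 e442
  have s443 := s442 v431 e443
  have s444 := s443 v432 e444
  have s445 := s444 v433 e445
  have s446 := s445 v434 e446
  have s447 := s446 v435 e447
  have b448 : ‖v436 - v435‖ ≤ ((530244 : ℕ) : ℝ) / 2 ^ 40 := by
    refine (e448 p5 p18 p42 p62 n104 n250 p297 p316 p340 p361 p390 p403 p428 p441).trans_eq ?_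
    norm_num
  have s448 := s447 v436 b448
  have s449 := s448 v437 e449
  have s450 := s449 v438 e450
  have s451 := s450 v439 e451
  have s452 := s451 v440 e452
  have s453 := s452 v441 e453
  have s454 := s453 v442 e454
  have s455 := s454 v443 (e455.trans (congrArg (· * v442) k1))
  have s456 := s455 v444 e456
  have s457 := s456 v445 e457
  have s458 := s457 v446 e458
  have s459 := s458 v447 e459
  have s460 := s459 v448 (e460.trans (congrArg (· * v447) k1))
  have s461 := s460 v449 e461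
  have s462 := s461 v450 e462
  obtain ⟨q463, s463⟩ := s462
  have p463 : ‖v450‖ < (3 / 8) := by
    refine q463.trans_eq ?_
    norm_num
  have s464 := s463 v451 e464
  have s465 := s464 v452 e465
  have s466 := s465 v453 e466
  have s467 := s466 v454 e467
  have s468 := s467 v455 e468
  have s469 := s468 v456 e469
  have s470 := s469 v457 e470
  have s471 := s470 v458 e471
  have s472 := s471 v459 e472
  have s473 := s472 v460 e473
  have s474 := s473 v461 e474
  have s475 := s474 v462 e475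
  have s476 := s475 v463 e476
  have s477 := s476 v464 e477
  have s478 := s477 v465 e478
  have s479 := s478 v466 e479
  have b480 : ‖v467 - v466‖ ≤ ((25798904 : ℕ) : ℝ) / 2 ^ 40 := by
    refine (e480 p5 p18 p42 p62 n104 n250 p297 p316 p340 p361 p390 p403 p428 p441 p463).trans_eq ?_
    norm_num
  have s480 := s479 v467 b480
  have s481 := s480 v468 e481
  have s482 := s481 v469 e482
  have s483 := s482 v470 (e483.trans (congrArg (· * v469) k4))
  obtain ⟨q484, s484⟩ := s483
  have p484 : ‖v470‖ < (1 / 4) := by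
    refine q484.trans_eq ?_
    norm_num
  have s485 := s484 v471 e485
  have s486 := s485 v472 e486
  have s487 := s486 v473 e487
  have s488 := s487 v474 e488
  have s489 := s488 v475 e489
  have s490 := s489 v476 e490
  have b491 : ‖v477 - v476‖ ≤ ((42949674 : ℕ) : ℝ) / 2 ^ 40 := by
    refine (e491 p5 p18 p42 p62 n104 n250 p297 p316 p340 p361 p390 p403 p428 p441 p463 p484).trans_eq ?_
    norm_num
  have s491 := s490 v477 b491
  have s492 := s491 v478 e492
  have s493 := s492 v479 (e493.trans (congrArg (· * v413) k1))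
  have s494 := s493 v480 e494
  have s495 := s494 v481 e495
  have s496 := s495 v482 e496
  have s497 := s496 v483 e497
  have s498 := s497 v484 e498
  have s499 := s498 v485 e499
  have s500 := s499 v486 e500
  have s501 := s500 v487 (e501.trans (congrArg (· * v486) k1))
  have s502 := s501 v488 e502
  obtain ⟨p503, s503⟩ := s502
  have s504 := s503 v489 e504
  have s505 := s504 v490 e505
  have s506 := s505 v491 e506
  have s507 := s506 v492 e507
  obtain ⟨n508, r508⟩ := s507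
  have s508 := r508 v493 e508
  have s509 := s508 v494 e509
  have s510 := s509 v495 (e510.trans (congrArg (· * v37) k1))
  have s511 := s510 v496 e511
  have s512 := s511 v497 e512
  have s513 := s512 v498 (e513.trans (congrArg (· * v497) k4))
  have s514 := s513 v499 e514
  have s515 := s514 v500 e515
  have s516 := s515 v501 e516
  have s517 := s516 v502 e517
  have s518 := s517 v503 e518
  have s519 := s518 v504 e519
  have s520 := s519 v505 (e520.trans (congrArg (· * v504) k1))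
  have s521 := s520 v506 e521
  have s522 := s521 v507 (e522.trans (congrArg (· * v506) k1))
  have s523 := s522 v508 e523
  have s524 := s523 v509 e524
  have s525 := s524 v510 e525
  have s526 := s525 v511 e526
  have s527 := s526 v512 e527
  have s528 := s527 v513 (e528.trans (congrArg (· * v410) k1))
  have s529 := s528 v514 e529
  have s530 := s529 v515 e530
  have s531 := s530 v516 (e531.trans (congrArg (· * v515) k1))
  have s532 := s531 v517 (e532.trans k1)
  have s533 := s532 v518 e533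
  have s534 := s533 v519 e534
  have s535 := s534 v520 e535
  have s536 := s535 v521 e536
  have s537 := s536 v522 e537
  have s538 := s537 v523 e538
  have s539 := s538 v524 e539
  have s540 := s539 v525 e540
  have s541 := s540 v526 e541
  have s542 := s541 v527 e542
  obtain ⟨n543, r543⟩ := s542
  have s543 := r543 v528 e543
  have s544 := s543 v529 e544
  have s545 := s544 v530 e545
  have s546 := s545 v531 e546
  have s547 := s546 v532 e547
  have s548 := s547 v533 e548
  have s549 := s548 v534 e549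
  have s550 := s549 v535 e550
  have s551 := s550 v536 e551
  have s552 := s551 v537 e552
  have s553 := s552 v538 e553
  have s554 := s553 v539 e554
  have s555 := s554 v540 e555
  have s556 := s555 v541 e556
  have s557 := s556 v542 e557
  have s558 := s557 v543 e558
  have s559 := s558 v544 e559
  have s560 := s559 v545 e560
  have s561 := s560 v546 e561
  have s562 := s561 v547 e562
  have s563 := s562 v548 e563
  have s564 := s563 v549 e564
  have s565 := s564 v550 e565
  have s566 := s565 v551 e566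
  have s567 := s566 v552 e567
  have s568 := s567 v553 e568
  obtain ⟨p569, s569⟩ := s568
  have s570 := s569 v554 e570
  have s571 := s570 v555 e571
  have s572 := s571 v556 e572
  obtain ⟨n573, r573⟩ := s572
  have s573 := r573 v557 e573
  have s574 := s573 v558 e574
  have s575 := s574 v559 e575
  have s576 := s575 v560 e576
  have s577 := s576 v561 e577
  have s578 := s577 v562 e578
  have s579 := s578 v563 e579
  have s580 := s579 v564 e580
  have s581 := s580 v565 e581
  have s582 := s581 v566 e582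
  have s583 := s582 v567 e583
  have s584 := s583 v568 e584
  have s585 := s584 v569 e585
  have s586 := s585 v570 e586
  have s587 := s586 v571 e587
  have s588 := s587 v572 e588
  have s589 := s588 v573 e589
  have s590 := s589 v574 e590
  have s591 := s590 v575 e591
  have s592 := s591 v576 e592
  have s593 := s592 v577 e593
  have s594 := s593 v578 e594
  have s595 := s594 v579 e595
  have s596 := s595 v580 e596
  have s597 := s596 v581 e597
  have s598 := s597 v582 e598
  have s599 := s598 v583 e599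
  have s600 := s599 v584 e600
  have s601 := s600 v585 e601
  have s602 := s601 v586 e602
  have s603 := s602 v587 e603
  have s604 := s603 v588 e604
  have s605 := s604 v589 e605
  have s606 := s605 v590 e606
  have s607 := s606 v591 e607
  have s608 := s607 v592 e608
  have s609 := s608 v593 e609
  have s610 := s609 v594 e610
  have s611 := s610 v595 e611
  have s612 := s611 v596 e612
  have s613 := s612 v597 e613
  have s614 := s613 v598 e614
  have s615 := s614 v599 e615
  have s616 := s615 v600 e616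
  have s617 := s616 v601 e617
  have s618 := s617 v602 e618
  have s619 := s618 v603 e619
  have s620 := s619 v604 e620
  have s621 := s620 v605 e621
  have s622 := s621 v606 e622
  have s623 := s622 v607 e623
  have s624 := s623 v608 e624
  have s625 := s624 v609 e625
  have s626 := s625 v610 e626
  have s627 := s626 v611 e627
  have s628 := s627 v612 e628
  have s629 := s628 v613 e629
  have s630 := s629 v614 e630
  have s631 := s630 v615 e631
  have s632 := s631 v616 e632
  have s633 := s632 v617 e633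
  have s634 := s633 v618 e634
  have s635 := s634 v619 e635
  have s636 := s635 v620 e636
  have s637 := s636 v621 e637
  have s638 := s637 v622 e638
  have s639 := s638 v623 e639
  have s640 := s639 v624 e640
  have s641 := s640 v625 e641
  have s642 := s641 v626 e642
  have s643 := s642 v627 e643
  have s644 := s643 v628 e644
  have s645 := s644 v629 e645
  have s646 := s645 v630 e646
  have s647 := s646 v631 e647
  have s648 := s647 v632 e648
  have s649 := s648 v633 e649
  have s650 := s649 v634 e650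
  have s651 := s650 v635 e651
  have s652 := s651 v636 e652
  have s653 := s652 v637 e653
  have s654 := s653 v638 e654
  have s655 := s654 v639 e655
  have s656 := s655 v640 e656
  have s657 := s656 v641 e657
  have s658 := s657 v642 e658
  have s659 := s658 v643 e659
  have s660 := s659 v644 e660
  have s661 := s660 v645 e661
  have s662 := s661 v646 e662
  have s663 := s662 v647 e663
  have s664 := s663 v648 e664
  have s665 := s664 v649 e665
  have s666 := s665 v650 e666
  have s667 := s666 v651 e667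
  have s668 := s667 v652 e668
  have s669 := s668 v653 e669
  have s670 := s669 v654 e670
  have s671 := s670 v655 e671
  have s672 := s671 v656 e672
  have s673 := s672 v657 e673
  have s674 := s673 v658 e674
  have s675 := s674 v659 e675
  have s676 := s675 v660 e676
  have s677 := s676 v661 e677
  have s678 := s677 v662 e678
  have s679 := s678 v663 e679
  have s680 := s679 v664 e680
  have s681 := s680 v665 e681
  have s682 := s681 v666 e682
  have s683 := s682 v667 e683
  have s684 := s683 v668 e684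
  have s685 := s684 v669 e685
  have s686 := s685 v670 e686
  have s687 := s686 v671 e687
  have s688 := s687 v672 e688
  have s689 := s688 v673 e689
  have s690 := s689 v674 e690
  have s691 := s690 v675 e691
  have s692 := s691 v676 e692
  have s693 := s692 v677 e693
  have s694 := s693 v678 e694
  have s695 := s694 v679 e695
  have s696 := s695 v680 e696
  have s697 := s696 v681 e697
  have s698 := s697 v682 e698
  have s699 := s698 v683 e699
  have s700 := s699 v684 e700
  have s701 := s700 v685 e701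
  have s702 := s701 v686 e702
  have s703 := s702 v687 e703
  have s704 := s703 v688 e704
  obtain ⟨n705, r705⟩ := s704
  have s705 := r705 v689 e705
  have s706 := s705 v690 e706
  have s707 := s706 v691 e707
  have s708 := s707 v692 (e708.trans (congrArg (· * v1) k1))
  have s709 := s708 v693 e709
  have s710 := s709 v694 e710
  have s711 := s710 v695 e711
  have s712 := s711 v696 e712
  have s713 := s712 v697 e713
  have s714 := s713 v698 e714
  have s715 := s714 v699 e715
  have s716 := s715 v700 e716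
  have s717 := s716 v701 e717
  have s718 := s717 v702 e718
  have s719 := s718 v703 e719
  have s720 := s719 v704 e720
  have s721 := s720 v705 e721
  have s722 := s721 v706 e722
  have s723 := s722 v707 e723
  have s724 := s723 v708 e724
  have s725 := s724 v709 e725
  have s726 := s725 v710 e726
  have s727 := s726 v711 e727
  have s728 := s727 v712 e728
  have s729 := s728 v713 e729
  have s730 := s729 v714 e730
  have s731 := s730 v715 e731
  have s732 := s731 v716 e732
  have s733 := s732 v717 (e733.trans (congrArg (· * v716) k1))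
  have s734 := s733 v718 e734
  have s735 := s734 v719 e735
  have s736 := s735 v720 e736
  have s737 := s736 v721 e737
  have s738 := s737 v722 e738
  obtain ⟨n739, r739⟩ := s738
  have s739 := r739 v723 e739
  have s740 := s739 v724 e740
  have s741 := s740 v725 e741
  have s742 := s741 v726 e742
  obtain ⟨q743, s743⟩ := s742
  have p743 : ‖v726‖ < 1 := by
    refine q743.trans_eq ?_
    norm_num
  have s744 := s743 v727 e744
  have s745 := s744 v728 e745
  have s746 := s745 v729 e746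
  have s747 := s746 v730 e747
  have s748 := s747 v731 e748
  have s749 := s748 v732 e749
  have s750 := s749 v733 e750
  have s751 := s750 v734 e751
  have s752 := s751 v735 e752
  have s753 := s752 v736 e753
  have s754 := s753 v737 e754
  have s755 := s754 v738 e755
  have b756 : ‖v739 - v738‖ ≤ ((30678339 : ℕ) : ℝ) / 2 ^ 40 := by
    refine (e756 p5 p18 p42 p62 n104 n250 p297 p316 p340 p361 p390 p403 p428 p441 p463 p484 p503 n508 n543 p569 n573 n705 n739 p743).trans_eq ?_
    norm_num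
  have s756 := s755 v739 b756
  have s757 := s756 v740 e757
  have s758 := s757 v741 (e758.trans (congrArg (· * v740) k14))
  have s759 := s758 v742 e759
  have s760 := s759 v743 (e760.trans (congrArg (· * v742) k1))
  have s761 := s760 v744 e761
  obtain ⟨q762, s762⟩ := s761
  have p762 : ‖v742‖ < (3 / 8) := by
    refine q762.trans_eq ?_
    norm_num
  have s763 := s762 v745 e763
  have s764 := s763 v746 e764
  have s765 := s764 v747 e765
  have s766 := s765 v748 e766
  have s767 := s766 v749 e767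
  have s768 := s767 v750 e768
  have s769 := s768 v751 e769
  have s770 := s769 v752 e770
  have s771 := s770 v753 e771
  have s772 := s771 v754 e772
  have s773 := s772 v755 e773
  have s774 := s773 v756 e774
  have s775 := s774 v757 e775
  have s776 := s775 v758 e776
  have s777 := s776 v759 e777
  have s778 := s777 v760 e778
  have b779 : ‖v761 - v760‖ ≤ ((25798904 : ℕ) : ℝ) / 2 ^ 40 := by
    refine (e779 p5 p18 p42 p62 n104 n250 p297 p316 p340 p361 p390 p403 p428 p441 p463 p484 p503 n508 n543 p569 n573 n705 n739 p743 p762).trans_eq ?_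
    norm_num
  have s779 := s778 v761 b779
  have s780 := s779 v762 e780
  have s781 := s780 v763 e781
  have s782 := s781 v764 e782
  obtain ⟨q783, s783⟩ := s782
  have p783 : ‖v764‖ < (1 / 2) := by
    refine q783.trans_eq ?_
    norm_num
  have s784 := s783 v765 (e784.trans (congrArg (· * v468) k4))
  have s785 := s784 v766 e785
  have s786 := s785 v767 e786
  have s787 := s786 v768 e787
  have s788 := s787 v769 e788
  have s789 := s788 v770 e789
  obtain ⟨q790, s790⟩ := s789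
  have p790 : ‖v770‖ < (1 / 4) := by
    refine q790.trans_eq ?_
    norm_num
  have s791 := s790 v771 e791
  have s792 := s791 v772 e792
  have s793 := s792 v773 e793
  have s794 := s793 v774 e794
  have s795 := s794 v775 e795
  have s796 := s795 v776 e796
  have b797 : ‖v777 - v776‖ ≤ ((42949674 : ℕ) : ℝ) / 2 ^ 40 := by
    refine (e797 p5 p18 p42 p62 n104 n250 p297 p316 p340 p361 p390 p403 p428 p441 p463 p484 p503 n508 n543 p569 n573 n705 n739 p743 p762 p783 p790).trans_eq ?_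
    norm_num
  have s797 := s796 v777 b797
  have s798 := s797 v778 e798
  have s799 := s798 v779 e799
  obtain ⟨n800, r800⟩ := s799
  have s800 := r800 v780 e800
  have s801 := s800 v781 e801
  have s802 := s801 v782 e802
  have s803 := s802 v783 e803
  have s804 := s803 v784 e804
  have s805 := s804 v785 e805
  have s806 := s805 v786 e806
  have s807 := s806 v787 e807
  have s808 := s807 v788 e808
  obtain ⟨q809, s809⟩ := s808
  have p809 : ‖v553‖ < (1 / 2) := by
    refine q809.trans_eq ?_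
    norm_num
  have s810 := s809 v789 e810
  have s811 := s810 v790 e811
  have s812 := s811 v791 e812
  have s813 := s812 v792 e813
  have s814 := s813 v793 e814
  have s815 := s814 v794 (e815.trans (congrArg (· * v793) k1))
  obtain ⟨n816, r816⟩ := s815
  have s816 := r816 v795 e816
  have s817 := s816 v796 e817
  obtain ⟨q818, s818⟩ := s817
  have p818 : ‖v796‖ < 1 := by
    refine q818.trans_eq ?_
    norm_num
  have s819 := s818 v797 (e819 p5 p18 p42 p62 n104 n250 p297 p316 p340 p361 p390 p403 p428 p441 p463 p484 p503 n508 n543 p569 n573 n705 n739 p743 p762 p783 p790 n800 p809 n816 p818)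
  obtain ⟨q820, s820⟩ := s819
  have p820 : ‖v797‖ < (4095 / 4096) := by
    refine q820.trans_eq ?_
    norm_num
  exact ⟨p5, p18, p42, p62, n104, n250, p297, p316, p340, p361, p390, p403, p428, p441, p463, p484, p503, n508, n543, p569, n573, n705, n739, p743, p762, p783, p790, n800, p809, n816, p818, p820⟩

theorem mac0 {p : Pm} (hpw : (p.wi).val ≠ 0) {x0 x1 x2 x3 w : ℂ} (h : Pool.Agent.helper31.IX.Asserts (prog0 p) [x0, x1, x2, x3])
    (hr797 : ‖w - (ptF1 (GQ p).nf0 (GQ p).nf (b0A x0 x1 x2) (1 : ℂ) x3).A‖ ≤ ‖(ptF1 (GQ p).nf0 (GQ p).nf (b0A x0 x1 x2) (1 : ℂ) x3).G‖) :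
    ‖(b0A x0 x1 x2).z‖ < (91625968981 / 1099511627776) ∧
    ‖(-(b0A x0 x1 x2).z)‖ < (91625968981 / 1099511627776) ∧
    ‖(-((2 : ℂ) * (b0A x0 x1 x2).b))‖ < 1 ∧
    ‖((b0A x0 x1 x2).s * (b0A x0 x1 x2).wb)‖ < (1 / 4) ∧
    ((((1 / 2) : ℂ) * ((b0A x0 x1 x2).s * ((1 * Complex.I : ℂ) * (1 : ℂ)))) + (1 : ℂ)) ≠ 0 ∧
    (((GQ p).c0 * ((b0A x0 x1 x2).s * (Tb.u0n (b0A x0 x1 x2) (1 : ℂ)))) + (1 : ℂ)) ≠ 0 ∧
    ‖(-((b0A x0 x1 x2).s * (ptF (GQ p).nf0 (b0A x0 x1 x2) (1 : ℂ) x3).c.L))‖ < 1 ∧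
    ‖((b0A x0 x1 x2).s * (ptF (GQ p).nf0 (b0A x0 x1 x2) (1 : ℂ) x3).c.wl)‖ < (3 / 8) ∧
    ‖((b0A x0 x1 x2).s * (ptF (GQ p).nf0 (b0A x0 x1 x2) (1 : ℂ) x3).c.ER)‖ < (3 / 8) ∧
    ‖(-((b0A x0 x1 x2).s * (ptF (GQ p).nf0 (b0A x0 x1 x2) (1 : ℂ) x3).c.Rx))‖ < (3 / 8) ∧
    ‖(ptF (GQ p).nf0 (b0A x0 x1 x2) (1 : ℂ) x3).a1‖ < (1 / 4) ∧
    ‖(-(ptF (GQ p).nf0 (b0A x0 x1 x2) (1 : ℂ) x3).c.x3)‖ < (1 / 4) ∧
    ‖(-(ptF (GQ p).nf0 (b0A x0 x1 x2) (1 : ℂ) x3).q)‖ < (1 / 8) ∧
    ‖((b0A x0 x1 x2).se * (ptF (GQ p).nf0 (b0A x0 x1 x2) (1 : ℂ) x3).lq)‖ < (91625968981 / 1099511627776) ∧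
    ‖(ptF (GQ p).nf0 (b0A x0 x1 x2) (1 : ℂ) x3).Sm‖ < (3 / 8) ∧
    ‖(ptF (GQ p).nf0 (b0A x0 x1 x2) (1 : ℂ) x3).hs‖ < (1 / 4) ∧
    0 < ((ptF (GQ p).nf0 (b0A x0 x1 x2) (1 : ℂ) x3).SH).re ∧
    (((b0A x0 x1 x2).se * (ptF (GQ p).nf0 (b0A x0 x1 x2) (1 : ℂ) x3).q0) + (1 : ℂ)) ≠ 0 ∧
    ((ptF (GQ p).nf0 (b0A x0 x1 x2) (1 : ℂ) x3).Qp + (((b0A x0 x1 x2).se * (ptF (GQ p).nf0 (b0A x0 x1 x2) (1 : ℂ) x3).e1) + (2 : ℂ))) ≠ 0 ∧
    0 < ((ptF1 (GQ p).nf0 (GQ p).nf (b0A x0 x1 x2) (1 : ℂ) x3).M).re ∧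
    (((b0A x0 x1 x2).se * ((b0A x0 x1 x2).gs + (ptF (GQ p).nf0 (b0A x0 x1 x2) (1 : ℂ) x3).Un)) + (1 : ℂ)) ≠ 0 ∧
    ((((Tb.yn (b0A x0 x1 x2) (ptF (GQ p).nf0 (b0A x0 x1 x2) (1 : ℂ) x3).Un) - (((p.w1).val * (Tb.deb (GQ p) (b0A x0 x1 x2))) + (p.wr).val)) * ((Tb.yn (b0A x0 x1 x2) (ptF (GQ p).nf0 (b0A x0 x1 x2) (1 : ℂ) x3).Un) - (((p.w1).val * (Tb.deb (GQ p) (b0A x0 x1 x2))) + (p.wr).val))) + ((p.wi).val * (p.wi).val)) ≠ 0 ∧
    ((((GQ p).c 0) * ((b0A x0 x1 x2).s * (ptF (GQ p).nf0 (b0A x0 x1 x2) (1 : ℂ) x3).Un)) + (1 : ℂ)) ≠ 0 ∧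
    ‖(-((b0A x0 x1 x2).s * (ptF1 (GQ p).nf0 (GQ p).nf (b0A x0 x1 x2) (1 : ℂ) x3).Ln))‖ < 1 ∧
    ‖((b0A x0 x1 x2).s * (ptF1 (GQ p).nf0 (GQ p).nf (b0A x0 x1 x2) (1 : ℂ) x3).wln)‖ < (3 / 8) ∧
    ‖((b0A x0 x1 x2).s * (ptF1 (GQ p).nf0 (GQ p).nf (b0A x0 x1 x2) (1 : ℂ) x3).ERn)‖ < (1 / 2) ∧
    ‖(ptF1 (GQ p).nf0 (GQ p).nf (b0A x0 x1 x2) (1 : ℂ) x3).sz‖ < (1 / 4) ∧
    (ptF (GQ p).nf0 (b0A x0 x1 x2) (1 : ℂ) x3).c.R ≠ 0 ∧
    ‖((b0A x0 x1 x2).s * (ptF (GQ p).nf0 (b0A x0 x1 x2) (1 : ℂ) x3).Un)‖ < (1 / 2) ∧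
    (fG (ptF (GQ p).nf0 (b0A x0 x1 x2) (1 : ℂ) x3) (Tb.tkb (GQ p) (tl p) (p.tj).val (b0A x0 x1 x2))).KK ≠ 0 ∧
    ‖(fG (ptF (GQ p).nf0 (b0A x0 x1 x2) (1 : ℂ) x3) (Tb.tkb (GQ p) (tl p) (p.tj).val (b0A x0 x1 x2))).dq‖ < 1 ∧
    ‖w‖ < (4095 / 4096) :=
  prog0_spec h (v0 := (1 : ℂ))
    (v1 := (b0A x0 x1 x2).B)
    (v2 := (b0A x0 x1 x2).b)
    (v3 := (b0A x0 x1 x2).z)
    (v4 := (b0A x0 x1 x2).se)
    (v15 := (E1F (b0A x0 x1 x2).z))
    (v23 := (E1F (-(b0A x0 x1 x2).z)))
    (v25 := (b0A x0 x1 x2).sg)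
    (v29 := (b0A x0 x1 x2).ch)
    (v30 := (b0A x0 x1 x2).kh)
    (v33 := (b0A x0 x1 x2).Z4)
    (v35 := (b0A x0 x1 x2).K)
    (v37 := (b0A x0 x1 x2).gs)
    (v55 := (E1F (-((2 : ℂ) * (b0A x0 x1 x2).b))))
    (v57 := (b0A x0 x1 x2).wb)
    (v77 := (LmF ((b0A x0 x1 x2).s * (b0A x0 x1 x2).wb)))
    (v78 := (b0A x0 x1 x2).lb)
    (v79 := (GQ p).ec)
    (v80 := (GQ p).bc)
    (v81 := (Tb.deb (GQ p) (b0A x0 x1 x2)))
    (v82 := (Tb.dbb (GQ p) (b0A x0 x1 x2)))
    (v89 := (Tb.gf (b0A x0 x1 x2)))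
    (v96 := (ptF (GQ p).nf0 (b0A x0 x1 x2) (1 : ℂ) x3).W)
    (v101 := (Tab.Ph (b0A x0 x1 x2) (1 : ℂ)))
    (v221 := (ptF (GQ p).nf0 (b0A x0 x1 x2) (1 : ℂ) x3).c.L)
    (v224 := (Tb.u0n (b0A x0 x1 x2) (1 : ℂ)))
    (v240 := (Tb.an0b (GQ p) (b0A x0 x1 x2)))
    (v241 := (GQ p).c0)
    (v247 := (ptF (GQ p).nf0 (b0A x0 x1 x2) (1 : ℂ) x3).c.R)
    (v290 := (ptF1 (GQ p).nf0 (GQ p).nf (b0A x0 x1 x2) (1 : ℂ) x3).M)
    (v305 := (E1F (-((b0A x0 x1 x2).s * (ptF (GQ p).nf0 (b0A x0 x1 x2) (1 : ℂ) x3).c.L))))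
    (v307 := (ptF (GQ p).nf0 (b0A x0 x1 x2) (1 : ℂ) x3).c.wl)
    (v310 := (ptF (GQ p).nf0 (b0A x0 x1 x2) (1 : ℂ) x3).c.E)
    (v329 := (LmF ((b0A x0 x1 x2).s * (ptF (GQ p).nf0 (b0A x0 x1 x2) (1 : ℂ) x3).c.wl)))
    (v330 := (ptF (GQ p).nf0 (b0A x0 x1 x2) (1 : ℂ) x3).c.lam)
    (v331 := (ptF (GQ p).nf0 (b0A x0 x1 x2) (1 : ℂ) x3).c.Rx)
    (v332 := (ptF (GQ p).nf0 (b0A x0 x1 x2) (1 : ℂ) x3).c.ER)
    (v350 := (LmF ((b0A x0 x1 x2).s * (ptF (GQ p).nf0 (b0A x0 x1 x2) (1 : ℂ) x3).c.ER)))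
    (v351 := (ptF (GQ p).nf0 (b0A x0 x1 x2) (1 : ℂ) x3).c.l1)
    (v370 := (LmF (-((b0A x0 x1 x2).s * (ptF (GQ p).nf0 (b0A x0 x1 x2) (1 : ℂ) x3).c.Rx))))
    (v372 := (ptF (GQ p).nf0 (b0A x0 x1 x2) (1 : ℂ) x3).c.l2)
    (v374 := (ptF (GQ p).nf0 (b0A x0 x1 x2) (1 : ℂ) x3).c.Lam)
    (v378 := (ptF (GQ p).nf0 (b0A x0 x1 x2) (1 : ℂ) x3).c.g1)
    (v379 := (ptF (GQ p).nf0 (b0A x0 x1 x2) (1 : ℂ) x3).c.x3)
    (v381 := (ptF (GQ p).nf0 (b0A x0 x1 x2) (1 : ℂ) x3).a1)
    (v388 := (E1F (ptF (GQ p).nf0 (b0A x0 x1 x2) (1 : ℂ) x3).a1))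
    (v390 := (ptF (GQ p).nf0 (b0A x0 x1 x2) (1 : ℂ) x3).am)
    (v392 := (ptF (GQ p).nf0 (b0A x0 x1 x2) (1 : ℂ) x3).a)
    (v400 := (E1F (-(ptF (GQ p).nf0 (b0A x0 x1 x2) (1 : ℂ) x3).c.x3)))
    (v402 := (ptF (GQ p).nf0 (b0A x0 x1 x2) (1 : ℂ) x3).wim)
    (v404 := (ptF (GQ p).nf0 (b0A x0 x1 x2) (1 : ℂ) x3).wi)
    (v405 := (ptF (GQ p).nf0 (b0A x0 x1 x2) (1 : ℂ) x3).f)
    (v407 := (ptF (GQ p).nf0 (b0A x0 x1 x2) (1 : ℂ) x3).fm)
    (v408 := (ptF (GQ p).nf0 (b0A x0 x1 x2) (1 : ℂ) x3).A2)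
    (v410 := (ptF (GQ p).nf0 (b0A x0 x1 x2) (1 : ℂ) x3).A2m)
    (v411 := (ptF (GQ p).nf0 (b0A x0 x1 x2) (1 : ℂ) x3).A3)
    (v413 := (ptF (GQ p).nf0 (b0A x0 x1 x2) (1 : ℂ) x3).N)
    (v415 := (ptF (GQ p).nf0 (b0A x0 x1 x2) (1 : ℂ) x3).q1)
    (v416 := (ptF (GQ p).nf0 (b0A x0 x1 x2) (1 : ℂ) x3).q)
    (v426 := (LmF (-(ptF (GQ p).nf0 (b0A x0 x1 x2) (1 : ℂ) x3).q)))
    (v428 := (ptF (GQ p).nf0 (b0A x0 x1 x2) (1 : ℂ) x3).lq)
    (v436 := (E1F ((b0A x0 x1 x2).se * (ptF (GQ p).nf0 (b0A x0 x1 x2) (1 : ℂ) x3).lq)))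
    (v437 := (ptF (GQ p).nf0 (b0A x0 x1 x2) (1 : ℂ) x3).sqm)
    (v439 := (ptF (GQ p).nf0 (b0A x0 x1 x2) (1 : ℂ) x3).sq)
    (v449 := (ptF (GQ p).nf0 (b0A x0 x1 x2) (1 : ℂ) x3).Dl)
    (v450 := (ptF (GQ p).nf0 (b0A x0 x1 x2) (1 : ℂ) x3).Sm)
    (v467 := (LmF (ptF (GQ p).nf0 (b0A x0 x1 x2) (1 : ℂ) x3).Sm))
    (v468 := (ptF1 (GQ p).nf0 (GQ p).nf (b0A x0 x1 x2) (1 : ℂ) x3).ls)
    (v470 := (ptF (GQ p).nf0 (b0A x0 x1 x2) (1 : ℂ) x3).hs)
    (v477 := (E1F (ptF (GQ p).nf0 (b0A x0 x1 x2) (1 : ℂ) x3).hs))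
    (v478 := (ptF (GQ p).nf0 (b0A x0 x1 x2) (1 : ℂ) x3).Qp)
    (v488 := (ptF (GQ p).nf0 (b0A x0 x1 x2) (1 : ℂ) x3).SH)
    (v490 := (ptF (GQ p).nf0 (b0A x0 x1 x2) (1 : ℂ) x3).q0)
    (v493 := (ptF (GQ p).nf0 (b0A x0 x1 x2) (1 : ℂ) x3).u0)
    (v494 := (ptF (GQ p).nf0 (b0A x0 x1 x2) (1 : ℂ) x3).um0)
    (v496 := (ptF (GQ p).nf0 (b0A x0 x1 x2) (1 : ℂ) x3).e1)
    (v498 := (ptF (GQ p).nf0 (b0A x0 x1 x2) (1 : ℂ) x3).chm)
    (v499 := (ptF (GQ p).nf0 (b0A x0 x1 x2) (1 : ℂ) x3).chu)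
    (v510 := (ptF (GQ p).nf0 (b0A x0 x1 x2) (1 : ℂ) x3).XW)
    (v520 := (ptF (GQ p).nf0 (b0A x0 x1 x2) (1 : ℂ) x3).XG)
    (v523 := (ptF (GQ p).nf0 (b0A x0 x1 x2) (1 : ℂ) x3).D)
    (v524 := (ptF (GQ p).nf0 (b0A x0 x1 x2) (1 : ℂ) x3).Ts)
    (v528 := (ptF (GQ p).nf0 (b0A x0 x1 x2) (1 : ℂ) x3).iq)
    (v529 := (ptF (GQ p).nf0 (b0A x0 x1 x2) (1 : ℂ) x3).Di)
    (v531 := (ptF (GQ p).nf0 (b0A x0 x1 x2) (1 : ℂ) x3).Un)
    (v552 := (Tb.tkb (GQ p) (tl p) (p.tj).val (b0A x0 x1 x2)))
    (v557 := (Tb.un (b0A x0 x1 x2) (ptF (GQ p).nf0 (b0A x0 x1 x2) (1 : ℂ) x3).Un))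
    (v561 := (Tb.yn (b0A x0 x1 x2) (ptF (GQ p).nf0 (b0A x0 x1 x2) (1 : ℂ) x3).Un))
    (v563 := (Tb.ek (b0A x0 x1 x2)))
    (v691 := (HP (GQ p).pol (GQ p).H (Tb.yn (b0A x0 x1 x2) (ptF (GQ p).nf0 (b0A x0 x1 x2) (1 : ℂ) x3).Un) (Tb.deb (GQ p) (b0A x0 x1 x2)) (Tb.dbb (GQ p) (b0A x0 x1 x2))))
    (v700 := (ptF1 (GQ p).nf0 (GQ p).nf (b0A x0 x1 x2) (1 : ℂ) x3).Ln)
    (v717 := (Tb.anb (GQ p) 0 (b0A x0 x1 x2)))
    (v718 := ((GQ p).c 0))
    (v724 := (ptF1 (GQ p).nf0 (GQ p).nf (b0A x0 x1 x2) (1 : ℂ) x3).Rn)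
    (v739 := (E1F (-((b0A x0 x1 x2).s * (ptF1 (GQ p).nf0 (GQ p).nf (b0A x0 x1 x2) (1 : ℂ) x3).Ln))))
    (v741 := (ptF1 (GQ p).nf0 (GQ p).nf (b0A x0 x1 x2) (1 : ℂ) x3).wln)
    (v744 := (ptF1 (GQ p).nf0 (GQ p).nf (b0A x0 x1 x2) (1 : ℂ) x3).En)
    (v761 := (LmF ((b0A x0 x1 x2).s * (ptF1 (GQ p).nf0 (GQ p).nf (b0A x0 x1 x2) (1 : ℂ) x3).wln)))
    (v762 := (ptF1 (GQ p).nf0 (GQ p).nf (b0A x0 x1 x2) (1 : ℂ) x3).lamn)
    (v763 := (ptF1 (GQ p).nf0 (GQ p).nf (b0A x0 x1 x2) (1 : ℂ) x3).ERn)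
    (v768 := (ptF1 (GQ p).nf0 (GQ p).nf (b0A x0 x1 x2) (1 : ℂ) x3).Zc)
    (v770 := (ptF1 (GQ p).nf0 (GQ p).nf (b0A x0 x1 x2) (1 : ℂ) x3).sz)
    (v777 := (E1F (ptF1 (GQ p).nf0 (GQ p).nf (b0A x0 x1 x2) (1 : ℂ) x3).sz))
    (v779 := (ptF1 (GQ p).nf0 (GQ p).nf (b0A x0 x1 x2) (1 : ℂ) x3).Ez)
    (v780 := (ptF1 (GQ p).nf0 (GQ p).nf (b0A x0 x1 x2) (1 : ℂ) x3).iR)
    (v782 := (ptF1 (GQ p).nf0 (GQ p).nf (b0A x0 x1 x2) (1 : ℂ) x3).law)
    (v785 := (ptF1 (GQ p).nf0 (GQ p).nf (b0A x0 x1 x2) (1 : ℂ) x3).A)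
    (v788 := (ptF1 (GQ p).nf0 (GQ p).nf (b0A x0 x1 x2) (1 : ℂ) x3).G)
    (v792 := (fG (ptF (GQ p).nf0 (b0A x0 x1 x2) (1 : ℂ) x3) (Tb.tkb (GQ p) (tl p) (p.tj).val (b0A x0 x1 x2))).KK)
    (v796 := (fG (ptF (GQ p).nf0 (b0A x0 x1 x2) (1 : ℂ) x3) (Tb.tkb (GQ p) (tl p) (p.tj).val (b0A x0 x1 x2))).dq)
    (v797 := w)
    rfl
    rfl
    rfl
    rfl
    rfl
    rfl
    rfl
    rfl
    rfl
    rfl
    rfl
    rfl
    rfl
    rfl
    rfl
    (fun  h => Ex12_b (h.trans_le (by norm_num)))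
    rfl
    rfl
    rfl
    rfl
    rfl
    rfl
    rfl
    (fun _ h => Ex12_b (h.trans_le (by norm_num)))
    rfl
    rfl
    rfl
    rfl
    rfl
    rfl
    rfl
    rfl
    rfl
    rfl
    rfl
    rfl
    rfl
    rfl
    rfl
    rfl
    rfl
    rfl
    rfl
    rfl
    rfl
    rfl
    rfl
    rfl
    rfl
    rfl
    rfl
    rfl
    rfl
    rfl
    rfl
    (fun _ _ h => Ex1_b h)
    rfl
    rfl
    rfl
    rfl
    rfl
    rfl
    rfl
    rfl
    rfl
    rfl
    rfl
    rfl
    rfl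
    rfl
    rfl
    rfl
    rfl
    rfl
    rfl
    rfl
    rfl
    (fun _ _ _ h => Lm4_b h)
    rfl
    rfl
    rfl
    rfl
    rfl
    rfl
    rfl
    rfl
    rfl
    rfl
    rfl
    rfl
    rfl
    rfl
    rfl
    rfl
    rfl
    rfl
    rfl
    rfl
    rfl
    rfl
    rfl
    rfl
    rfl
    rfl
    rfl
    rfl
    rfl
    rfl
    rfl
    rfl
    rfl
    rfl
    rfl
    rfl
    rfl
    rfl
    rfl
    rfl
    rfl
    rfl
    rfl
    rfl
    rfl
    rfl
    rfl
    rfl
    rfl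
    rfl
    rfl
    rfl
    rfl
    rfl
    rfl
    rfl
    rfl
    rfl
    rfl
    rfl
    rfl
    rfl
    rfl
    rfl
    rfl
    rfl
    rfl
    rfl
    rfl
    rfl
    rfl
    rfl
    rfl
    rfl
    rfl
    rfl
    rfl
    rfl
    rfl
    rfl
    rfl
    rfl
    rfl
    rfl
    rfl
    rfl
    rfl
    rfl
    rfl
    rfl
    rfl
    rfl
    rfl
    rfl
    rfl
    rfl
    rfl
    rfl
    rfl
    rfl
    rfl
    rfl
    rfl
    rfl
    rfl
    rfl
    rfl
    rfl
    rfl
    rfl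
    rfl
    rfl
    rfl
    rfl
    rfl
    rfl
    rfl
    rfl
    rfl
    rfl
    rfl
    rfl
    rfl
    rfl
    rfl
    rfl
    rfl
    rfl
    rfl
    rfl
    rfl
    rfl
    rfl
    rfl
    rfl
    rfl
    rfl
    rfl
    rfl
    rfl
    rfl
    rfl
    rfl
    rfl
    rfl
    rfl
    rfl
    rfl
    rfl
    rfl
    rfl
    rfl
    rfl
    rfl
    rfl
    rfl
    rfl
    rfl
    rfl
    rfl
    rfl
    rfl
    (Tb.an0b0 rfl)
    rfl
    rfl
    rfl
    rfl
    rfl
    rfl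
    rfl
    rfl
    rfl
    rfl
    rfl
    rfl
    rfl
    rfl
    rfl
    rfl
    rfl
    rfl
    rfl
    rfl
    rfl
    rfl
    rfl
    rfl
    rfl
    rfl
    rfl
    rfl
    rfl
    rfl
    rfl
    rfl
    rfl
    rfl
    rfl
    rfl
    rfl
    rfl
    rfl
    rfl
    rfl
    rfl
    rfl
    rfl
    rfl
    rfl
    rfl
    rfl
    rfl
    rfl
    rfl
    rfl
    rfl
    rfl
    rfl
    rfl
    rfl
    rfl
    rfl
    rfl
    rfl
    rfl
    rfl
    rfl
    (fun _ _ _ _ _ _ h => Ex1_b h)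
    rfl
    rfl
    rfl
    rfl
    rfl
    rfl
    rfl
    rfl
    rfl
    rfl
    rfl
    rfl
    rfl
    rfl
    rfl
    rfl
    rfl
    rfl
    rfl
    rfl
    rfl
    rfl
    rfl
    (fun _ _ _ _ _ _ _ h => Lm3_b h)
    rfl
    rfl
    rfl
    rfl
    rfl
    rfl
    rfl
    rfl
    rfl
    rfl
    rfl
    rfl
    rfl
    rfl
    rfl
    rfl
    rfl
    rfl
    rfl
    rfl
    (fun _ _ _ _ _ _ _ _ h => Lm3_b h)
    rfl
    rfl
    rfl
    rfl
    rfl
    rfl
    rfl
    rfl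
    rfl
    rfl
    rfl
    rfl
    rfl
    rfl
    rfl
    rfl
    rfl
    rfl
    rfl
    (fun _ _ _ _ _ _ _ _ _ h => Lm3_b h)
    rfl
    rfl
    rfl
    rfl
    rfl
    rfl
    rfl
    rfl
    rfl
    rfl
    rfl
    rfl
    rfl
    rfl
    rfl
    rfl
    rfl
    (fun _ _ _ _ _ _ _ _ _ _ h => Ex4_b h)
    rfl
    rfl
    rfl
    rfl
    rfl
    rfl
    rfl
    rfl
    rfl
    rfl
    rfl
    (fun _ _ _ _ _ _ _ _ _ _ _ h => Ex4_b h)
    rfl
    rfl
    rfl
    rfl
    rfl
    rfl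
    rfl
    rfl
    rfl
    rfl
    rfl
    rfl
    rfl
    rfl
    rfl
    rfl
    rfl
    rfl
    rfl
    rfl
    rfl
    rfl
    rfl
    rfl
    rfl
    (fun _ _ _ _ _ _ _ _ _ _ _ _ h => Lm8_b h)
    rfl
    rfl
    rfl
    rfl
    rfl
    rfl
    rfl
    rfl
    rfl
    (fun _ _ _ _ _ _ _ _ _ _ _ _ _ h => Ex12_b (h.trans_le (by norm_num)))
    rfl
    rfl
    rfl
    rfl
    rfl
    rfl
    rfl
    rfl
    rfl
    rfl
    rfl
    rfl
    rfl
    rfl
    rfl
    rfl
    rfl
    rfl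
    rfl
    rfl
    rfl
    rfl
    rfl
    rfl
    rfl
    rfl
    rfl
    rfl
    rfl
    rfl
    (fun _ _ _ _ _ _ _ _ _ _ _ _ _ _ h => Lm3_b h)
    rfl
    rfl
    rfl
    rfl
    rfl
    rfl
    rfl
    rfl
    rfl
    (fun _ _ _ _ _ _ _ _ _ _ _ _ _ _ _ h => Ex4_b h)
    rfl
    rfl
    rfl
    rfl
    rfl
    rfl
    rfl
    rfl
    rfl
    rfl
    rfl
    rfl
    rfl
    rfl
    rfl
    rfl
    rfl
    rfl
    rfl
    rfl
    rfl
    rfl
    rfl
    rfl
    rfl
    rfl
    rfl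
    rfl
    rfl
    rfl
    rfl
    rfl
    rfl
    rfl
    rfl
    rfl
    rfl
    rfl
    rfl
    rfl
    rfl
    rfl
    rfl
    rfl
    rfl
    rfl
    rfl
    rfl
    rfl
    rfl
    rfl
    rfl
    rfl
    rfl
    rfl
    rfl
    rfl
    rfl
    rfl
    rfl
    rfl
    rfl
    rfl
    rfl
    rfl
    rfl
    rfl
    rfl
    rfl
    rfl
    rfl
    rfl
    rfl
    rfl
    rfl
    rfl
    rfl
    rfl
    rfl
    rfl
    rfl
    rfl
    rfl
    rfl
    rfl
    rfl
    rfl
    rfl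
    rfl
    rfl
    rfl
    rfl
    rfl
    rfl
    rfl
    rfl
    rfl
    rfl
    rfl
    rfl
    rfl
    rfl
    rfl
    rfl
    rfl
    rfl
    rfl
    rfl
    rfl
    rfl
    rfl
    rfl
    rfl
    rfl
    rfl
    rfl
    rfl
    rfl
    rfl
    rfl
    rfl
    rfl
    rfl
    rfl
    rfl
    rfl
    rfl
    rfl
    rfl
    rfl
    rfl
    rfl
    rfl
    rfl
    rfl
    rfl
    rfl
    rfl
    rfl
    rfl
    rfl
    rfl
    rfl
    rfl
    rfl
    rfl
    rfl
    rfl
    rfl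
    rfl
    rfl
    rfl
    rfl
    rfl
    rfl
    rfl
    rfl
    rfl
    rfl
    rfl
    rfl
    rfl
    rfl
    rfl
    rfl
    rfl
    rfl
    rfl
    rfl
    rfl
    rfl
    rfl
    rfl
    rfl
    rfl
    rfl
    rfl
    rfl
    rfl
    rfl
    rfl
    rfl
    rfl
    rfl
    rfl
    rfl
    rfl
    rfl
    rfl
    rfl
    rfl
    rfl
    rfl
    rfl
    rfl
    rfl
    rfl
    rfl
    rfl
    rfl
    rfl
    rfl
    rfl
    rfl
    rfl
    rfl
    rfl
    rfl
    rfl
    rfl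
    rfl
    rfl
    rfl
    (HPq hpw).symm
    rfl
    rfl
    rfl
    rfl
    rfl
    rfl
    rfl
    rfl
    rfl
    rfl
    rfl
    rfl
    rfl
    rfl
    rfl
    rfl
    rfl
    rfl
    rfl
    rfl
    rfl
    rfl
    rfl
    rfl
    rfl
    (Tb.anb0 rfl)
    rfl
    rfl
    rfl
    rfl
    rfl
    rfl
    rfl
    rfl
    rfl
    rfl
    rfl
    rfl
    rfl
    rfl
    rfl
    rfl
    rfl
    rfl
    rfl
    rfl
    rfl
    (fun _ _ _ _ _ _ _ _ _ _ _ _ _ _ _ _ _ _ _ _ _ _ _ h => Ex1_b h)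
    rfl
    rfl
    rfl
    rfl
    rfl
    rfl
    rfl
    rfl
    rfl
    rfl
    rfl
    rfl
    rfl
    rfl
    rfl
    rfl
    rfl
    rfl
    rfl
    rfl
    rfl
    (fun _ _ _ _ _ _ _ _ _ _ _ _ _ _ _ _ _ _ _ _ _ _ _ _ h => Lm3_b h)
    rfl
    rfl
    rfl
    rfl
    rfl
    rfl
    rfl
    rfl
    rfl
    rfl
    rfl
    rfl
    rfl
    rfl
    rfl
    (fun _ _ _ _ _ _ _ _ _ _ _ _ _ _ _ _ _ _ _ _ _ _ _ _ _ _ h => Ex4_b h)
    rfl
    rfl
    rfl
    rfl
    rfl
    rfl
    rfl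
    rfl
    rfl
    rfl
    rfl
    rfl
    rfl
    rfl
    rfl
    rfl
    rfl
    rfl
    rfl
    (fun _ _ _ _ _ _ _ _ _ _ _ _ _ _ _ _ _ _ _ _ _ _ _ _ _ _ _ _ _ _ _ => hr797)

theorem mn0 {p : Pm} (hpw : (p.wi).val ≠ 0) {ep s m : ℝ} {x : ℂ} (h : Pool.Agent.helper31.IX.Asserts (prog0 p) [(ep : ℂ), (s : ℂ), (m : ℂ), x]) :
    StX (ptF (GQ p).nf0 (b0A (ep : ℂ) (s : ℂ) (m : ℂ)) (1 : ℂ) x)
      (fG (ptF (GQ p).nf0 (b0A (ep : ℂ) (s : ℂ) (m : ℂ)) (1 : ℂ) x) (Tb.tkb (GQ p) (tl p) (p.tj).val (b0A (ep : ℂ) (s : ℂ) (m : ℂ)))) ∧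
    ClA ⟨(ptF (GQ p).nf0 (b0A (ep : ℂ) (s : ℂ) (m : ℂ)) (1 : ℂ) x).c, 0⟩ (ptF1 (GQ p).nf0 (GQ p).nf (b0A (ep : ℂ) (s : ℂ) (m : ℂ)) (1 : ℂ) x) (4095 / 4096) := by
  obtain ⟨a0, a1, a2, a3, a4, a5, a6, a7, a8, a9, a10, a11, a12, a13, a14, a15, a16, a17, a18, a19, a20, a21, a22, a23, a24, a25, a26, a27, a28, a29, a30, a31⟩ := mac0 hpw (w := (ptF1 (GQ p).nf0 (GQ p).nf (b0A (ep : ℂ) (s : ℂ) (m : ℂ)) (1 : ℂ) x).A) h (by rw [sub_self, norm_zero]; exact norm_nonneg _)
  refine ⟨⟨(a3.trans (by norm_num)), (a7.trans (by norm_num)), (a8.trans (by norm_num)), (a9.trans (by norm_num)), (a12.trans (by norm_num)), (a14.trans (by norm_num)), a16, a17, a18, a29, a30, a28⟩, ?_, a27, (a24.trans (by norm_num)), (a25.trans (by norm_num)), ?_⟩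
  · intro h0
    have h1 : 0 < ((ptF1 (GQ p).nf0 (GQ p).nf (b0A (ep : ℂ) (s : ℂ) (m : ℂ)) (1 : ℂ) x).M).re := a19
    rw [h0, Complex.zero_re] at h1
    exact lt_irrefl _ h1
  · intro w hw
    exact (mac0 hpw (w := w) h hw).2.2.2.2.2.2.2.2.2.2.2.2.2.2.2.2.2.2.2.2.2.2.2.2.2.2.2.2.2.2.2

end Pool.Agent.helper12.GS.FAQ
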