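import Pool.Agent.helper12.GS.Pm
import Pool.Agent.helper14.QF.InstE

/-!
Generated: parametric straight line program and compiled form.
-/

namespace Pool.Agent.helper12.GS.FAQ

open Pool.Agent.helper31.IA (Z)
open Pool.Agent.helper31.IX (Op XOps runX Cov CovD cov_split covD_split)
open Pool.Agent.helper31.IC (Ops TD)

abbrev opsE : XOps := Pool.Agent.helper14.QF.xE

def prog0 (p : Pm) : List Op := [
  .const ⟨1099511627776, 0, 0, 0⟩,
  .scale ⟨2199023255552, 0, 0, 0⟩ 3,
  .mul 3 0,
  .mul 0 3,
  .mul 5 4,
  .lt 1 91625968981,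
  .const ⟨45812984491, 0, 0, 0⟩,
  .mul 0 2,
  .const ⟨183251937963, 0, 0, 0⟩,
  .add 1 0,
  .mul 0 5,
  .const ⟨549755813888, 0, 0, 0⟩,
  .add 1 0,
  .mul 0 8,
  .const ⟨1099511627776, 0, 0, 0⟩,
  .add 1 0,
  .ball 0 530244,
  .neg 12,
  .lt 0 91625968981,
  .mul 11 0,
  .add 0 10,
  .mul 0 2,
  .add 0 9,
  .mul 0 4,
  .add 0 8,
  .ball 0 530244,
  .add 8 0,
  .scale ⟨549755813888, 0, 0, 0⟩ 0,
  .sub 10 2,
  .mul 23 0,
  .scale ⟨549755813888, 0, 0, 0⟩ 0,
  .add 0 15,
  .mul 4 0,
  .mul 5 29,
  .mul 0 0,
  .scale ⟨4398046511104, 0, 0, 0⟩ 0,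
  .mul 32 3,
  .scale ⟨2199023255552, 0, 0, 0⟩ 0,
  .mul 2 31,
  .scale ⟨549755813888, 0, 0, 0⟩ 0,
  .scale ⟨2199023255552, 0, 0, 0⟩ 35,
  .neg 0,
  .lt 0 1099511627776,
  .const ⟨218157069, 0, 0, 0⟩,
  .mul 0 1,
  .const ⟨1527099483, 0, 0, 0⟩,
  .add 1 0,
  .mul 0 4,
  .const ⟨9162596898, 0, 0, 0⟩,
  .add 1 0,
  .mul 0 7,
  .add 0 42,
  .mul 0 9,
  .add 0 42,
  .mul 0 11,
  .add 0 41,
  .mul 0 13,
  .add 0 40,
  .ball 0 30678339,
  .mul 54 0,
  .neg 0,
  .mul 59 0,
  .lt 0 274877906944,
  .const ⟨157073089682, 0, 0, 0⟩,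
  .mul 0 1,
  .const ⟨0, 183251937963, 0, 0⟩,
  .add 1 0,
  .mul 0 4,
  .const ⟨219902325555, 0, 0, 0⟩,
  .add 1 0,
  .mul 0 7,
  .const ⟨0, 274877906944, 0, 0⟩,
  .add 1 0,
  .mul 0 10,
  .const ⟨366503875925, 0, 0, 0⟩,
  .add 1 0,
  .mul 0 13,
  .const ⟨0, 549755813888, 0, 0⟩,
  .add 1 0,
  .mul 0 16,
  .add 0 62,
  .ball 0 11184812,
  .mul 20 0,
  .const p.ec,
  .const p.bc,
  .sub 81 1,
  .sub 79 1,
  .scale ⟨2199023255552, 0, 0, 0⟩ 79,
  .const ⟨0, 0, 1099511627776, 0⟩,
  .mul 0 84,
  .mul 86 86,
  .scale ⟨5703716569088, 0, 0, 0⟩ 0,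
  .const ⟨1726576852992, 0, 0, 0⟩,
  .add 1 0,
  .mul 4 0,
  .scale ⟨2199023255552, 0, 0, 0⟩ 0,
  .mul 87 87,
  .mul 0 59,
  .scale ⟨412316860416, 0, 0, 0⟩ 0,
  .add 0 81,
  .mul 4 0,
  .mul 98 11,
  .scale ⟨549755813888, 0, 0, 0⟩ 0,
  .add 0 85,
  .inv 0,
  .mul 15 0,
  .mul 103 0,
  .const p.l1100,
  .mul 0 1,
  .const p.l1000,
  .add 1 0,
  .mul 0 4,
  .const p.l900,
  .add 1 0,
  .mul 0 7,
  .const p.l800,
  .add 1 0,
  .mul 0 10,
  .const p.l700,
  .add 1 0,
  .mul 0 13,
  .const p.l600,
  .add 1 0,
  .mul 0 16,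
  .const p.l510,
  .mul 0 39,
  .const p.l501,
  .mul 0 40,
  .const p.l500,
  .add 1 0,
  .add 4 0,
  .add 7 0,
  .mul 0 25,
  .const p.l410,
  .mul 0 48,
  .const p.l401,
  .mul 0 49,
  .const p.l400,
  .add 1 0,
  .add 4 0,
  .add 7 0,
  .mul 0 34,
  .const p.l310,
  .mul 0 57,
  .const p.l301,
  .mul 0 58,
  .const p.l300,
  .add 1 0,
  .add 4 0,
  .add 7 0,
  .mul 0 43,
  .const p.l210,
  .mul 0 66,
  .const p.l201,
  .mul 0 67,
  .const p.l200,
  .add 1 0,
  .add 4 0,
  .add 7 0,
  .mul 0 52,
  .const p.l120,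
  .mul 0 75,
  .const p.l111,
  .mul 0 76,
  .const p.l110,
  .add 1 0,
  .add 4 0,
  .mul 0 81,
  .const p.l102,
  .mul 0 82,
  .const p.l101,
  .add 1 0,
  .mul 0 85,
  .const p.l100,
  .add 1 0,
  .add 7 0,
  .add 16 0,
  .mul 0 70,
  .const p.l020,
  .mul 0 93,
  .const p.l011,
  .mul 0 94,
  .const p.l010,
  .add 1 0,
  .add 4 0,
  .mul 0 99,
  .const p.l002,
  .mul 0 100,
  .const p.l001,
  .add 1 0,
  .mul 0 103,
  .const p.l000,
  .add 1 0,
  .add 7 0,
  .add 16 0,
  .mul 89 0,
  .const p.q30,
  .mul 0 111,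
  .const p.q21,
  .mul 0 112,
  .const p.q20,
  .add 1 0,
  .add 4 0,
  .mul 0 117,
  .const p.q12,
  .mul 0 118,
  .const p.q11,
  .add 1 0,
  .mul 0 121,
  .const p.q10,
  .add 1 0,
  .add 7 0,
  .mul 0 126,
  .const p.q03,
  .mul 0 127,
  .const p.q02,
  .add 1 0,
  .mul 0 130,
  .const p.q01,
  .add 1 0,
  .mul 0 133,
  .const p.q00,
  .add 1 0,
  .add 10 0,
  .mul 218 0,
  .add 29 0,
  .mul 120 132,
  .add 221 0,
  .scale ⟨4398046511104, 0, 0, 0⟩ 0,
  .const p.e11,
  .mul 0 143,
  .const p.e10,
  .add 1 0,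
  .mul 0 147,
  .const p.e03,
  .mul 0 148,
  .const p.e02,
  .add 1 0,
  .mul 0 151,
  .const p.e01,
  .add 1 0,
  .mul 0 154,
  .const p.e00,
  .add 1 0,
  .add 10 0,
  .const p.cc,
  .mul 1 17,
  .mul 244 18,
  .mul 2 0,
  .add 0 231,
  .inv 0,
  .mul 4 0,
  .const p.n500,
  .mul 0 146,
  .const p.n400,
  .add 1 0,
  .mul 0 149,
  .const p.n300,
  .add 1 0,
  .mul 0 152,
  .const p.n210,
  .mul 0 175,
  .const p.n201,
  .mul 0 176,
  .const p.n200,
  .add 1 0,
  .add 4 0,
  .add 7 0,
  .mul 0 161,
  .const p.n110,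
  .mul 0 184,
  .const p.n101,
  .mul 0 185,
  .const p.n100,
  .add 1 0,
  .add 4 0,
  .add 7 0,
  .mul 0 170,
  .const p.n020,
  .mul 0 193,
  .const p.n011,
  .mul 0 194,
  .const p.n010,
  .add 1 0,
  .add 4 0,
  .mul 0 199,
  .const p.n002,
  .mul 0 200,
  .const p.n001,
  .add 1 0,
  .mul 0 203,
  .const p.n000,
  .add 1 0,
  .add 7 0,
  .add 16 0,
  .mul 292 69,
  .neg 0,
  .lt 0 1099511627776,
  .mul 252 0,
  .add 0 251,
  .mul 0 2,
  .add 0 250,
  .mul 0 4,
  .add 0 292,
  .mul 0 6,
  .add 0 292,
  .mul 0 8,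
  .add 0 291,
  .mul 0 10,
  .add 0 290,
  .ball 0 30678339,
  .mul 84 0,
  .scale ⟨0, 549755813888, 0, 0⟩ 0,
  .mul 309 0,
  .scale ⟨2199023255552, 0, 0, 0⟩ 0,
  .add 0 296,
  .lt 2 412316860416,
  .const ⟨122167958642, 0, 0, 0⟩,
  .mul 0 3,
  .const ⟨0, 137438953472, 0, 0⟩,
  .add 1 0,
  .mul 0 6,
  .add 0 256,
  .mul 0 8,
  .add 0 256,
  .mul 0 10,
  .add 0 255,
  .mul 0 12,
  .add 0 254,
  .mul 0 14,
  .add 0 253,
  .mul 0 16,
  .add 0 252,
  .mul 0 18,
  .add 0 314,
  .ball 0 25798904,
  .mul 22 0,
  .mul 83 334,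
  .mul 21 0,
  .mul 334 0,
  .lt 0 412316860416,
  .mul 22 0,
  .add 0 21,
  .mul 0 2,
  .add 0 277,
  .mul 0 4,
  .add 0 277,
  .mul 0 6,
  .add 0 276,
  .mul 0 8,
  .add 0 275,
  .mul 0 10,
  .add 0 274,
  .mul 0 12,
  .add 0 273,
  .mul 0 14,
  .add 0 335,
  .ball 0 25798904,
  .mul 18 0,
  .mul 353 20,
  .neg 0,
  .lt 0 412316860416,
  .mul 42 0,
  .add 0 41,
  .mul 0 2,
  .add 0 297,
  .mul 0 4,
  .add 0 297,
  .mul 0 6,
  .add 0 296,
  .mul 0 8,
  .add 0 295,
  .mul 0 10,
  .add 0 294,
  .mul 0 12,
  .add 0 293,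
  .mul 0 14,
  .add 0 355,
  .ball 0 25798904,
  .mul 39 0,
  .neg 0,
  .sub 21 0,
  .add 0 152,
  .add 373 296,
  .add 0 3,
  .sub 0 155,
  .sub 0 47,
  .mul 374 4,
  .mul 375 1,
  .neg 0,
  .lt 0 274877906944,
  .mul 376 0,
  .add 0 375,
  .mul 0 2,
  .add 0 374,
  .mul 0 4,
  .add 0 373,
  .ball 0 42949674,
  .mul 10 0,
  .neg 0,
  .mul 386 0,
  .add 0 378,
  .neg 13,
  .lt 0 274877906944,
  .mul 388 0,
  .add 0 387,
  .mul 0 2,
  .add 0 386,
  .mul 0 4,
  .add 0 385,
  .ball 0 42949674,
  .mul 26 0,
  .neg 0,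
  .mul 398 0,
  .add 0 390,
  .mul 12 0,
  .mul 15 1,
  .add 0 4,
  .mul 15 2,
  .mul 18 3,
  .add 0 2,
  .mul 5 5,
  .mul 315 315,
  .sub 379 0,
  .mul 0 2,
  .mul 410 0,
  .mul 411 0,
  .neg 0,
  .lt 0 137438953472,
  .mul 353 0,
  .add 0 351,
  .mul 0 2,
  .add 0 350,
  .mul 0 4,
  .add 0 349,
  .mul 0 6,
  .add 0 411,
  .ball 0 6391321,
  .mul 11 0,
  .scale ⟨0, 549755813888, 0, 0⟩ 0,
  .mul 424 0,
  .lt 0 91625968981,
  .mul 424 0,
  .add 0 423,
  .mul 0 2,
  .add 0 422,
  .mul 0 4,
  .add 0 421,
  .ball 0 530244,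
  .mul 8 0,
  .mul 433 0,
  .add 0 425,
  .mul 47 47,
  .mul 407 0,
  .mul 33 28,
  .scale ⟨2199023255552, 0, 0, 0⟩ 0,
  .add 2 0,
  .mul 440 0,
  .mul 53 6,
  .mul 350 0,
  .scale ⟨2199023255552, 0, 0, 0⟩ 0,
  .add 3 0,
  .mul 445 0,
  .lt 0 412316860416,
  .mul 139 0,
  .add 0 138,
  .mul 0 2,
  .add 0 394,
  .mul 0 4,
  .add 0 394,
  .mul 0 6,
  .add 0 393,
  .mul 0 8,
  .add 0 392,
  .mul 0 10,
  .add 0 391,
  .mul 0 12,
  .add 0 390,
  .mul 0 14,
  .add 0 452,
  .ball 0 25798904,
  .mul 18 0,
  .mul 464 0,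
  .scale ⟨549755813888, 0, 0, 0⟩ 0,
  .lt 0 274877906944,
  .mul 465 0,
  .add 0 464,
  .mul 0 2,
  .add 0 463,
  .mul 0 4,
  .add 0 462,
  .ball 0 42949674,
  .mul 7 0,
  .scale ⟨2199023255552, 0, 0, 0⟩ 65,
  .sub 0 446,
  .mul 69 0,
  .mul 389 0,
  .sub 469 0,
  .mul 78 44,
  .mul 388 0,
  .mul 481 0,
  .scale ⟨2199023255552, 0, 0, 0⟩ 0,
  .sub 4 0,
  .pos 0,
  .mul 459 392,
  .add 452 0,
  .mul 486 0,
  .add 0 478,
  .inv 0,
  .mul 3 0,
  .scale ⟨2199023255552, 0, 0, 0⟩ 457,
  .add 0 1,
  .mul 495 470,
  .scale ⟨549755813888, 0, 0, 0⟩ 0,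
  .mul 469 5,
  .mul 109 60,
  .add 0 63,
  .sub 0 3,
  .mul 473 8,
  .add 1 0,
  .scale ⟨2199023255552, 0, 0, 0⟩ 0,
  .mul 97 409,
  .scale ⟨2199023255552, 0, 0, 0⟩ 0,
  .mul 11 8,
  .add 1 0,
  .sub 4 0,
  .add 118 497,
  .mul 121 0,
  .scale ⟨2199023255552, 0, 0, 0⟩ 102,
  .add 1 0,
  .add 0 20,
  .scale ⟨2199023255552, 0, 0, 0⟩ 0,
  .const ⟨2199023255552, 0, 0, 0⟩,
  .add 24 0,
  .mul 22 0,
  .sub 3 0,
  .mul 424 10,
  .mul 484 1,
  .add 1 0,
  .add 486 29,
  .mul 520 28,
  .add 0 8,
  .add 48 0,
  .inv 0,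
  .mul 5 0,
  .mul 525 0,
  .add 6 0,
  .const p.t11,
  .mul 0 450,
  .const p.t10,
  .add 1 0,
  .mul 0 454,
  .const p.t03,
  .mul 0 455,
  .const p.t02,
  .add 1 0,
  .mul 0 458,
  .const p.t01,
  .add 1 0,
  .mul 0 461,
  .const p.t00,
  .add 1 0,
  .add 10 0,
  .const p.tj,
  .mul 0 465,
  .neg 0,
  .exp 0,
  .mul 4 0,
  .mul 554 21,
  .pos 263,
  .add 516 22,
  .mul 550 0,
  .add 0 542,
  .inv 0,
  .mul 3 0,
  .add 1 545,
  .mul 1 0,
  .mul 562 0,
  .neg 478,
  .exp 0,
  .const p.h800,
  .mul 0 3,
  .const p.h700,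
  .add 1 0,
  .mul 0 6,
  .const p.h600,
  .add 1 0,
  .mul 0 9,
  .const p.h501,
  .mul 0 490,
  .const p.h500,
  .add 1 0,
  .add 4 0,
  .mul 0 15,
  .const p.h410,
  .mul 0 497,
  .const p.h401,
  .mul 0 498,
  .const p.h400,
  .add 1 0,
  .add 4 0,
  .add 7 0,
  .mul 0 24,
  .const p.h310,
  .mul 0 506,
  .const p.h301,
  .mul 0 507,
  .const p.h300,
  .add 1 0,
  .add 4 0,
  .add 7 0,
  .mul 0 33,
  .const p.h211,
  .mul 0 514,
  .const p.h210,
  .add 1 0,
  .mul 0 518,
  .const p.h202,
  .mul 0 519,
  .const p.h201,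
  .add 1 0,
  .mul 0 522,
  .const p.h200,
  .add 1 0,
  .add 7 0,
  .add 13 0,
  .mul 0 48,
  .const p.h120,
  .mul 0 530,
  .const p.h111,
  .mul 0 531,
  .const p.h110,
  .add 1 0,
  .add 4 0,
  .mul 0 536,
  .const p.h102,
  .mul 0 537,
  .const p.h101,
  .add 1 0,
  .mul 0 540,
  .const p.h100,
  .add 1 0,
  .add 7 0,
  .add 16 0,
  .mul 0 66,
  .const p.h030,
  .mul 0 548,
  .const p.h021,
  .mul 0 549,
  .const p.h020,
  .add 1 0,
  .add 4 0,
  .mul 0 554,
  .const p.h012,
  .mul 0 555,
  .const p.h011,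
  .add 1 0,
  .mul 0 558,
  .const p.h010,
  .add 1 0,
  .add 7 0,
  .mul 0 563,
  .const p.h003,
  .mul 0 564,
  .const p.h002,
  .add 1 0,
  .mul 0 567,
  .const p.h001,
  .add 1 0,
  .mul 0 570,
  .const p.h000,
  .add 1 0,
  .add 10 0,
  .add 28 0,
  .const p.w1,
  .const p.wr,
  .const p.wi,
  .mul 2 579,
  .add 0 2,
  .mul 2 2,
  .const p.g11,
  .mul 0 582,
  .const p.g10,
  .add 1 0,
  .mul 0 586,
  .const p.g01,
  .mul 0 587,
  .const p.g00,
  .add 1 0,
  .add 4 0,
  .const p.f11,
  .mul 0 592,
  .const p.f10,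
  .add 1 0,
  .mul 0 596,
  .const p.f01,
  .mul 0 597,
  .const p.f00,
  .add 1 0,
  .add 4 0,
  .sub 122 21,
  .mul 11 0,
  .add 0 2,
  .mul 2 2,
  .add 0 24,
  .inv 0,
  .mul 3 0,
  .add 33 0,
  .scale ⟨2199023255552, 0, 0, 0⟩ 690,
  .sub 161 657,
  .add 130 136,
  .mul 131 0,
  .mul 138 0,
  .mul 3 0,
  .add 6 687,
  .mul 1 0,
  .add 7 0,
  .const p.a11,
  .mul 0 619,
  .const p.a10,
  .add 1 0,
  .mul 0 623,
  .const p.a03,
  .mul 0 624,
  .const p.a02,
  .add 1 0,
  .mul 0 627,
  .const p.a01,
  .add 1 0,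
  .mul 0 630,
  .const p.a00,
  .add 1 0,
  .add 10 0,
  .scale ⟨2199023255552, 0, 0, 0⟩ 0,
  .const p.ca,
  .add 187 683,
  .mul 2 0,
  .mul 2 167,
  .add 0 708,
  .inv 0,
  .mul 3 0,
  .mul 726 24,
  .neg 0,
  .lt 0 1099511627776,
  .mul 686 0,
  .add 0 685,
  .mul 0 2,
  .add 0 684,
  .mul 0 4,
  .add 0 726,
  .mul 0 6,
  .add 0 726,
  .mul 0 8,
  .add 0 725,
  .mul 0 10,
  .add 0 724,
  .ball 0 30678339,
  .mul 39 0,
  .scale ⟨0, 549755813888, 0, 0⟩ 0,
  .mul 743 0,
  .scale ⟨2199023255552, 0, 0, 0⟩ 0,
  .add 0 730,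
  .lt 2 412316860416,
  .mul 433 2,
  .add 0 432,
  .mul 0 4,
  .add 0 688,
  .mul 0 6,
  .add 0 688,
  .mul 0 8,
  .add 0 687,
  .mul 0 10,
  .add 0 686,
  .mul 0 12,
  .add 0 685,
  .mul 0 14,
  .add 0 684,
  .mul 0 16,
  .add 0 746,
  .ball 0 25798904,
  .mul 20 0,
  .mul 18 38,
  .mul 765 0,
  .lt 0 549755813888,
  .scale ⟨549755813888, 0, 0, 0⟩ 296,
  .sub 0 544,
  .sub 0 436,
  .add 0 5,
  .mul 770 0,
  .neg 0,
  .lt 0 274877906944,
  .mul 765 0,
  .add 0 764,
  .mul 0 2,
  .add 0 763,
  .mul 0 4,
  .add 0 762,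
  .ball 0 42949674,
  .mul 7 0,
  .add 0 765,
  .inv 532,
  .mul 12 3,
  .mul 0 1,
  .sub 786 0,
  .mul 493 0,
  .sub 788 0,
  .mul 22 5,
  .mul 7 0,
  .mul 497 0,
  .lt 235 549755813888,
  .add 753 257,
  .add 754 265,
  .mul 1 0,
  .mul 0 239,
  .mul 762 263,
  .scale ⟨2199023255552, 0, 0, 0⟩ 0,
  .inv 2,
  .mul 1 0,
  .lt 0 1099511627776,
  .rball 11 8,
  .lt 0 1099243192320]

set_option maxRecDepth 1000000 in
set_option linter.unusedVariables false in
noncomputable def chk0 {α : Type} (cst : Z → α) (add sub mul : α → α → α) (scale : Z → α → α)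
    (neg inv exp log : α → α) (ok : α → Bool) (isPos : Nat → α → Bool) (isLt : α → Nat → Bool)
    (ball : Nat → α → α) (rball : α → α → α) (p : Pm) : List α → Bool
  | [x0, x1, x2, x3] =>
  let v0 := cst ⟨1099511627776, 0, 0, 0⟩; ok v0 && (
  let v1 := scale ⟨2199023255552, 0, 0, 0⟩ x2; ok v1 && (
  let v2 := mul x1 v1; ok v2 && (
  let v3 := mul v2 x0; ok v3 && (
  let v4 := mul x1 x0; ok v4 && (
  isLt v3 91625968981 && (
  let v5 := cst ⟨45812984491, 0, 0, 0⟩; ok v5 && (
  let v6 := mul v5 v3; ok v6 && (
  let v7 := cst ⟨183251937963, 0, 0, 0⟩; ok v7 && (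
  let v8 := add v6 v7; ok v8 && (
  let v9 := mul v8 v3; ok v9 && (
  let v10 := cst ⟨549755813888, 0, 0, 0⟩; ok v10 && (
  let v11 := add v9 v10; ok v11 && (
  let v12 := mul v11 v3; ok v12 && (
  let v13 := cst ⟨1099511627776, 0, 0, 0⟩; ok v13 && (
  let v14 := add v12 v13; ok v14 && (
  let v15 := ball 530244 v14; ok v15 && (
  let v16 := neg v3; ok v16 && (
  isLt v16 91625968981 && (
  let v17 := mul v5 v16; ok v17 && (
  let v18 := add v17 v7; ok v18 && (
  let v19 := mul v18 v16; ok v19 && (
  let v20 := add v19 v10; ok v20 && (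
  let v21 := mul v20 v16; ok v21 && (
  let v22 := add v21 v13; ok v22 && (
  let v23 := ball 530244 v22; ok v23 && (
  let v24 := add v15 v23; ok v24 && (
  let v25 := scale ⟨549755813888, 0, 0, 0⟩ v24; ok v25 && (
  let v26 := sub v15 v23; ok v26 && (
  let v27 := mul v3 v26; ok v27 && (
  let v28 := scale ⟨549755813888, 0, 0, 0⟩ v27; ok v28 && (
  let v29 := add v28 v13; ok v29 && (
  let v30 := mul v25 v29; ok v30 && (
  let v31 := mul v25 v1; ok v31 && (
  let v32 := mul v31 v31; ok v32 && (
  let v33 := scale ⟨4398046511104, 0, 0, 0⟩ v32; ok v33 && (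
  let v34 := mul v1 v30; ok v34 && (
  let v35 := scale ⟨2199023255552, 0, 0, 0⟩ v34; ok v35 && (
  let v36 := mul v33 v4; ok v36 && (
  let v37 := scale ⟨549755813888, 0, 0, 0⟩ v36; ok v37 && (
  let v38 := scale ⟨2199023255552, 0, 0, 0⟩ v2; ok v38 && (
  let v39 := neg v38; ok v39 && (
  isLt v39 1099511627776 && (
  let v40 := cst ⟨218157069, 0, 0, 0⟩; ok v40 && (
  let v41 := mul v40 v39; ok v41 && (
  let v42 := cst ⟨1527099483, 0, 0, 0⟩; ok v42 && (
  let v43 := add v41 v42; ok v43 && (
  let v44 := mul v43 v39; ok v44 && (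
  let v45 := cst ⟨9162596898, 0, 0, 0⟩; ok v45 && (
  let v46 := add v44 v45; ok v46 && (
  let v47 := mul v46 v39; ok v47 && (
  let v48 := add v47 v5; ok v48 && (
  let v49 := mul v48 v39; ok v49 && (
  let v50 := add v49 v7; ok v50 && (
  let v51 := mul v50 v39; ok v51 && (
  let v52 := add v51 v10; ok v52 && (
  let v53 := mul v52 v39; ok v53 && (
  let v54 := add v53 v13; ok v54 && (
  let v55 := ball 30678339 v54; ok v55 && (
  let v56 := mul v1 v55; ok v56 && (
  let v57 := neg v56; ok v57 && (
  let v58 := mul x1 v57; ok v58 && (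
  isLt v58 274877906944 && (
  let v59 := cst ⟨157073089682, 0, 0, 0⟩; ok v59 && (
  let v60 := mul v59 v58; ok v60 && (
  let v61 := cst ⟨0, 183251937963, 0, 0⟩; ok v61 && (
  let v62 := add v60 v61; ok v62 && (
  let v63 := mul v62 v58; ok v63 && (
  let v64 := cst ⟨219902325555, 0, 0, 0⟩; ok v64 && (
  let v65 := add v63 v64; ok v65 && (
  let v66 := mul v65 v58; ok v66 && (
  let v67 := cst ⟨0, 274877906944, 0, 0⟩; ok v67 && (
  let v68 := add v66 v67; ok v68 && (
  let v69 := mul v68 v58; ok v69 && (
  let v70 := cst ⟨366503875925, 0, 0, 0⟩; ok v70 && (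
  let v71 := add v69 v70; ok v71 && (
  let v72 := mul v71 v58; ok v72 && (
  let v73 := cst ⟨0, 549755813888, 0, 0⟩; ok v73 && (
  let v74 := add v72 v73; ok v74 && (
  let v75 := mul v74 v58; ok v75 && (
  let v76 := add v75 v13; ok v76 && (
  let v77 := ball 11184812 v76; ok v77 && (
  let v78 := mul v57 v77; ok v78 && (
  let v79 := cst (p.ec); ok v79 && (
  let v80 := cst (p.bc); ok v80 && (
  let v81 := sub x0 v79; ok v81 && (
  let v82 := sub v2 v80; ok v82 && (
  let v83 := scale ⟨2199023255552, 0, 0, 0⟩ v3; ok v83 && (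
  let v84 := cst ⟨0, 0, 1099511627776, 0⟩; ok v84 && (
  let v85 := mul v84 v0; ok v85 && (
  let v86 := mul x0 x0; ok v86 && (
  let v87 := scale ⟨5703716569088, 0, 0, 0⟩ v86; ok v87 && (
  let v88 := cst ⟨1726576852992, 0, 0, 0⟩; ok v88 && (
  let v89 := add v87 v88; ok v89 && (
  let v90 := mul v85 v89; ok v90 && (
  let v91 := scale ⟨2199023255552, 0, 0, 0⟩ v90; ok v91 && (
  let v92 := mul v4 v4; ok v92 && (
  let v93 := mul v92 v33; ok v93 && (
  let v94 := scale ⟨412316860416, 0, 0, 0⟩ v93; ok v94 && (
  let v95 := add v94 v13; ok v95 && (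
  let v96 := mul v91 v95; ok v96 && (
  let v97 := mul x1 v85; ok v97 && (
  let v98 := scale ⟨549755813888, 0, 0, 0⟩ v97; ok v98 && (
  let v99 := add v98 v13; ok v99 && (
  let v100 := inv v99; ok v100 && (
  let v101 := mul v85 v100; ok v101 && (
  let v102 := mul x1 v101; ok v102 && (
  let v103 := cst (p.l1100); ok v103 && (
  let v104 := mul v103 v102; ok v104 && (
  let v105 := cst (p.l1000); ok v105 && (
  let v106 := add v104 v105; ok v106 && (
  let v107 := mul v106 v102; ok v107 && (
  let v108 := cst (p.l900); ok v108 && (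
  let v109 := add v107 v108; ok v109 && (
  let v110 := mul v109 v102; ok v110 && (
  let v111 := cst (p.l800); ok v111 && (
  let v112 := add v110 v111; ok v112 && (
  let v113 := mul v112 v102; ok v113 && (
  let v114 := cst (p.l700); ok v114 && (
  let v115 := add v113 v114; ok v115 && (
  let v116 := mul v115 v102; ok v116 && (
  let v117 := cst (p.l600); ok v117 && (
  let v118 := add v116 v117; ok v118 && (
  let v119 := mul v118 v102; ok v119 && (
  let v120 := cst (p.l510); ok v120 && (
  let v121 := mul v120 v81; ok v121 && (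
  let v122 := cst (p.l501); ok v122 && (
  let v123 := mul v122 v82; ok v123 && (
  let v124 := cst (p.l500); ok v124 && (
  let v125 := add v123 v124; ok v125 && (
  let v126 := add v121 v125; ok v126 && (
  let v127 := add v119 v126; ok v127 && (
  let v128 := mul v127 v102; ok v128 && (
  let v129 := cst (p.l410); ok v129 && (
  let v130 := mul v129 v81; ok v130 && (
  let v131 := cst (p.l401); ok v131 && (
  let v132 := mul v131 v82; ok v132 && (
  let v133 := cst (p.l400); ok v133 && (
  let v134 := add v132 v133; ok v134 && (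
  let v135 := add v130 v134; ok v135 && (
  let v136 := add v128 v135; ok v136 && (
  let v137 := mul v136 v102; ok v137 && (
  let v138 := cst (p.l310); ok v138 && (
  let v139 := mul v138 v81; ok v139 && (
  let v140 := cst (p.l301); ok v140 && (
  let v141 := mul v140 v82; ok v141 && (
  let v142 := cst (p.l300); ok v142 && (
  let v143 := add v141 v142; ok v143 && (
  let v144 := add v139 v143; ok v144 && (
  let v145 := add v137 v144; ok v145 && (
  let v146 := mul v145 v102; ok v146 && (
  let v147 := cst (p.l210); ok v147 && (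
  let v148 := mul v147 v81; ok v148 && (
  let v149 := cst (p.l201); ok v149 && (
  let v150 := mul v149 v82; ok v150 && (
  let v151 := cst (p.l200); ok v151 && (
  let v152 := add v150 v151; ok v152 && (
  let v153 := add v148 v152; ok v153 && (
  let v154 := add v146 v153; ok v154 && (
  let v155 := mul v154 v102; ok v155 && (
  let v156 := cst (p.l120); ok v156 && (
  let v157 := mul v156 v81; ok v157 && (
  let v158 := cst (p.l111); ok v158 && (
  let v159 := mul v158 v82; ok v159 && (
  let v160 := cst (p.l110); ok v160 && (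
  let v161 := add v159 v160; ok v161 && (
  let v162 := add v157 v161; ok v162 && (
  let v163 := mul v162 v81; ok v163 && (
  let v164 := cst (p.l102); ok v164 && (
  let v165 := mul v164 v82; ok v165 && (
  let v166 := cst (p.l101); ok v166 && (
  let v167 := add v165 v166; ok v167 && (
  let v168 := mul v167 v82; ok v168 && (
  let v169 := cst (p.l100); ok v169 && (
  let v170 := add v168 v169; ok v170 && (
  let v171 := add v163 v170; ok v171 && (
  let v172 := add v155 v171; ok v172 && (
  let v173 := mul v172 v102; ok v173 && (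
  let v174 := cst (p.l020); ok v174 && (
  let v175 := mul v174 v81; ok v175 && (
  let v176 := cst (p.l011); ok v176 && (
  let v177 := mul v176 v82; ok v177 && (
  let v178 := cst (p.l010); ok v178 && (
  let v179 := add v177 v178; ok v179 && (
  let v180 := add v175 v179; ok v180 && (
  let v181 := mul v180 v81; ok v181 && (
  let v182 := cst (p.l002); ok v182 && (
  let v183 := mul v182 v82; ok v183 && (
  let v184 := cst (p.l001); ok v184 && (
  let v185 := add v183 v184; ok v185 && (
  let v186 := mul v185 v82; ok v186 && (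
  let v187 := cst (p.l000); ok v187 && (
  let v188 := add v186 v187; ok v188 && (
  let v189 := add v181 v188; ok v189 && (
  let v190 := add v173 v189; ok v190 && (
  let v191 := mul v101 v190; ok v191 && (
  let v192 := cst (p.q30); ok v192 && (
  let v193 := mul v192 v81; ok v193 && (
  let v194 := cst (p.q21); ok v194 && (
  let v195 := mul v194 v82; ok v195 && (
  let v196 := cst (p.q20); ok v196 && (
  let v197 := add v195 v196; ok v197 && (
  let v198 := add v193 v197; ok v198 && (
  let v199 := mul v198 v81; ok v199 && (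
  let v200 := cst (p.q12); ok v200 && (
  let v201 := mul v200 v82; ok v201 && (
  let v202 := cst (p.q11); ok v202 && (
  let v203 := add v201 v202; ok v203 && (
  let v204 := mul v203 v82; ok v204 && (
  let v205 := cst (p.q10); ok v205 && (
  let v206 := add v204 v205; ok v206 && (
  let v207 := add v199 v206; ok v207 && (
  let v208 := mul v207 v81; ok v208 && (
  let v209 := cst (p.q03); ok v209 && (
  let v210 := mul v209 v82; ok v210 && (
  let v211 := cst (p.q02); ok v211 && (
  let v212 := add v210 v211; ok v212 && (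
  let v213 := mul v212 v82; ok v213 && (
  let v214 := cst (p.q01); ok v214 && (
  let v215 := add v213 v214; ok v215 && (
  let v216 := mul v215 v82; ok v216 && (
  let v217 := cst (p.q00); ok v217 && (
  let v218 := add v216 v217; ok v218 && (
  let v219 := add v208 v218; ok v219 && (
  let v220 := mul v1 v219; ok v220 && (
  let v221 := add v191 v220; ok v221 && (
  let v222 := mul v101 v89; ok v222 && (
  let v223 := add v1 v222; ok v223 && (
  let v224 := scale ⟨4398046511104, 0, 0, 0⟩ v223; ok v224 && (
  let v225 := cst (p.e11); ok v225 && (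
  let v226 := mul v225 v82; ok v226 && (
  let v227 := cst (p.e10); ok v227 && (
  let v228 := add v226 v227; ok v228 && (
  let v229 := mul v228 v81; ok v229 && (
  let v230 := cst (p.e03); ok v230 && (
  let v231 := mul v230 v82; ok v231 && (
  let v232 := cst (p.e02); ok v232 && (
  let v233 := add v231 v232; ok v233 && (
  let v234 := mul v233 v82; ok v234 && (
  let v235 := cst (p.e01); ok v235 && (
  let v236 := add v234 v235; ok v236 && (
  let v237 := mul v236 v82; ok v237 && (
  let v238 := cst (p.e00); ok v238 && (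
  let v239 := add v237 v238; ok v239 && (
  let v240 := add v229 v239; ok v240 && (
  let v241 := cst (p.cc); ok v241 && (
  let v242 := mul v240 v224; ok v242 && (
  let v243 := mul x1 v224; ok v243 && (
  let v244 := mul v241 v243; ok v244 && (
  let v245 := add v244 v13; ok v245 && (
  let v246 := inv v245; ok v246 && (
  let v247 := mul v242 v246; ok v247 && (
  let v248 := cst (p.n500); ok v248 && (
  let v249 := mul v248 v102; ok v249 && (
  let v250 := cst (p.n400); ok v250 && (
  let v251 := add v249 v250; ok v251 && (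
  let v252 := mul v251 v102; ok v252 && (
  let v253 := cst (p.n300); ok v253 && (
  let v254 := add v252 v253; ok v254 && (
  let v255 := mul v254 v102; ok v255 && (
  let v256 := cst (p.n210); ok v256 && (
  let v257 := mul v256 v81; ok v257 && (
  let v258 := cst (p.n201); ok v258 && (
  let v259 := mul v258 v82; ok v259 && (
  let v260 := cst (p.n200); ok v260 && (
  let v261 := add v259 v260; ok v261 && (
  let v262 := add v257 v261; ok v262 && (
  let v263 := add v255 v262; ok v263 && (
  let v264 := mul v263 v102; ok v264 && (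
  let v265 := cst (p.n110); ok v265 && (
  let v266 := mul v265 v81; ok v266 && (
  let v267 := cst (p.n101); ok v267 && (
  let v268 := mul v267 v82; ok v268 && (
  let v269 := cst (p.n100); ok v269 && (
  let v270 := add v268 v269; ok v270 && (
  let v271 := add v266 v270; ok v271 && (
  let v272 := add v264 v271; ok v272 && (
  let v273 := mul v272 v102; ok v273 && (
  let v274 := cst (p.n020); ok v274 && (
  let v275 := mul v274 v81; ok v275 && (
  let v276 := cst (p.n011); ok v276 && (
  let v277 := mul v276 v82; ok v277 && (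
  let v278 := cst (p.n010); ok v278 && (
  let v279 := add v277 v278; ok v279 && (
  let v280 := add v275 v279; ok v280 && (
  let v281 := mul v280 v81; ok v281 && (
  let v282 := cst (p.n002); ok v282 && (
  let v283 := mul v282 v82; ok v283 && (
  let v284 := cst (p.n001); ok v284 && (
  let v285 := add v283 v284; ok v285 && (
  let v286 := mul v285 v82; ok v286 && (
  let v287 := cst (p.n000); ok v287 && (
  let v288 := add v286 v287; ok v288 && (
  let v289 := add v281 v288; ok v289 && (
  let v290 := add v273 v289; ok v290 && (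
  let v291 := mul x1 v221; ok v291 && (
  let v292 := neg v291; ok v292 && (
  isLt v292 1099511627776 && (
  let v293 := mul v40 v292; ok v293 && (
  let v294 := add v293 v42; ok v294 && (
  let v295 := mul v294 v292; ok v295 && (
  let v296 := add v295 v45; ok v296 && (
  let v297 := mul v296 v292; ok v297 && (
  let v298 := add v297 v5; ok v298 && (
  let v299 := mul v298 v292; ok v299 && (
  let v300 := add v299 v7; ok v300 && (
  let v301 := mul v300 v292; ok v301 && (
  let v302 := add v301 v10; ok v302 && (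
  let v303 := mul v302 v292; ok v303 && (
  let v304 := add v303 v13; ok v304 && (
  let v305 := ball 30678339 v304; ok v305 && (
  let v306 := mul v221 v305; ok v306 && (
  let v307 := scale ⟨0, 549755813888, 0, 0⟩ v306; ok v307 && (
  let v308 := mul x1 v307; ok v308 && (
  let v309 := scale ⟨2199023255552, 0, 0, 0⟩ v308; ok v309 && (
  let v310 := add v309 v13; ok v310 && (
  isLt v308 412316860416 && (
  let v311 := cst ⟨122167958642, 0, 0, 0⟩; ok v311 && (
  let v312 := mul v311 v308; ok v312 && (
  let v313 := cst ⟨0, 137438953472, 0, 0⟩; ok v313 && (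
  let v314 := add v312 v313; ok v314 && (
  let v315 := mul v314 v308; ok v315 && (
  let v316 := add v315 v59; ok v316 && (
  let v317 := mul v316 v308; ok v317 && (
  let v318 := add v317 v61; ok v318 && (
  let v319 := mul v318 v308; ok v319 && (
  let v320 := add v319 v64; ok v320 && (
  let v321 := mul v320 v308; ok v321 && (
  let v322 := add v321 v67; ok v322 && (
  let v323 := mul v322 v308; ok v323 && (
  let v324 := add v323 v70; ok v324 && (
  let v325 := mul v324 v308; ok v325 && (
  let v326 := add v325 v73; ok v326 && (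
  let v327 := mul v326 v308; ok v327 && (
  let v328 := add v327 v13; ok v328 && (
  let v329 := ball 25798904 v328; ok v329 && (
  let v330 := mul v307 v329; ok v330 && (
  let v331 := mul v247 x3; ok v331 && (
  let v332 := mul v310 v331; ok v332 && (
  let v333 := mul x1 v332; ok v333 && (
  isLt v333 412316860416 && (
  let v334 := mul v311 v333; ok v334 && (
  let v335 := add v334 v313; ok v335 && (
  let v336 := mul v335 v333; ok v336 && (
  let v337 := add v336 v59; ok v337 && (
  let v338 := mul v337 v333; ok v338 && (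
  let v339 := add v338 v61; ok v339 && (
  let v340 := mul v339 v333; ok v340 && (
  let v341 := add v340 v64; ok v341 && (
  let v342 := mul v341 v333; ok v342 && (
  let v343 := add v342 v67; ok v343 && (
  let v344 := mul v343 v333; ok v344 && (
  let v345 := add v344 v70; ok v345 && (
  let v346 := mul v345 v333; ok v346 && (
  let v347 := add v346 v73; ok v347 && (
  let v348 := mul v347 v333; ok v348 && (
  let v349 := add v348 v13; ok v349 && (
  let v350 := ball 25798904 v349; ok v350 && (
  let v351 := mul v332 v350; ok v351 && (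
  let v352 := mul x1 v331; ok v352 && (
  let v353 := neg v352; ok v353 && (
  isLt v353 412316860416 && (
  let v354 := mul v311 v353; ok v354 && (
  let v355 := add v354 v313; ok v355 && (
  let v356 := mul v355 v353; ok v356 && (
  let v357 := add v356 v59; ok v357 && (
  let v358 := mul v357 v353; ok v358 && (
  let v359 := add v358 v61; ok v359 && (
  let v360 := mul v359 v353; ok v360 && (
  let v361 := add v360 v64; ok v361 && (
  let v362 := mul v361 v353; ok v362 && (
  let v363 := add v362 v67; ok v363 && (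
  let v364 := mul v363 v353; ok v364 && (
  let v365 := add v364 v70; ok v365 && (
  let v366 := mul v365 v353; ok v366 && (
  let v367 := add v366 v73; ok v367 && (
  let v368 := mul v367 v353; ok v368 && (
  let v369 := add v368 v13; ok v369 && (
  let v370 := ball 25798904 v369; ok v370 && (
  let v371 := mul v331 v370; ok v371 && (
  let v372 := neg v371; ok v372 && (
  let v373 := sub v351 v372; ok v373 && (
  let v374 := add v373 v221; ok v374 && (
  let v375 := add v1 v78; ok v375 && (
  let v376 := add v375 v372; ok v376 && (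
  let v377 := sub v376 v221; ok v377 && (
  let v378 := sub v377 v330; ok v378 && (
  let v379 := mul v4 v374; ok v379 && (
  let v380 := mul v4 v378; ok v380 && (
  let v381 := neg v380; ok v381 && (
  isLt v381 274877906944 && (
  let v382 := mul v5 v381; ok v382 && (
  let v383 := add v382 v7; ok v383 && (
  let v384 := mul v383 v381; ok v384 && (
  let v385 := add v384 v10; ok v385 && (
  let v386 := mul v385 v381; ok v386 && (
  let v387 := add v386 v13; ok v387 && (
  let v388 := ball 42949674 v387; ok v388 && (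
  let v389 := mul v378 v388; ok v389 && (
  let v390 := neg v389; ok v390 && (
  let v391 := mul v4 v390; ok v391 && (
  let v392 := add v391 v13; ok v392 && (
  let v393 := neg v379; ok v393 && (
  isLt v393 274877906944 && (
  let v394 := mul v5 v393; ok v394 && (
  let v395 := add v394 v7; ok v395 && (
  let v396 := mul v395 v393; ok v396 && (
  let v397 := add v396 v10; ok v397 && (
  let v398 := mul v397 v393; ok v398 && (
  let v399 := add v398 v13; ok v399 && (
  let v400 := ball 42949674 v399; ok v400 && (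
  let v401 := mul v374 v400; ok v401 && (
  let v402 := neg v401; ok v402 && (
  let v403 := mul v4 v402; ok v403 && (
  let v404 := add v403 v13; ok v404 && (
  let v405 := mul v392 v404; ok v405 && (
  let v406 := mul v390 v404; ok v406 && (
  let v407 := add v406 v402; ok v407 && (
  let v408 := mul v392 v405; ok v408 && (
  let v409 := mul v390 v405; ok v409 && (
  let v410 := add v409 v407; ok v410 && (
  let v411 := mul v405 v405; ok v411 && (
  let v412 := mul v96 v96; ok v412 && (
  let v413 := sub v33 v412; ok v413 && (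
  let v414 := mul v413 v411; ok v414 && (
  let v415 := mul v4 v414; ok v415 && (
  let v416 := mul v4 v415; ok v416 && (
  let v417 := neg v416; ok v417 && (
  isLt v417 137438953472 && (
  let v418 := mul v64 v417; ok v418 && (
  let v419 := add v418 v67; ok v419 && (
  let v420 := mul v419 v417; ok v420 && (
  let v421 := add v420 v70; ok v421 && (
  let v422 := mul v421 v417; ok v422 && (
  let v423 := add v422 v73; ok v423 && (
  let v424 := mul v423 v417; ok v424 && (
  let v425 := add v424 v13; ok v425 && (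
  let v426 := ball 6391321 v425; ok v426 && (
  let v427 := mul v415 v426; ok v427 && (
  let v428 := scale ⟨0, 549755813888, 0, 0⟩ v427; ok v428 && (
  let v429 := mul v4 v428; ok v429 && (
  isLt v429 91625968981 && (
  let v430 := mul v5 v429; ok v430 && (
  let v431 := add v430 v7; ok v431 && (
  let v432 := mul v431 v429; ok v432 && (
  let v433 := add v432 v10; ok v433 && (
  let v434 := mul v433 v429; ok v434 && (
  let v435 := add v434 v13; ok v435 && (
  let v436 := ball 530244 v435; ok v436 && (
  let v437 := mul v428 v436; ok v437 && (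
  let v438 := mul v4 v437; ok v438 && (
  let v439 := add v438 v13; ok v439 && (
  let v440 := mul v392 v392; ok v440 && (
  let v441 := mul v33 v440; ok v441 && (
  let v442 := mul v408 v413; ok v442 && (
  let v443 := scale ⟨2199023255552, 0, 0, 0⟩ v442; ok v443 && (
  let v444 := add v441 v443; ok v444 && (
  let v445 := mul v4 v444; ok v445 && (
  let v446 := mul v392 v439; ok v446 && (
  let v447 := mul v96 v446; ok v447 && (
  let v448 := scale ⟨2199023255552, 0, 0, 0⟩ v447; ok v448 && (
  let v449 := add v445 v448; ok v449 && (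
  let v450 := mul v4 v449; ok v450 && (
  isLt v450 412316860416 && (
  let v451 := mul v311 v450; ok v451 && (
  let v452 := add v451 v313; ok v452 && (
  let v453 := mul v452 v450; ok v453 && (
  let v454 := add v453 v59; ok v454 && (
  let v455 := mul v454 v450; ok v455 && (
  let v456 := add v455 v61; ok v456 && (
  let v457 := mul v456 v450; ok v457 && (
  let v458 := add v457 v64; ok v458 && (
  let v459 := mul v458 v450; ok v459 && (
  let v460 := add v459 v67; ok v460 && (
  let v461 := mul v460 v450; ok v461 && (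
  let v462 := add v461 v70; ok v462 && (
  let v463 := mul v462 v450; ok v463 && (
  let v464 := add v463 v73; ok v464 && (
  let v465 := mul v464 v450; ok v465 && (
  let v466 := add v465 v13; ok v466 && (
  let v467 := ball 25798904 v466; ok v467 && (
  let v468 := mul v449 v467; ok v468 && (
  let v469 := mul v4 v468; ok v469 && (
  let v470 := scale ⟨549755813888, 0, 0, 0⟩ v469; ok v470 && (
  isLt v470 274877906944 && (
  let v471 := mul v5 v470; ok v471 && (
  let v472 := add v471 v7; ok v472 && (
  let v473 := mul v472 v470; ok v473 && (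
  let v474 := add v473 v10; ok v474 && (
  let v475 := mul v474 v470; ok v475 && (
  let v476 := add v475 v13; ok v476 && (
  let v477 := ball 42949674 v476; ok v477 && (
  let v478 := mul v470 v477; ok v478 && (
  let v479 := scale ⟨2199023255552, 0, 0, 0⟩ v413; ok v479 && (
  let v480 := sub v479 v33; ok v480 && (
  let v481 := mul v411 v480; ok v481 && (
  let v482 := mul v92 v481; ok v482 && (
  let v483 := sub v13 v482; ok v483 && (
  let v484 := mul v405 v439; ok v484 && (
  let v485 := mul v96 v484; ok v485 && (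
  let v486 := mul v4 v485; ok v486 && (
  let v487 := scale ⟨2199023255552, 0, 0, 0⟩ v486; ok v487 && (
  let v488 := sub v483 v487; ok v488 && (
  isPos 3 v488 && (
  let v489 := mul v29 v96; ok v489 && (
  let v490 := add v37 v489; ok v490 && (
  let v491 := mul v4 v490; ok v491 && (
  let v492 := add v491 v13; ok v492 && (
  let v493 := inv v492; ok v493 && (
  let v494 := mul v490 v493; ok v494 && (
  let v495 := scale ⟨2199023255552, 0, 0, 0⟩ v37; ok v495 && (
  let v496 := add v495 v494; ok v496 && (
  let v497 := mul v1 v26; ok v497 && (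
  let v498 := scale ⟨549755813888, 0, 0, 0⟩ v497; ok v498 && (
  let v499 := mul v29 v493; ok v499 && (
  let v500 := mul v390 v439; ok v500 && (
  let v501 := add v500 v437; ok v501 && (
  let v502 := sub v501 v498; ok v502 && (
  let v503 := mul v29 v494; ok v503 && (
  let v504 := add v502 v503; ok v504 && (
  let v505 := scale ⟨2199023255552, 0, 0, 0⟩ v504; ok v505 && (
  let v506 := mul v408 v96; ok v506 && (
  let v507 := scale ⟨2199023255552, 0, 0, 0⟩ v506; ok v507 && (
  let v508 := mul v496 v499; ok v508 && (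
  let v509 := add v507 v508; ok v509 && (
  let v510 := sub v505 v509; ok v510 && (
  let v511 := add v392 v13; ok v511 && (
  let v512 := mul v390 v511; ok v512 && (
  let v513 := scale ⟨2199023255552, 0, 0, 0⟩ v410; ok v513 && (
  let v514 := add v512 v513; ok v514 && (
  let v515 := add v514 v494; ok v515 && (
  let v516 := scale ⟨2199023255552, 0, 0, 0⟩ v515; ok v516 && (
  let v517 := cst ⟨2199023255552, 0, 0, 0⟩; ok v517 && (
  let v518 := add v493 v517; ok v518 && (
  let v519 := mul v496 v518; ok v519 && (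
  let v520 := sub v516 v519; ok v520 && (
  let v521 := mul v96 v510; ok v521 && (
  let v522 := mul v37 v520; ok v522 && (
  let v523 := add v521 v522; ok v523 && (
  let v524 := add v37 v494; ok v524 && (
  let v525 := mul v4 v496; ok v525 && (
  let v526 := add v525 v517; ok v526 && (
  let v527 := add v478 v526; ok v527 && (
  let v528 := inv v527; ok v528 && (
  let v529 := mul v523 v528; ok v529 && (
  let v530 := mul v4 v529; ok v530 && (
  let v531 := add v524 v530; ok v531 && (
  let v532 := cst (p.t11); ok v532 && (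
  let v533 := mul v532 v82; ok v533 && (
  let v534 := cst (p.t10); ok v534 && (
  let v535 := add v533 v534; ok v535 && (
  let v536 := mul v535 v81; ok v536 && (
  let v537 := cst (p.t03); ok v537 && (
  let v538 := mul v537 v82; ok v538 && (
  let v539 := cst (p.t02); ok v539 && (
  let v540 := add v538 v539; ok v540 && (
  let v541 := mul v540 v82; ok v541 && (
  let v542 := cst (p.t01); ok v542 && (
  let v543 := add v541 v542; ok v543 && (
  let v544 := mul v543 v82; ok v544 && (
  let v545 := cst (p.t00); ok v545 && (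
  let v546 := add v544 v545; ok v546 && (
  let v547 := add v536 v546; ok v547 && (
  let v548 := cst (p.tj); ok v548 && (
  let v549 := mul v548 v83; ok v549 && (
  let v550 := neg v549; ok v550 && (
  let v551 := exp v550; ok v551 && (
  let v552 := mul v547 v551; ok v552 && (
  let v553 := mul x1 v531; ok v553 && (
  isPos 3 v290 && (
  let v554 := add v37 v531; ok v554 && (
  let v555 := mul v4 v554; ok v555 && (
  let v556 := add v555 v13; ok v556 && (
  let v557 := inv v556; ok v557 && (
  let v558 := mul v554 v557; ok v558 && (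
  let v559 := add v557 v13; ok v559 && (
  let v560 := mul v558 v559; ok v560 && (
  let v561 := mul x1 v560; ok v561 && (
  let v562 := neg v83; ok v562 && (
  let v563 := exp v562; ok v563 && (
  let v564 := cst (p.h800); ok v564 && (
  let v565 := mul v564 v561; ok v565 && (
  let v566 := cst (p.h700); ok v566 && (
  let v567 := add v565 v566; ok v567 && (
  let v568 := mul v567 v561; ok v568 && (
  let v569 := cst (p.h600); ok v569 && (
  let v570 := add v568 v569; ok v570 && (
  let v571 := mul v570 v561; ok v571 && (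
  let v572 := cst (p.h501); ok v572 && (
  let v573 := mul v572 v82; ok v573 && (
  let v574 := cst (p.h500); ok v574 && (
  let v575 := add v573 v574; ok v575 && (
  let v576 := add v571 v575; ok v576 && (
  let v577 := mul v576 v561; ok v577 && (
  let v578 := cst (p.h410); ok v578 && (
  let v579 := mul v578 v81; ok v579 && (
  let v580 := cst (p.h401); ok v580 && (
  let v581 := mul v580 v82; ok v581 && (
  let v582 := cst (p.h400); ok v582 && (
  let v583 := add v581 v582; ok v583 && (
  let v584 := add v579 v583; ok v584 && (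
  let v585 := add v577 v584; ok v585 && (
  let v586 := mul v585 v561; ok v586 && (
  let v587 := cst (p.h310); ok v587 && (
  let v588 := mul v587 v81; ok v588 && (
  let v589 := cst (p.h301); ok v589 && (
  let v590 := mul v589 v82; ok v590 && (
  let v591 := cst (p.h300); ok v591 && (
  let v592 := add v590 v591; ok v592 && (
  let v593 := add v588 v592; ok v593 && (
  let v594 := add v586 v593; ok v594 && (
  let v595 := mul v594 v561; ok v595 && (
  let v596 := cst (p.h211); ok v596 && (
  let v597 := mul v596 v82; ok v597 && (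
  let v598 := cst (p.h210); ok v598 && (
  let v599 := add v597 v598; ok v599 && (
  let v600 := mul v599 v81; ok v600 && (
  let v601 := cst (p.h202); ok v601 && (
  let v602 := mul v601 v82; ok v602 && (
  let v603 := cst (p.h201); ok v603 && (
  let v604 := add v602 v603; ok v604 && (
  let v605 := mul v604 v82; ok v605 && (
  let v606 := cst (p.h200); ok v606 && (
  let v607 := add v605 v606; ok v607 && (
  let v608 := add v600 v607; ok v608 && (
  let v609 := add v595 v608; ok v609 && (
  let v610 := mul v609 v561; ok v610 && (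
  let v611 := cst (p.h120); ok v611 && (
  let v612 := mul v611 v81; ok v612 && (
  let v613 := cst (p.h111); ok v613 && (
  let v614 := mul v613 v82; ok v614 && (
  let v615 := cst (p.h110); ok v615 && (
  let v616 := add v614 v615; ok v616 && (
  let v617 := add v612 v616; ok v617 && (
  let v618 := mul v617 v81; ok v618 && (
  let v619 := cst (p.h102); ok v619 && (
  let v620 := mul v619 v82; ok v620 && (
  let v621 := cst (p.h101); ok v621 && (
  let v622 := add v620 v621; ok v622 && (
  let v623 := mul v622 v82; ok v623 && (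
  let v624 := cst (p.h100); ok v624 && (
  let v625 := add v623 v624; ok v625 && (
  let v626 := add v618 v625; ok v626 && (
  let v627 := add v610 v626; ok v627 && (
  let v628 := mul v627 v561; ok v628 && (
  let v629 := cst (p.h030); ok v629 && (
  let v630 := mul v629 v81; ok v630 && (
  let v631 := cst (p.h021); ok v631 && (
  let v632 := mul v631 v82; ok v632 && (
  let v633 := cst (p.h020); ok v633 && (
  let v634 := add v632 v633; ok v634 && (
  let v635 := add v630 v634; ok v635 && (
  let v636 := mul v635 v81; ok v636 && (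
  let v637 := cst (p.h012); ok v637 && (
  let v638 := mul v637 v82; ok v638 && (
  let v639 := cst (p.h011); ok v639 && (
  let v640 := add v638 v639; ok v640 && (
  let v641 := mul v640 v82; ok v641 && (
  let v642 := cst (p.h010); ok v642 && (
  let v643 := add v641 v642; ok v643 && (
  let v644 := add v636 v643; ok v644 && (
  let v645 := mul v644 v81; ok v645 && (
  let v646 := cst (p.h003); ok v646 && (
  let v647 := mul v646 v82; ok v647 && (
  let v648 := cst (p.h002); ok v648 && (
  let v649 := add v647 v648; ok v649 && (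
  let v650 := mul v649 v82; ok v650 && (
  let v651 := cst (p.h001); ok v651 && (
  let v652 := add v650 v651; ok v652 && (
  let v653 := mul v652 v82; ok v653 && (
  let v654 := cst (p.h000); ok v654 && (
  let v655 := add v653 v654; ok v655 && (
  let v656 := add v645 v655; ok v656 && (
  let v657 := add v628 v656; ok v657 && (
  let v658 := cst (p.w1); ok v658 && (
  let v659 := cst (p.wr); ok v659 && (
  let v660 := cst (p.wi); ok v660 && (
  let v661 := mul v658 v81; ok v661 && (
  let v662 := add v661 v659; ok v662 && (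
  let v663 := mul v660 v660; ok v663 && (
  let v664 := cst (p.g11); ok v664 && (
  let v665 := mul v664 v82; ok v665 && (
  let v666 := cst (p.g10); ok v666 && (
  let v667 := add v665 v666; ok v667 && (
  let v668 := mul v667 v81; ok v668 && (
  let v669 := cst (p.g01); ok v669 && (
  let v670 := mul v669 v82; ok v670 && (
  let v671 := cst (p.g00); ok v671 && (
  let v672 := add v670 v671; ok v672 && (
  let v673 := add v668 v672; ok v673 && (
  let v674 := cst (p.f11); ok v674 && (
  let v675 := mul v674 v82; ok v675 && (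
  let v676 := cst (p.f10); ok v676 && (
  let v677 := add v675 v676; ok v677 && (
  let v678 := mul v677 v81; ok v678 && (
  let v679 := cst (p.f01); ok v679 && (
  let v680 := mul v679 v82; ok v680 && (
  let v681 := cst (p.f00); ok v681 && (
  let v682 := add v680 v681; ok v682 && (
  let v683 := add v678 v682; ok v683 && (
  let v684 := sub v561 v662; ok v684 && (
  let v685 := mul v673 v684; ok v685 && (
  let v686 := add v685 v683; ok v686 && (
  let v687 := mul v684 v684; ok v687 && (
  let v688 := add v687 v663; ok v688 && (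
  let v689 := inv v688; ok v689 && (
  let v690 := mul v686 v689; ok v690 && (
  let v691 := add v657 v690; ok v691 && (
  let v692 := scale ⟨2199023255552, 0, 0, 0⟩ v1; ok v692 && (
  let v693 := sub v531 v35; ok v693 && (
  let v694 := add v563 v557; ok v694 && (
  let v695 := mul v563 v694; ok v695 && (
  let v696 := mul v557 v695; ok v696 && (
  let v697 := mul v693 v696; ok v697 && (
  let v698 := add v691 v10; ok v698 && (
  let v699 := mul v697 v698; ok v699 && (
  let v700 := add v692 v699; ok v700 && (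
  let v701 := cst (p.a11); ok v701 && (
  let v702 := mul v701 v82; ok v702 && (
  let v703 := cst (p.a10); ok v703 && (
  let v704 := add v702 v703; ok v704 && (
  let v705 := mul v704 v81; ok v705 && (
  let v706 := cst (p.a03); ok v706 && (
  let v707 := mul v706 v82; ok v707 && (
  let v708 := cst (p.a02); ok v708 && (
  let v709 := add v707 v708; ok v709 && (
  let v710 := mul v709 v82; ok v710 && (
  let v711 := cst (p.a01); ok v711 && (
  let v712 := add v710 v711; ok v712 && (
  let v713 := mul v712 v82; ok v713 && (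
  let v714 := cst (p.a00); ok v714 && (
  let v715 := add v713 v714; ok v715 && (
  let v716 := add v705 v715; ok v716 && (
  let v717 := scale ⟨2199023255552, 0, 0, 0⟩ v716; ok v717 && (
  let v718 := cst (p.ca); ok v718 && (
  let v719 := add v531 v35; ok v719 && (
  let v720 := mul v717 v719; ok v720 && (
  let v721 := mul v718 v553; ok v721 && (
  let v722 := add v721 v13; ok v722 && (
  let v723 := inv v722; ok v723 && (
  let v724 := mul v720 v723; ok v724 && (
  let v725 := mul x1 v700; ok v725 && (
  let v726 := neg v725; ok v726 && (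
  isLt v726 1099511627776 && (
  let v727 := mul v40 v726; ok v727 && (
  let v728 := add v727 v42; ok v728 && (
  let v729 := mul v728 v726; ok v729 && (
  let v730 := add v729 v45; ok v730 && (
  let v731 := mul v730 v726; ok v731 && (
  let v732 := add v731 v5; ok v732 && (
  let v733 := mul v732 v726; ok v733 && (
  let v734 := add v733 v7; ok v734 && (
  let v735 := mul v734 v726; ok v735 && (
  let v736 := add v735 v10; ok v736 && (
  let v737 := mul v736 v726; ok v737 && (
  let v738 := add v737 v13; ok v738 && (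
  let v739 := ball 30678339 v738; ok v739 && (
  let v740 := mul v700 v739; ok v740 && (
  let v741 := scale ⟨0, 549755813888, 0, 0⟩ v740; ok v741 && (
  let v742 := mul x1 v741; ok v742 && (
  let v743 := scale ⟨2199023255552, 0, 0, 0⟩ v742; ok v743 && (
  let v744 := add v743 v13; ok v744 && (
  isLt v742 412316860416 && (
  let v745 := mul v311 v742; ok v745 && (
  let v746 := add v745 v313; ok v746 && (
  let v747 := mul v746 v742; ok v747 && (
  let v748 := add v747 v59; ok v748 && (
  let v749 := mul v748 v742; ok v749 && (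
  let v750 := add v749 v61; ok v750 && (
  let v751 := mul v750 v742; ok v751 && (
  let v752 := add v751 v64; ok v752 && (
  let v753 := mul v752 v742; ok v753 && (
  let v754 := add v753 v67; ok v754 && (
  let v755 := mul v754 v742; ok v755 && (
  let v756 := add v755 v70; ok v756 && (
  let v757 := mul v756 v742; ok v757 && (
  let v758 := add v757 v73; ok v758 && (
  let v759 := mul v758 v742; ok v759 && (
  let v760 := add v759 v13; ok v760 && (
  let v761 := ball 25798904 v760; ok v761 && (
  let v762 := mul v741 v761; ok v762 && (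
  let v763 := mul v744 v724; ok v763 && (
  let v764 := mul x1 v763; ok v764 && (
  isLt v764 549755813888 && (
  let v765 := scale ⟨549755813888, 0, 0, 0⟩ v468; ok v765 && (
  let v766 := sub v765 v221; ok v766 && (
  let v767 := sub v766 v330; ok v767 && (
  let v768 := add v767 v762; ok v768 && (
  let v769 := mul x1 v768; ok v769 && (
  let v770 := neg v769; ok v770 && (
  isLt v770 274877906944 && (
  let v771 := mul v5 v770; ok v771 && (
  let v772 := add v771 v7; ok v772 && (
  let v773 := mul v772 v770; ok v773 && (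
  let v774 := add v773 v10; ok v774 && (
  let v775 := mul v774 v770; ok v775 && (
  let v776 := add v775 v13; ok v776 && (
  let v777 := ball 42949674 v776; ok v777 && (
  let v778 := mul v770 v777; ok v778 && (
  let v779 := add v778 v13; ok v779 && (
  let v780 := inv v247; ok v780 && (
  let v781 := mul v768 v777; ok v781 && (
  let v782 := mul v781 v780; ok v782 && (
  let v783 := sub x3 v782; ok v783 && (
  let v784 := mul v290 v783; ok v784 && (
  let v785 := sub x3 v784; ok v785 && (
  let v786 := mul v763 v780; ok v786 && (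
  let v787 := mul v779 v786; ok v787 && (
  let v788 := mul v290 v787; ok v788 && (
  isLt v553 549755813888 && (
  let v789 := add v35 v531; ok v789 && (
  let v790 := add v35 v524; ok v790 && (
  let v791 := mul v789 v790; ok v791 && (
  let v792 := mul v791 v552; ok v792 && (
  let v793 := mul v30 v529; ok v793 && (
  let v794 := scale ⟨2199023255552, 0, 0, 0⟩ v793; ok v794 && (
  let v795 := inv v792; ok v795 && (
  let v796 := mul v794 v795; ok v796 && (
  isLt v796 1099511627776 && (
  let v797 := rball v785 v788; ok v797 && (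
  isLt v797 1099243192320 && (
  true)))))))))))))))))))))))))))))))))))))))))))))))))))))))))))))))))))))))))))))))))))))))))))))))))))))))))))))))))))))))))))))))))))))))))))))))))))))))))))))))))))))))))))))))))))))))))))))))))))))))))))))))))))))))))))))))))))))))))))))))))))))))))))))))))))))))))))))))))))))))))))))))))))))))))))))))))))))))))))))))))))))))))))))))))))))))))))))))))))))))))))))))))))))))))))))))))))))))))))))))))))))))))))))))))))))))))))))))))))))))))))))))))))))))))))))))))))))))))))))))))))))))))))))))))))))))))))))))))))))))))))))))))))))))))))))))))))))))))))))))))))))))))))))))))))))))))))))))))))))))))))))))))))))))))))))))))))))))))))))))))))))))))))))))))))))))))))))))))))))))))))))))))))))))))))))))))))))))))))))))))))))))))))))))))))))))))))))))))))))))))))))))))))))))))))))))))))))))))))))))))))))))))))))))))))))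
  | _ => false

set_option maxRecDepth 1000000 in
theorem chk0_eq (X : XOps) (p : Pm) (m : List X.O.α)
    (h : chk0 X.O.cst X.O.add X.O.sub X.O.mul X.O.scale X.O.neg X.O.inv X.O.exp X.O.log X.O.ok
      X.O.isPos X.O.isLt X.ball X.rball p m = true) :
    runX X 3 (prog0 p) m = true := by
  match m, h with
  | [x0, x1, x2, x3], h => exact h

noncomputable def chkB0 (p : Pm) : List opsE.O.α → Bool :=
  chk0 opsE.O.cst opsE.O.add opsE.O.sub opsE.O.mul opsE.O.scale opsE.O.neg opsE.O.inv opsE.O.exp opsE.O.log opsE.O.ok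
      opsE.O.isPos opsE.O.isLt opsE.ball opsE.rball p

theorem chkB0_eq (p : Pm) (m : List opsE.O.α) (h : chkB0 p m = true) : runX opsE 3 (prog0 p) m = true :=
  chk0_eq opsE p m h

end Pool.Agent.helper12.GS.FAQ
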