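import Pool.Agent.helper12.GP.Pc
import Pool.Agent.helper12.GS.AgB
import Pool.Agent.helper12.GS.MAQM
import Pool.Agent.helper12.GS.MBQM
import Pool.Agent.helper12.GS.LAQM
import Pool.Agent.helper12.GS.LBQM
import Pool.Agent.helper12.GS.FAQM
import Pool.Agent.helper12.GS.FBQM

/-!
# The corner of a strip table from the certificates
-/

namespace Pool.Agent.helper12.GS

open Complex ComplexConjugate
open Pool.Agent.helper31.IA (Z)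
open Pool.Agent.helper31.IX (Op Cov Asserts)
open Pool.Agent.helper12.RS Pool.Agent.helper12.FF Pool.Agent.helper63.RG
open Pool.Agent.helper63.NF Pool.Agent.helper20.EQR
open Pool.Agent.helper12.GP (CC CF corOk)

theorem wi_ne {t : TD} {p : Pm} {q : PD} (hc : corOk t = true) (h : AgP t p q) :
    (p.wi).val ≠ 0 := by
  unfold corOk at hc
  rw [h.pol] at hc
  simp only [Bool.and_eq_true, decide_eq_true_eq] at hc
  have h4 : (2199023255552 : ℝ) < (q.wi : ℤ) := by exact_mod_cast hc.2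
  rw [h.wi, zi_val, cv_rv, Ne, ofReal_eq_zero]
  unfold rv
  have : (0 : ℝ) < (q.wi : ℤ) := by linarith
  positivity

variable {t : TD} {N0 m : ℕ} {e κ x0 : ℝ}

/-- **A middle node, with poles.** -/
theorem pc_midQ {p : Pm} {c h : ℕ} {b1 : ℝ} (C : CC (MAQ.prog0 p) (MBQ.prog0 p) c h b1)
    (hc : corOk t = true) {q : PD} (aq : AgP t p q) (ag : AgZ1 t m p)
    (he : 4 ≤ e) (hκ : 0 < κ) (hb : e * κ ≤ 1 / 2) (hb1 : e * κ / 2 ≤ b1)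
    (hep : |1 / e - (c : ℝ) / 2 ^ 40| ≤ (h : ℝ) / 2 ^ 40)
    (hS : SF t N0 e κ x0) (hm : m + 2 < N0) (hN : ((m + 1 : ℕ) : ℝ) ≤ 9 / 5 * e)
    (arc : ∀ T : ℂ, T + (Real.sinh κ : ℂ) ≠ 0 → ‖T‖ = 1 / 8 / e → ‖omT κ T‖ ≤ t.RR (m + 1) e κ →
      MidQ t.tb e κ θ0 (t.δ (m + 1) e κ) (t.Y (m + 1) e) m T) :
    ∀ T : ℂ, T + (Real.sinh κ : ℂ) ≠ 0 → ‖T‖ ≤ 1 / 8 / e → ‖omT κ T‖ ≤ t.RR (m + 1) e κ →
      MidQ t.tb e κ θ0 (t.δ (m + 1) e κ) (t.Y (m + 1) e) m T :=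
  have h0 : 0 < e * κ / 2 := by positivity
  td_mid hc he hκ hb hS hm hN ag (GQ_ok p) (pol_some aq)
    (by
      have h1 := MBQ.tt0 (wi_ne hc aq) (C.B (1 / e) hep (e * κ / 2) 0 h0.le hb1 le_rfl zero_le_one (by linarith) 0 (by simp))
      exact h1)
    (fun s u hs hs1 hu hu1 _ x hx => MAQ.mn0 (wi_ne hc aq) (C.A (1 / e) hep s u hs.le hs1 hu.le hu1 x hx))
    (fun s u hs hk hu hu1 hsu x hx => MBQ.mn0 (wi_ne hc aq) (C.B (1 / e) hep s u hs.le (by rw [hk]; exact hb1) hu hu1 hsu x hx))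
    arc

/-- **The last node, with poles.** -/
theorem pc_lastQ {p : Pm} {c h : ℕ} {b1 : ℝ} (C : CC (LAQ.prog0 p) (LBQ.prog0 p) c h b1)
    (hc : corOk t = true) (hl : t.Okl) {q : PD} (aq : AgP t p q) (ag : AgZ t m p) (al : AgL t p)
    (he : 4 ≤ e) (hκ : 0 < κ) (hb : e * κ ≤ 1 / 2) (hb1 : e * κ / 2 ≤ b1)
    (hep : |1 / e - (c : ℝ) / 2 ^ 40| ≤ (h : ℝ) / 2 ^ 40)
    (hS : SF t N0 e κ x0) (hm : m + 2 = N0) (hN : ((m + 1 : ℕ) : ℝ) ≤ 9 / 5 * e)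
    (arc : ∀ T : ℂ, T + (Real.sinh κ : ℂ) ≠ 0 → ‖T‖ = 1 / 8 / e → ‖omT κ T‖ ≤ t.RR (m + 1) e κ →
      LastP t.tb e κ θ0 (t.δ (m + 1) e κ) (t.Y (m + 1) e) (t.A e κ) t.x0 ((t.B1 : ℝ) / 2 ^ 40) m T) :
    ∀ T : ℂ, T + (Real.sinh κ : ℂ) ≠ 0 → ‖T‖ ≤ 1 / 8 / e → ‖omT κ T‖ ≤ t.RR (m + 1) e κ →
      LastP t.tb e κ θ0 (t.δ (m + 1) e κ) (t.Y (m + 1) e) (t.A e κ) t.x0 ((t.B1 : ℝ) / 2 ^ 40)
        m T :=
  have h0 : 0 < e * κ / 2 := by positivity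
  td_last hc hl he hκ hb hS hm hN ag al (GQ_ok p) (pol_some aq)
    (by
      have h1 := LBQ.tt0 (wi_ne hc aq) (C.B (1 / e) hep (e * κ / 2) 0 h0.le hb1 le_rfl zero_le_one (by linarith) 0 (by simp))
      exact h1)
    (fun s u hs hs1 hu hu1 _ x hx => LAQ.mn0 (wi_ne hc aq) (C.A (1 / e) hep s u hs.le hs1 hu.le hu1 x hx))
    (fun s u hs hk hu hu1 hsu x hx => LBQ.mn0 (wi_ne hc aq) (C.B (1 / e) hep s u hs.le (by rw [hk]; exact hb1) hu hu1 hsu x hx))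
    arc

/-- **The first node, with poles.** -/
theorem pc_zeroQ {p : Pm} {c h : ℕ} {b1 : ℝ} (C : CF (FAQ.prog0 p) (FBQ.prog0 p) c h b1)
    (hc : corOk t = true) {q : PD} (aq : AgP t p q) (ag : AgF t p)
    (he : 4 ≤ e) (hκ : 0 < κ) (hb1 : e * κ / 2 ≤ b1)
    (hep : |1 / e - (c : ℝ) / 2 ^ 40| ≤ (h : ℝ) / 2 ^ 40)
    (hS : SF t N0 e κ x0) (hN : 0 < N0) :
    ∀ η : ℝ, 0 ≤ η → |κ * η| < Real.pi / 2 → Tab.vv e κ (Tb.gR e) η ≤ 1 / 20 →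
    ZeroP t.tb e κ θ0 (t.δ 0 e κ) (t.Y 0 e) ((η : ℂ) * I) (t.L0 e κ ((η : ℂ) * I))
      (t.R0 e κ ((η : ℂ) * I)) (t.M0 e κ ((η : ℂ) * I)) :=
  td_zero hc he hκ hS hN ag (GQ_ok p) (GQ_ok0 p) (pol_some aq)
    (fun s u hs hs1 hu hu1 _ x hx => FAQ.mn0 (wi_ne hc aq) (C.A (1 / e) hep s u hs.le hs1 hu.le hu1 x hx))
    (fun s u hs hk hu hu1 x hx => FBQ.mn0 (wi_ne hc aq) (C.B (1 / e) hep s u hs.le (by rw [hk]; exact hb1) hu hu1 x hx))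

end Pool.Agent.helper12.GS
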