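import Pool.Agent.helper31.IC.EngD

/-!
Generated: the constants of the corner programs.
-/

namespace Pool.Agent.helper12.GS

open Pool.Agent.helper31.IA (Z)

/-- the constants -/
structure Pm where
  ec : Z
  bc : Z
  nn : Z
  tj : Z
  ca : Z
  cb : Z
  cc : Z
  ax : Z
  ay : Z
  xa : Z
  C2 : Z
  wr : Z
  wi : Z
  w1 : Z
  h000 : Z
  h001 : Z
  h002 : Z
  h003 : Z
  h010 : Z
  h011 : Z
  h012 : Z
  h020 : Z
  h021 : Z
  h030 : Z
  h100 : Z
  h101 : Z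
  h102 : Z
  h110 : Z
  h111 : Z
  h120 : Z
  h200 : Z
  h201 : Z
  h202 : Z
  h210 : Z
  h211 : Z
  h300 : Z
  h301 : Z
  h310 : Z
  h400 : Z
  h401 : Z
  h410 : Z
  h500 : Z
  h501 : Z
  h600 : Z
  h700 : Z
  h800 : Z
  m000 : Z
  m001 : Z
  m002 : Z
  m010 : Z
  m100 : Z
  m101 : Z
  m110 : Z
  m200 : Z
  m300 : Z
  a00 : Z
  a01 : Z
  a02 : Z
  a03 : Z
  a10 : Z
  a11 : Z
  b00 : Z
  b01 : Z
  b02 : Z
  b03 : Z
  b10 : Z
  b11 : Z
  t00 : Z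
  t01 : Z
  t02 : Z
  t03 : Z
  t10 : Z
  t11 : Z
  s00 : Z
  s01 : Z
  s02 : Z
  s03 : Z
  s10 : Z
  s11 : Z
  g00 : Z
  g01 : Z
  g10 : Z
  g11 : Z
  f00 : Z
  f01 : Z
  f10 : Z
  f11 : Z
  l000 : Z
  l001 : Z
  l002 : Z
  l010 : Z
  l011 : Z
  l020 : Z
  l100 : Z
  l101 : Z
  l102 : Z
  l110 : Z
  l111 : Z
  l120 : Z
  l200 : Z
  l201 : Z
  l210 : Z
  l300 : Z
  l301 : Z
  l310 : Z
  l400 : Z
  l401 : Z
  l410 : Z
  l500 : Z
  l501 : Z
  l510 : Z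
  l600 : Z
  l700 : Z
  l800 : Z
  l900 : Z
  l1000 : Z
  l1100 : Z
  q00 : Z
  q01 : Z
  q02 : Z
  q03 : Z
  q10 : Z
  q11 : Z
  q12 : Z
  q20 : Z
  q21 : Z
  q30 : Z
  n000 : Z
  n001 : Z
  n002 : Z
  n010 : Z
  n011 : Z
  n020 : Z
  n100 : Z
  n101 : Z
  n110 : Z
  n200 : Z
  n201 : Z
  n210 : Z
  n300 : Z
  n400 : Z
  n500 : Z
  e00 : Z
  e01 : Z
  e02 : Z
  e03 : Z
  e10 : Z
  e11 : Z
  B1 : Nat

def zH (p : Pm) : List (List (List Z)) := [[[p.h000, p.h001, p.h002, p.h003], [p.h010, p.h011, p.h012], [p.h020, p.h021], [p.h030]],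
    [[p.h100, p.h101, p.h102], [p.h110, p.h111], [p.h120]],
    [[p.h200, p.h201, p.h202], [p.h210, p.h211]],
    [[p.h300, p.h301], [p.h310]],
    [[p.h400, p.h401], [p.h410]],
    [[p.h500, p.h501]],
    [[p.h600]],
    [[p.h700]],
    [[p.h800]]]

def zM (p : Pm) : List (List (List Z)) := [[[p.m000, p.m001, p.m002], [p.m010]],
    [[p.m100, p.m101], [p.m110]],
    [[p.m200]],
    [[p.m300]]]

def zA (p : Pm) : List (List Z) := [[p.a00, p.a01, p.a02, p.a03], [p.a10, p.a11]]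

def zB (p : Pm) : List (List Z) := [[p.b00, p.b01, p.b02, p.b03], [p.b10, p.b11]]

def zT (p : Pm) : List (List Z) := [[p.t00, p.t01, p.t02, p.t03], [p.t10, p.t11]]

def zS (p : Pm) : List (List Z) := [[p.s00, p.s01, p.s02, p.s03], [p.s10, p.s11]]

def zG (p : Pm) : List (List Z) := [[p.g00, p.g01], [p.g10, p.g11]]

def zF (p : Pm) : List (List Z) := [[p.f00, p.f01], [p.f10, p.f11]]

def zL (p : Pm) : List (List (List Z)) := [[[p.l000, p.l001, p.l002], [p.l010, p.l011], [p.l020]],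
    [[p.l100, p.l101, p.l102], [p.l110, p.l111], [p.l120]],
    [[p.l200, p.l201], [p.l210]],
    [[p.l300, p.l301], [p.l310]],
    [[p.l400, p.l401], [p.l410]],
    [[p.l500, p.l501], [p.l510]],
    [[p.l600]],
    [[p.l700]],
    [[p.l800]],
    [[p.l900]],
    [[p.l1000]],
    [[p.l1100]]]

def zQ (p : Pm) : List (List Z) := [[p.q00, p.q01, p.q02, p.q03], [p.q10, p.q11, p.q12], [p.q20, p.q21], [p.q30]]

def zN (p : Pm) : List (List (List Z)) := [[[p.n000, p.n001, p.n002], [p.n010, p.n011], [p.n020]],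
    [[p.n100, p.n101], [p.n110]],
    [[p.n200, p.n201], [p.n210]],
    [[p.n300]],
    [[p.n400]],
    [[p.n500]]]

def zE (p : Pm) : List (List Z) := [[p.e00, p.e01, p.e02, p.e03], [p.e10, p.e11]]

end Pool.Agent.helper12.GS
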