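import Pool.Agent.helper17.NS.SmallS
import Pool.Agent.helper12.GP.Cor

/-!
# The small certificate of a strip, both forms
-/

namespace Pool.Agent.helper12.GS

open Pool.Agent.helper12.RS
open Pool.Agent.helper63.NF
open Pool.Agent.helper4.NS

theorem RR_eq_RS {t : TD} (hs : t.strip = true) (n : ℕ) (e κ : ℝ) : t.RR n e κ = RS t n e κ := by
  unfold TD.RR RS TD.dK
  rw [hs]
  rfl

theorem δ_eq_dS {t : TD} (hs : t.strip = true) (n : ℕ) (e κ : ℝ) : t.δ n e κ = dS t n e κ := by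
  unfold TD.δ dS TD.dK
  rw [hs]
  rfl

theorem SF_of_SFS {t : TD} {N0 : ℕ} {e κ x0 : ℝ} (hs : t.strip = true) (he : 0 < e)
    (h : SFS t N0 e κ x0) : SF t N0 e κ x0 := by
  refine ⟨h.tp, ?_, ?_, ?_⟩
  · intro n hn
    have h1 := h.yp n hn
    have h2 : Real.sinh κ ^ 2 + t.Y n e = (Kq e κ ^ 2 + rv (nth 0 t.y n)) / e ^ 2 := by
      unfold TD.Y Kq rv
      field_simp
    rw [h2]
    positivity
  · intro n hn
    rw [RR_eq_RS hs]
    exact h.R1 n hn
  · rw [RR_eq_RS hs]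
    exact h.ent

end Pool.Agent.helper12.GS
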